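import Pool.Agent.Y291.PA.LF

/-!
# Growth of analytic periodic functions on the real line
-/

set_option linter.unusedSectionVars false
set_option linter.unusedVariables false

namespace Pool.Agent.Y291.PA

open Complex Real Metric MeasureTheory Pool.Agent.Y291.DB

open scoped ComplexConjugate Topology

/-- The constant in the growth estimates. -/
noncomputable def DD (α β : ℝ) : ℝ := 2 * α + 204 * α ^ 3 + 68 * α ^ 2 / β

theorem DD_nonneg {α β : ℝ} (hα : 1 ≤ α) (hβ : 0 < β) : 0 ≤ DD α β := by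
  unfold DD
  positivity

theorem Phi_le {ι : Type*} [Fintype ι] {δ : ℝ} (hδ0 : 0 < δ) (hδ : δ ≤ 1 / 2) (r : ι → ℂ) (y : ℝ) :
    Phi δ r y ≤ 2 * Fintype.card ι := by
  have hE : ‖Complex.exp (y * I)‖ = 1 := Complex.norm_exp_ofReal_mul_I y
  unfold Phi
  have h2 : δ * ‖∑ j, kk δ (Complex.exp (y * I)) (r j)‖ ≤ Fintype.card ι := by
    refine (mul_le_mul_of_nonneg_left (norm_sum_le _ _) hδ0.le).trans ?_
    refine (mul_le_mul_of_nonneg_left (Finset.sum_le_sum fun j _ =>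
      kk_norm hδ0 hδ hE) hδ0.le).trans ?_
    rw [Finset.sum_const, Finset.card_univ, nsmul_eq_mul]
    have : δ * ((Fintype.card ι : ℝ) * (1 / δ)) = Fintype.card ι := by
      field_simp
    exact this.le
  have h3 : ∑ j, gg δ (Complex.exp (y * I)) (r j) ≤ Fintype.card ι := by
    refine (Finset.sum_le_sum fun j _ => (?_ : _ ≤ (1 : ℝ))).trans ?_
    · unfold gg
      rw [div_le_one (by positivity)]
      nlinarith [sq_nonneg ‖Complex.exp (y * I) - r j‖]
    · rw [Finset.sum_const, Finset.card_univ, nsmul_eq_mul, mul_one]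
  linarith

theorem Phi_periodic {ι : Type*} [Fintype ι] (δ : ℝ) (r : ι → ℂ) (y : ℝ) (n : ℤ) :
    Phi δ r (y + n * (2 * π)) = Phi δ r y := by
  unfold Phi
  have h1 : Complex.exp (((y + n * (2 * π) : ℝ) : ℂ) * I) = Complex.exp (y * I) := by
    rw [show ((y + n * (2 * π) : ℝ) : ℂ) * I = y * I + n * (2 * π * I) by push_cast; ring,
      Complex.exp_add, Complex.exp_int_mul_two_pi_mul_I, mul_one]
  rw [h1]

/-- The local Remez inequality. -/
theorem local_remez {P : ℂ → ℂ} {c R a : ℝ} (hR0 : 0 < R) (ha : 1 ≤ a) {n : ℕ} {r : Fin n → ℂ}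
    {G : ℂ → ℂ}
    (h1 : ∀ z : ℂ, ‖z - c‖ ≤ R / 16 → P z = (∏ j, (Complex.exp (z * I) - r j)) * G z ∧ G z ≠ 0)
    (h2 : ∀ z z' : ℂ, ‖z - c‖ ≤ R / 16 → ‖z' - c‖ ≤ R / 16 →
        ‖G z‖ ≤ ‖G z'‖ * Real.exp (416 * a * ‖z - z'‖ / R))
    {δ α β y m : ℝ} (hδ0 : 0 < δ) (hδ : δ ≤ 1 / 2) (hα : 1 ≤ α) (hβ0 : 0 < β) (hβ : β ≤ 1)
    (hβδ : β * δ ≤ R / 32) (hm : 0 ≤ m) (hy : |y - c| ≤ R / 32)
    (hG : volume {y' : ℝ | |y' - y| ≤ β * δ ∧ m < ‖P y'‖} ≤ ENNReal.ofReal (β * δ))
    {z : ℂ} (hz : ‖z - y‖ ≤ R / 32) (hze : ‖Complex.exp (z * I) - Complex.exp (y * I)‖ ≤ α * δ) :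
    ‖P z‖ ≤ m * Real.exp (DD α β * Phi δ r y + 1 + 416 / R * a * (β * δ + ‖z - y‖)) := by
  have hyc : ‖(y : ℂ) - c‖ ≤ R / 16 := by
    rw [← Complex.ofReal_sub, Complex.norm_real, Real.norm_eq_abs]
    linarith
  have hzc : ‖z - c‖ ≤ R / 16 := by
    have : z - c = (z - y) + (y - c) := by ring
    rw [this]
    refine (norm_add_le _ _).trans ?_
    rw [← Complex.ofReal_sub, Complex.norm_real, Real.norm_eq_abs]
    linarith
  have hGy : 0 < ‖G y‖ := norm_pos_iff.2 (h1 y hyc).2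
  set X : ℝ := 416 / R * a * (β * δ) with hX
  set m' : ℝ := m * Real.exp X / ‖G y‖ with hm'
  have hsub : {y' : ℝ | |y' - y| ≤ β * δ ∧ m' < ‖∏ j, (Complex.exp (y' * I) - r j)‖} ⊆
      {y' : ℝ | |y' - y| ≤ β * δ ∧ m < ‖P y'‖} := by
    rintro y' ⟨h3, h4⟩
    refine ⟨h3, ?_⟩
    have hy'c : ‖(y' : ℂ) - c‖ ≤ R / 16 := by
      rw [← Complex.ofReal_sub, Complex.norm_real, Real.norm_eq_abs]
      have : y' - c = (y' - y) + (y - c) := by ring
      rw [this]
      refine (abs_add_le _ _).trans ?_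
      linarith
    rw [(h1 y' hy'c).1, norm_mul]
    have h5 := h2 y y' hyc hy'c
    have h6 : ‖(y : ℂ) - y'‖ ≤ β * δ := by
      rw [← Complex.ofReal_sub, Complex.norm_real, Real.norm_eq_abs, abs_sub_comm]
      exact h3
    have h7 : ‖G y‖ ≤ ‖G y'‖ * Real.exp X := by
      refine h5.trans ?_
      gcongr
      rw [hX]
      calc 416 * a * ‖(y : ℂ) - y'‖ / R = 416 / R * a * ‖(y : ℂ) - y'‖ := by ring
        _ ≤ 416 / R * a * (β * δ) := by gcongr
    have hGy' : 0 < ‖G y'‖ := norm_pos_iff.2 (h1 y' hy'c).2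
    rw [hm', div_lt_iff₀ hGy] at h4
    have h8 : m * Real.exp X < (‖∏ j, (Complex.exp (y' * I) - r j)‖ * ‖G y'‖) * Real.exp X := by
      refine h4.trans_le ?_
      rw [mul_assoc]
      gcongr
    exact lt_of_mul_lt_mul_right h8 (Real.exp_pos _).le
  have h3 := remez hα hβ0 hβ hδ0 hδ r y ((measure_mono hsub).trans hG) hze
  rw [(h1 z hzc).1, norm_mul]
  have h4 := h2 z y hzc hyc
  calc ‖∏ j, (Complex.exp (z * I) - r j)‖ * ‖G z‖
      ≤ (m' * Real.exp ((2 * α + 204 * α ^ 3 + 68 * α ^ 2 / β) * Phi δ r y + 1)) *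
        (‖G y‖ * Real.exp (416 * a * ‖z - y‖ / R)) := by
        refine mul_le_mul h3 h4 (norm_nonneg _) ?_
        positivity
    _ = m * Real.exp (DD α β * Phi δ r y + 1 + 416 / R * a * (β * δ + ‖z - y‖)) := by
        have e1 : DD α β * Phi δ r y + 1 + 416 / R * a * (β * δ + ‖z - y‖) =
            X + ((2 * α + 204 * α ^ 3 + 68 * α ^ 2 / β) * Phi δ r y + 1) +
              416 * a * ‖z - y‖ / R := by
          unfold DD
          rw [hX]
          ring
        rw [e1, hm']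
        generalize (2 * α + 204 * α ^ 3 + 68 * α ^ 2 / β) * Phi δ r y + 1 = T1
        generalize 416 * a * ‖z - y‖ / R = T2
        rw [Real.exp_add, Real.exp_add]
        field_simp

section strip

variable {R : ℝ} (hR0 : 0 < R) (hR1 : R ≤ 1)

include hR0 hR1

theorem ball_strip (c : ℝ) : ball (c : ℂ) R ⊆ {z : ℂ | |z.im| < R} := by
  intro z hz
  rw [mem_ball, dist_eq_norm] at hz
  have h1 := Complex.abs_im_le_norm (z - c)
  rw [Complex.sub_im, Complex.ofReal_im, sub_zero] at h1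
  exact h1.trans_lt hz

/-- The factor of the chain. -/
noncomputable def Lam (R : ℝ) : ℝ := 8 * DD 1 (R / 64) + 16

omit hR1 in
theorem Lam_ge : 1 ≤ Lam R := by
  unfold Lam
  have := DD_nonneg (α := 1) (β := R / 64) le_rfl (by positivity)
  linarith

/-- The next point of the chain. -/
theorem next {P : ℂ → ℂ} {c M a : ℝ} (hM : 0 < M) (ha : 1 ≤ a)
    (hP : DifferentiableOn ℂ P {z : ℂ | |z.im| < R}) (hb : ∀ z : ℂ, |z.im| < R → ‖P z‖ ≤ M)
    (h0 : M * Real.exp (-a) ≤ ‖P c‖) : ∃ c' : ℝ, c + R / 64 ≤ c' ∧ c' ≤ c + R / 32 ∧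
      M * Real.exp (-(Lam R * a)) ≤ ‖P c'‖ := by
  obtain ⟨n, r, G, hn, h1, h2⟩ := local_factor hR0 hR1 hM ha (hP.mono (ball_strip hR0 hR1 c))
    (fun z hz => hb z (ball_strip hR0 hR1 c hz)) h0
  by_contra hcon
  push Not at hcon
  set m : ℝ := M * Real.exp (-(Lam R * a)) with hm
  set y : ℝ := c + 3 * R / 128 with hy
  have hset : {y' : ℝ | |y' - y| ≤ R / 64 * (1 / 2) ∧ m < ‖P y'‖} = ∅ := by
    ext y'
    simp only [Set.mem_ofPred_eq, Set.mem_empty_iff_false, iff_false, not_and, not_lt]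
    intro h3
    rw [abs_le] at h3
    exact (hcon y' (by linarith [h3.1]) (by linarith [h3.2])).le
  have hyc : |c - y| ≤ R / 32 := by
    rw [hy]
    rw [abs_le]
    constructor <;> linarith
  have hn1 : ‖(c : ℂ) - y‖ = |c - y| := by
    rw [← Complex.ofReal_sub, Complex.norm_real, Real.norm_eq_abs]
  have h3 := local_remez (P := P) (c := c) (R := R) (a := a) hR0 ha h1 h2 (δ := 1 / 2) (α := 1)
    (β := R / 64) (y := y) (m := m) (by norm_num) le_rfl le_rfl (by positivity) (by linarith)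
    (by linarith) (by positivity) (by rw [abs_sub_comm]; exact hyc) (by rw [hset]; simp)
    (z := c) (by rw [hn1]; exact hyc) ?_
  · have h4 : DD 1 (R / 64) * Phi (1 / 2) r y ≤ DD 1 (R / 64) * (8 * a) := by
      refine mul_le_mul_of_nonneg_left ?_ (DD_nonneg le_rfl (by positivity))
      have h5 := Phi_le (δ := 1 / 2) (by norm_num) le_rfl r y
      rw [Fintype.card_fin] at h5
      linarith
    have h6 : 416 / R * a * (R / 64 * (1 / 2) + ‖(c : ℂ) - y‖) ≤ 13 * a := by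
      rw [hn1, hy, show c - (c + 3 * R / 128) = -(3 * R / 128) by ring, abs_neg,
        abs_of_nonneg (by positivity)]
      have : 416 / R * a * (R / 64 * (1 / 2) + 3 * R / 128) = 13 * a := by
        field_simp
        ring
      exact this.le
    have h7 : M * Real.exp (-a) ≤ M * Real.exp (-(Lam R * a) + (DD 1 (R / 64) * (8 * a) + 1 +
        13 * a)) := by
      refine h0.trans (h3.trans ?_)
      rw [hm, mul_assoc, ← Real.exp_add]
      gcongr
    have h8 := Real.exp_le_exp.1 (le_of_mul_le_mul_left h7 hM)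
    unfold Lam at h8
    linarith
  · refine (norm_exp_sub c y).trans ?_
    linarith

/-- The chain. -/
theorem chain {P : ℂ → ℂ} {ys M a : ℝ} (hM : 0 < M) (ha : 1 ≤ a)
    (hP : DifferentiableOn ℂ P {z : ℂ | |z.im| < R}) (hb : ∀ z : ℂ, |z.im| < R → ‖P z‖ ≤ M)
    (h0 : M * Real.exp (-a) ≤ ‖P ys‖) : ∃ c : ℕ → ℝ, c 0 = ys ∧ (∀ k, c k + R / 64 ≤ c (k + 1)) ∧
      (∀ k, c (k + 1) ≤ c k + R / 32) ∧ ∀ k, M * Real.exp (-(Lam R ^ k * a)) ≤ ‖P (c k)‖ := by
  have hL := Lam_ge hR0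
  have hstep : ∀ (k : ℕ) (c : {c : ℝ // M * Real.exp (-(Lam R ^ k * a)) ≤ ‖P c‖}),
      ∃ c' : {c : ℝ // M * Real.exp (-(Lam R ^ (k + 1) * a)) ≤ ‖P c‖},
        (c : ℝ) + R / 64 ≤ c' ∧ (c' : ℝ) ≤ c + R / 32 := by
    rintro k ⟨c, hc⟩
    have ha' : 1 ≤ Lam R ^ k * a := by
      have := one_le_pow₀ hL (n := k)
      nlinarith
    obtain ⟨c', h1, h2, h3⟩ := next hR0 hR1 hM ha' hP hb hc
    refine ⟨⟨c', ?_⟩, h1, h2⟩
    rw [pow_succ, mul_comm (Lam R ^ k), mul_assoc]
    exact h3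
  choose! F hF1 hF2 using hstep
  set c : ∀ k : ℕ, {c : ℝ // M * Real.exp (-(Lam R ^ k * a)) ≤ ‖P c‖} :=
    fun k => Nat.rec ⟨ys, by simpa using h0⟩ (fun k c => F k c) k with hc
  refine ⟨fun k => (c k : ℝ), rfl, fun k => hF1 k (c k), fun k => hF2 k (c k), fun k => (c k).2⟩

end strip

theorem Ioc_three {f : ℝ → ℝ} (hf : ∀ y : ℝ, ∀ n : ℤ, f (y + n * (2 * π)) = f y) {s X : ℝ}
    (hX : 0 ≤ X) (h : volume {y : ℝ | y ∈ Set.Ioc 0 (2 * π) ∧ s ≤ f y} ≤ ENNReal.ofReal X) :
    volume {y : ℝ | y ∈ Set.Ioc (-(2 * π)) (4 * π) ∧ s ≤ f y} ≤ ENNReal.ofReal (3 * X) := by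
  have hsh : ∀ n : ℤ, volume {y : ℝ | y + n * (2 * π) ∈ Set.Ioc 0 (2 * π) ∧ s ≤ f y} ≤
      ENNReal.ofReal X := by
    intro n
    have h1 : {y : ℝ | y + n * (2 * π) ∈ Set.Ioc 0 (2 * π) ∧ s ≤ f y} =
        (fun y => y + n * (2 * π)) ⁻¹' {y : ℝ | y ∈ Set.Ioc 0 (2 * π) ∧ s ≤ f y} := by
      ext y
      simp only [Set.mem_ofPred_eq, Set.mem_preimage, hf]
    rw [h1, measure_preimage_add_right]
    exact h
  have hsub : {y : ℝ | y ∈ Set.Ioc (-(2 * π)) (4 * π) ∧ s ≤ f y} ⊆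
      ({y : ℝ | y + (1 : ℤ) * (2 * π) ∈ Set.Ioc 0 (2 * π) ∧ s ≤ f y} ∪
      {y : ℝ | y + (0 : ℤ) * (2 * π) ∈ Set.Ioc 0 (2 * π) ∧ s ≤ f y}) ∪
      {y : ℝ | y + (-1 : ℤ) * (2 * π) ∈ Set.Ioc 0 (2 * π) ∧ s ≤ f y} := by
    rintro y ⟨⟨h1, h2⟩, h3⟩
    rcases le_or_gt y 0 with h4 | h4
    · refine Or.inl (Or.inl ⟨⟨?_, ?_⟩, h3⟩) <;> (push_cast; linarith)
    · rcases le_or_gt y (2 * π) with h5 | h5
      · refine Or.inl (Or.inr ⟨⟨?_, ?_⟩, h3⟩) <;> (push_cast; linarith)
      · refine Or.inr ⟨⟨?_, ?_⟩, h3⟩ <;> (push_cast; linarith)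
  refine (measure_mono hsub).trans ((measure_union_le _ _).trans ?_)
  refine (add_le_add ((measure_union_le _ _).trans (add_le_add (hsh 1) (hsh 0)))
    (hsh (-1))).trans ?_
  rw [← ENNReal.ofReal_add hX hX, ← ENNReal.ofReal_add (by positivity) hX]
  exact ENNReal.ofReal_le_ofReal (by linarith)

/-- The growth function of an analytic periodic function. -/
theorem AR {R : ℝ} (hR0 : 0 < R) (hR1 : R ≤ 1) : ∃ Ca : ℝ, 1 ≤ Ca ∧ ∀ (P : ℂ → ℂ) (M a ys : ℝ),
    0 < M → 1 ≤ a → DifferentiableOn ℂ P {z : ℂ | |z.im| < R} →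
    (∀ z : ℂ, |z.im| < R → ‖P z‖ ≤ M) → (∀ z : ℂ, P (z + 2 * π) = P z) →
    M * Real.exp (-a) ≤ ‖P ys‖ → ∀ δ : ℝ, 0 < δ → δ ≤ 1 / 2 → ∃ g : ℝ → ℝ,
      (∀ y, 0 ≤ g y) ∧ (∀ y, g y ≤ Ca * a) ∧
      (∀ s : ℝ, 0 < s → volume {y : ℝ | y ∈ Set.Ioc (-(2 * π)) (4 * π) ∧ s ≤ g y} ≤
        ENNReal.ofReal (Ca * a * δ / s)) ∧
      ∀ (α β y m : ℝ) (z : ℂ), 1 ≤ α → 0 < β → β ≤ 1 → β * δ ≤ R / 32 → 0 ≤ m →
        volume {y' : ℝ | |y' - y| ≤ β * δ ∧ m < ‖P y'‖} ≤ ENNReal.ofReal (β * δ) →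
        ‖z - y‖ ≤ R / 32 → ‖Complex.exp (z * I) - Complex.exp (y * I)‖ ≤ α * δ →
        ‖P z‖ ≤ m * Real.exp (DD α β * g y + 1 + Ca * a * (β * δ + ‖z - y‖)) := by
  have hL := Lam_ge hR0
  set N : ℕ := ⌈448 / R⌉₊ with hN
  have hN1 : 448 / R ≤ N := Nat.le_ceil _
  set Λ : ℝ := Lam R ^ N with hΛ
  have hΛ1 : 1 ≤ Λ := one_le_pow₀ hL
  set Ca : ℝ := 416 / R * Λ + 2400 * (N + 1) ^ 2 * Λ + 1 with hCa
  have hCa1 : 1 ≤ Ca := by
    have : 0 ≤ 416 / R * Λ + 2400 * (N + 1) ^ 2 * Λ := by positivity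
    linarith
  refine ⟨Ca, hCa1, ?_⟩
  intro P M a ys hM ha hP hb hper h0 δ hδ0 hδ
  obtain ⟨c, hc0, hc1, hc2, hc3⟩ := chain hR0 hR1 hM ha hP hb h0
  have hak : ∀ k, 1 ≤ Lam R ^ k * a := by
    intro k
    have := one_le_pow₀ hL (n := k)
    nlinarith
  choose n r G hn hG1 hG2 using fun k => local_factor hR0 hR1 hM (hak k)
    (hP.mono (ball_strip hR0 hR1 (c k))) (fun z hz => hb z (ball_strip hR0 hR1 (c k) hz)) (hc3 k)
  have hle : ∀ k ∈ Finset.range (N + 1), Lam R ^ k * a ≤ Λ * a := by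
    intro k hk
    rw [Finset.mem_range] at hk
    have : Lam R ^ k ≤ Λ := pow_le_pow_right₀ hL (by omega)
    gcongr
  set g : ℝ → ℝ := fun y => ∑ k ∈ Finset.range (N + 1), Phi δ (r k) y with hg
  have hg0 : ∀ y, 0 ≤ g y := fun y => Finset.sum_nonneg fun k _ => Phi_nonneg hδ0.le _ _
  have hgper : ∀ y : ℝ, ∀ n : ℤ, g (y + n * (2 * π)) = g y := by
    intro y n
    rw [hg]
    simp only [Phi_periodic]
  have hnk : ∀ k ∈ Finset.range (N + 1), (n k : ℝ) ≤ 4 * (Λ * a) := by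
    intro k hk
    linarith [hn k, hle k hk]
  refine ⟨g, hg0, ?_, ?_, ?_⟩
  · intro y
    calc g y ≤ ∑ k ∈ Finset.range (N + 1), (8 * (Λ * a)) := by
          refine Finset.sum_le_sum fun k hk => ?_
          have h1 := Phi_le hδ0 hδ (r k) y
          rw [Fintype.card_fin] at h1
          linarith [hnk k hk]
      _ = (8 * (N + 1) * Λ) * a := by
          rw [Finset.sum_const, Finset.card_range, nsmul_eq_mul]
          push_cast
          ring
      _ ≤ Ca * a := by
          gcongr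
          rw [hCa]
          have h1 : (1 : ℝ) ≤ N + 1 := by
            have : (0 : ℝ) ≤ N := Nat.cast_nonneg _
            linarith
          have h2 : 8 * (N + 1) * Λ ≤ 2400 * (N + 1) ^ 2 * Λ := by
            have h4 : (N + 1 : ℝ) ≤ (N + 1) ^ 2 := by nlinarith
            gcongr
            norm_num
          have h3 : 0 ≤ 416 / R * Λ := by positivity
          linarith
  · intro s hs
    set κ : ℝ := 4 * (Λ * a) * δ with hκ
    have hκ0 : 0 ≤ κ := by positivity
    have hN0 : (0 : ℝ) < N + 1 := by positivity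
    have hs' : 0 < s / (N + 1) := by positivity
    have h1 : volume {y : ℝ | y ∈ Set.Ioc 0 (2 * π) ∧ s ≤ g y} ≤
        ENNReal.ofReal ((N + 1) * (200 * κ / (s / (N + 1)))) := by
      have hsub : {y : ℝ | y ∈ Set.Ioc 0 (2 * π) ∧ s ≤ g y} ⊆
          ⋃ k ∈ Finset.range (N + 1), {y : ℝ | y ∈ Set.Ioc 0 (2 * π) ∧
            s / (N + 1) ≤ Phi δ (r k) y} := by
        rintro y ⟨h2, h3⟩
        by_contra hcon
        simp only [Set.mem_iUnion, not_exists, Set.mem_ofPred_eq, not_and, not_le] at hcon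
        have h4 : g y < ∑ k ∈ Finset.range (N + 1), s / (N + 1) := by
          refine Finset.sum_lt_sum_of_nonempty ⟨0, by simp⟩ fun k hk => hcon k hk h2
        rw [Finset.sum_const, Finset.card_range, nsmul_eq_mul] at h4
        push_cast at h4
        rw [mul_div_cancel₀ _ hN0.ne'] at h4
        linarith
      refine (measure_mono hsub).trans ((measure_biUnion_finset_le _ _).trans ?_)
      calc ∑ k ∈ Finset.range (N + 1), volume {y : ℝ | y ∈ Set.Ioc 0 (2 * π) ∧
            s / (N + 1) ≤ Phi δ (r k) y}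
          ≤ ∑ k ∈ Finset.range (N + 1), ENNReal.ofReal (200 * κ / (s / (N + 1))) := by
            refine Finset.sum_le_sum fun k hk => ?_
            refine slice hδ0 hδ (r k) ?_ hs'
            rw [Fintype.card_fin, hκ]
            have := hnk k hk
            gcongr
        _ = _ := by
            rw [Finset.sum_const, Finset.card_range, nsmul_eq_mul, ENNReal.ofReal_mul hN0.le]
            congr 1
            rw [← Nat.cast_succ, ENNReal.ofReal_natCast]
    refine (Ioc_three hgper (by positivity) h1).trans (ENNReal.ofReal_le_ofReal ?_)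
    rw [hκ]
    have h2 : 3 * ((N + 1) * (200 * (4 * (Λ * a) * δ) / (s / (N + 1)))) =
        (2400 * (N + 1) ^ 2 * Λ) * a * δ / s := by
      field_simp
      ring
    rw [h2]
    gcongr
    rw [hCa]
    have h3 : 0 ≤ 416 / R * Λ := by positivity
    linarith
  · intro α β y m z hα hβ0 hβ hβδ hm hvol hz hze
    have hπ := Real.pi_pos
    have hπ4 := Real.pi_lt_d2
    -- shift into the range of the chain
    obtain ⟨j, hj1, hj2⟩ : ∃ j : ℤ, c 0 ≤ y + j * (2 * π) ∧ y + j * (2 * π) < c 0 + 2 * π := by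
      have h1 := sub_toIcoDiv_zsmul_mem_Ico Real.two_pi_pos (c 0) y
      refine ⟨-toIcoDiv Real.two_pi_pos (c 0) y, ?_, ?_⟩
      · have := h1.1
        simp only [zsmul_eq_mul] at this
        push_cast
        linarith
      · have := h1.2
        simp only [zsmul_eq_mul] at this
        push_cast
        linarith
    set y1 : ℝ := y + j * (2 * π) with hy1
    have hcN : ∀ k : ℕ, c 0 + k * (R / 64) ≤ c k := by
      intro k
      induction k with
      | zero => simp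
      | succ k ih =>
        push_cast
        linarith [hc1 k]
    have hlast : y1 < c N := by
      have h1 := hcN N
      have h2 : 7 ≤ N * (R / 64) := by
        calc (7 : ℝ) = 448 / R * (R / 64) := by
              field_simp
              norm_num
          _ ≤ N * (R / 64) := by gcongr
      linarith
    -- find the interval
    obtain ⟨k, hkN, hk1, hk2⟩ : ∃ k : ℕ, k < N ∧ c k ≤ y1 ∧ y1 < c (k + 1) := by
      classical
      have hex : ∃ k : ℕ, y1 < c k := ⟨N, hlast⟩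
      set k0 := Nat.find hex with hk0
      have h1 : y1 < c k0 := Nat.find_spec hex
      have h2 : k0 ≤ N := Nat.find_min' hex hlast
      have h3 : k0 ≠ 0 := by
        intro h
        rw [h] at h1
        linarith
      obtain ⟨k, hk⟩ := Nat.exists_eq_succ_of_ne_zero h3
      refine ⟨k, by omega, ?_, ?_⟩
      · have := Nat.find_min hex (m := k) (by omega)
        exact not_lt.1 this
      · rw [hk] at h1
        exact h1
    have hyck : |y1 - c k| ≤ R / 32 := by
      rw [abs_of_nonneg (by linarith)]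
      linarith [hc2 k]
    have hperj : ∀ z : ℂ, P (z + j * (2 * π)) = P z := by
      have hperk : ∀ (n : ℕ) (z : ℂ), P (z + n * (2 * π)) = P z := by
        intro n
        induction n with
        | zero => intro z; simp
        | succ n ih =>
          intro z
          rw [← ih z, ← hper (z + n * (2 * π))]
          congr 1
          push_cast
          ring
      intro z
      rcases Int.eq_nat_or_neg j with ⟨n, hn | hn⟩
      · rw [hn]
        exact_mod_cast hperk n z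
      · rw [hn, ← hperk n]
        congr 1
        push_cast
        ring
    have hvol' : volume {y' : ℝ | |y' - y1| ≤ β * δ ∧ m < ‖P y'‖} ≤ ENNReal.ofReal (β * δ) := by
      have h1 : {y' : ℝ | |y' - y| ≤ β * δ ∧ m < ‖P y'‖} =
          (fun t => t + j * (2 * π)) ⁻¹' {y' : ℝ | |y' - y1| ≤ β * δ ∧ m < ‖P y'‖} := by
        ext t
        simp only [Set.mem_ofPred_eq, Set.mem_preimage]
        have h2 : ((t + j * (2 * π) : ℝ) : ℂ) = (t : ℂ) + j * (2 * π) := by push_cast; ring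
        rw [h2, hperj, hy1, add_sub_add_right_eq_sub]
      rw [h1, measure_preimage_add_right] at hvol
      exact hvol
    have hshift : (z + j * (2 * π)) - (y1 : ℂ) = z - y := by
      rw [hy1]
      push_cast
      ring
    have hexp : ∀ z : ℂ, Complex.exp ((z + j * (2 * π)) * I) = Complex.exp (z * I) := by
      intro z
      rw [show (z + j * (2 * π)) * I = z * I + j * (2 * π * I) by ring, Complex.exp_add,
        Complex.exp_int_mul_two_pi_mul_I, mul_one]
    have hy1e : Complex.exp ((y1 : ℂ) * I) = Complex.exp (y * I) := by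
      rw [← hexp y, hy1]
      push_cast
      rfl
    have h1 := local_remez hR0 (hak k) (hG1 k) (hG2 k) hδ0 hδ hα hβ0 hβ hβδ hm hyck hvol'
      (z := z + j * (2 * π)) (by rw [hshift]; exact hz) (by rw [hexp, hy1e]; exact hze)
    rw [hperj, hshift, hy1, Phi_periodic] at h1
    refine h1.trans (mul_le_mul_of_nonneg_left (Real.exp_le_exp.2 ?_) hm)
    have hkr : k ∈ Finset.range (N + 1) := Finset.mem_range.2 (by omega)
    have h2 : Phi δ (r k) y ≤ g y :=
      Finset.single_le_sum (f := fun k => Phi δ (r k) y) (fun k _ => Phi_nonneg hδ0.le _ _) hkr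
    have h3 : DD α β * Phi δ (r k) y ≤ DD α β * g y :=
      mul_le_mul_of_nonneg_left h2 (DD_nonneg hα hβ0)
    have h4 : 416 / R * (Lam R ^ k * a) * (β * δ + ‖z - y‖) ≤ Ca * a * (β * δ + ‖z - y‖) := by
      refine mul_le_mul_of_nonneg_right ?_ (by positivity)
      have h5 : 416 / R * (Lam R ^ k * a) ≤ 416 / R * (Λ * a) :=
        mul_le_mul_of_nonneg_left (hle k hkr) (by positivity)
      refine h5.trans ?_
      rw [← mul_assoc]
      gcongr
      rw [hCa]
      have : 0 ≤ 2400 * ((N : ℝ) + 1) ^ 2 * Λ := by positivity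
      linarith
    linarith

/-- Smallness on an interval gives smallness on the line. -/
theorem AR2 {R : ℝ} (hR0 : 0 < R) (hR1 : R ≤ 1) : ∃ Cb : ℝ, 0 < Cb ∧ ∀ (P : ℂ → ℂ)
    (M a ys : ℝ),
    0 < M → 1 ≤ a → DifferentiableOn ℂ P {z : ℂ | |z.im| < R} →
    (∀ z : ℂ, |z.im| < R → ‖P z‖ ≤ M) → (∀ z : ℂ, P (z + 2 * π) = P z) →
    M * Real.exp (-a) ≤ ‖P ys‖ → ∀ y m : ℝ, 0 ≤ m → (∀ y' : ℝ, |y' - y| ≤ R / 128 → ‖P y'‖ ≤ m) →
      ∀ y' : ℝ, ‖P y'‖ ≤ m * Real.exp (Cb * a) := by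
  obtain ⟨Ca, hCa1, hAR⟩ := AR hR0 hR1
  set N : ℕ := ⌈448 / R⌉₊ + 1 with hN
  have hN1 : 448 / R + 1 ≤ N := by
    rw [hN]
    push_cast
    linarith [Nat.le_ceil (448 / R)]
  have hDD := DD_nonneg (α := 1) (β := R / 64) le_rfl (by positivity)
  set C1 : ℝ := DD 1 (R / 64) * Ca + 1 + Ca with hC1
  have hC10 : 0 < C1 := by positivity
  refine ⟨N * C1, by positivity, ?_⟩
  intro P M a ys hM ha hP hb hper h0 y m hm hy
  obtain ⟨g, hg0, hgu, -, hrem⟩ := hAR P M a ys hM ha hP hb hper h0 (1 / 2) (by norm_num) le_rfl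
  have hstep : ∀ (y m : ℝ), 0 ≤ m → (∀ y' : ℝ, |y' - y| ≤ R / 128 → ‖P y'‖ ≤ m) →
      ∀ y' : ℝ, |y' - y| ≤ R / 32 → ‖P y'‖ ≤ m * Real.exp (C1 * a) := by
    intro y m hm hy y' hy'
    have hset : {t : ℝ | |t - y| ≤ R / 64 * (1 / 2) ∧ m < ‖P t‖} = ∅ := by
      ext t
      simp only [Set.mem_ofPred_eq, Set.mem_empty_iff_false, iff_false, not_and, not_lt]
      intro h3
      exact hy t (by linarith)
    have hn1 : ‖(y' : ℂ) - y‖ = |y' - y| := by
      rw [← Complex.ofReal_sub, Complex.norm_real, Real.norm_eq_abs]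
    have h1 := hrem 1 (R / 64) y m y' le_rfl (by positivity) (by linarith) (by linarith) hm
      (by rw [hset]; simp) (by rw [hn1]; exact hy') ((norm_exp_sub y' y).trans (by linarith))
    refine h1.trans (mul_le_mul_of_nonneg_left (Real.exp_le_exp.2 ?_) hm)
    have h2 : DD 1 (R / 64) * g y ≤ DD 1 (R / 64) * (Ca * a) :=
      mul_le_mul_of_nonneg_left (hgu y) hDD
    have h3 : Ca * a * (R / 64 * (1 / 2) + ‖(y' : ℂ) - y‖) ≤ Ca * a := by
      rw [hn1]
      refine mul_le_of_le_one_right (by positivity) ?_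
      linarith
    rw [hC1]
    nlinarith
  have hit : ∀ k : ℕ, ∀ y' : ℝ, |y' - (y + k * (R / 64))| ≤ R / 128 →
      ‖P y'‖ ≤ m * Real.exp (k * (C1 * a)) := by
    intro k
    induction k with
    | zero =>
      intro y' hy'
      simpa using hy y' (by simpa using hy')
    | succ k ih =>
      intro y' hy'
      have h1 := hstep (y + k * (R / 64)) (m * Real.exp (k * (C1 * a))) (by positivity) ih y' (by
        rw [abs_le] at hy' ⊢
        push_cast at hy'
        constructor <;> linarith [hy'.1, hy'.2])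
      rw [mul_assoc, ← Real.exp_add] at h1
      convert! h1 using 3
      push_cast
      ring
  intro y'
  have hπ := Real.pi_pos
  have hπ4 := Real.pi_lt_d2
  obtain ⟨j, hj1, hj2⟩ : ∃ j : ℤ, y ≤ y' + j * (2 * π) ∧ y' + j * (2 * π) < y + 2 * π := by
    have h1 := sub_toIcoDiv_zsmul_mem_Ico Real.two_pi_pos y y'
    refine ⟨-toIcoDiv Real.two_pi_pos y y', ?_, ?_⟩
    · have := h1.1
      simp only [zsmul_eq_mul] at this
      push_cast
      linarith
    · have := h1.2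
      simp only [zsmul_eq_mul] at this
      push_cast
      linarith
  have hperj : ∀ z : ℂ, P (z + j * (2 * π)) = P z := by
    have hperk : ∀ (n : ℕ) (z : ℂ), P (z + n * (2 * π)) = P z := by
      intro n
      induction n with
      | zero => intro z; simp
      | succ n ih =>
        intro z
        rw [← ih z, ← hper (z + n * (2 * π))]
        congr 1
        push_cast
        ring
    intro z
    rcases Int.eq_nat_or_neg j with ⟨n, hn | hn⟩
    · rw [hn]
      exact_mod_cast hperk n z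
    · rw [hn, ← hperk n]
      congr 1
      push_cast
      ring
  set y1 : ℝ := y' + j * (2 * π) with hy1
  set x : ℝ := (y1 - y) / (R / 64) with hx
  have hx0 : 0 ≤ x := by
    rw [hx]
    exact div_nonneg (by linarith) (by positivity)
  set k : ℕ := ⌊x + 1 / 2⌋₊ with hk
  have hk1 : (k : ℝ) ≤ x + 1 / 2 := Nat.floor_le (by positivity)
  have hk2 : x + 1 / 2 < k + 1 := Nat.lt_floor_add_one _
  have hxR : y1 - y = x * (R / 64) := by
    rw [hx]
    field_simp
  have h1 := hit k y1 (by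
    have h2 : y1 - (y + k * (R / 64)) = (x - k) * (R / 64) := by
      rw [← sub_sub, hxR]
      ring
    rw [h2, abs_mul, abs_of_pos (show (0 : ℝ) < R / 64 by positivity)]
    have h3 : |x - k| ≤ 1 / 2 := by
      rw [abs_le]
      constructor <;> linarith
    nlinarith)
  have h2 : ((y1 : ℝ) : ℂ) = (y' : ℂ) + j * (2 * π) := by
    rw [hy1]
    push_cast
    ring
  rw [h2, hperj] at h1
  refine h1.trans (mul_le_mul_of_nonneg_left (Real.exp_le_exp.2 ?_) hm)
  have h3 : (k : ℝ) ≤ N := by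
    have h4 : x ≤ 448 / R := by
      rw [hx, div_le_div_iff₀ (by positivity) hR0]
      nlinarith
    linarith
  calc (k : ℝ) * (C1 * a) ≤ N * (C1 * a) := by gcongr
    _ = N * C1 * a := by ring

end Pool.Agent.Y291.PA
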