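import Mathlib

/-!
# Blaschke factorization of bounded analytic functions on the unit disc
-/

set_option linter.unusedSectionVars false
set_option linter.unusedVariables false

namespace Pool.Agent.Y291.PA

open Complex Real Metric

open scoped ComplexConjugate Topology

theorem one_sub_ne {ζ w : ℂ} (h1 : ‖ζ‖ ≤ 1) (h2 : ‖w‖ < 1) : 1 - conj ζ * w ≠ 0 := by
  intro h
  have h3 : conj ζ * w = 1 := by linear_combination -h
  have h4 := congrArg norm h3
  rw [norm_mul, RCLike.norm_conj, norm_one] at h4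
  nlinarith [norm_nonneg ζ, norm_nonneg w]

theorem norm_ident (ζ w : ℂ) : ‖1 - conj ζ * w‖ ^ 2 =
    ‖w - ζ‖ ^ 2 + (1 - ‖w‖ ^ 2) * (1 - ‖ζ‖ ^ 2) := by
  simp only [← Complex.normSq_eq_norm_sq, Complex.normSq_apply, Complex.sub_re, Complex.sub_im,
    Complex.mul_re, Complex.mul_im, Complex.conj_re, Complex.conj_im, Complex.one_re,
    Complex.one_im]
  ring

/-- Division by a Blaschke factor. -/
theorem divide {f : ℂ → ℂ} {M : ℝ} (hM : 0 ≤ M) (hf : DifferentiableOn ℂ f (ball 0 1))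
    (hb : ∀ w ∈ ball (0 : ℂ) 1, ‖f w‖ ≤ M) {ζ : ℂ} (hζ : ‖ζ‖ < 1) (h0 : f ζ = 0) :
    ∃ g : ℂ → ℂ, DifferentiableOn ℂ g (ball 0 1) ∧ (∀ w ∈ ball (0 : ℂ) 1, ‖g w‖ ≤ M) ∧
      ∀ w ∈ ball (0 : ℂ) 1, f w = (w - ζ) / (1 - conj ζ * w) * g w := by
  have hζb : ζ ∈ ball (0 : ℂ) 1 := mem_ball_zero_iff.2 hζ
  have hds : DifferentiableOn ℂ (dslope f ζ) (ball 0 1) :=
    (Complex.differentiableOn_dslope (isOpen_ball.mem_nhds hζb)).2 hf
  set g : ℂ → ℂ := fun w => dslope f ζ w * (1 - conj ζ * w) with hg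
  have hgd : DifferentiableOn ℂ g (ball 0 1) := hds.mul (by fun_prop)
  have hfg : ∀ w ∈ ball (0 : ℂ) 1, f w = (w - ζ) / (1 - conj ζ * w) * g w := by
    intro w hw
    have h1 := sub_smul_dslope f ζ w
    rw [h0, sub_zero, smul_eq_mul] at h1
    have h2 := one_sub_ne hζ.le (mem_ball_zero_iff.1 hw)
    rw [hg]
    simp only
    rw [← h1]
    generalize 1 - (starRingEnd ℂ) ζ * w = d at h2
    field_simp
  refine ⟨g, hgd, ?_, hfg⟩
  intro w hw
  rw [mem_ball_zero_iff] at hw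
  set s : ℝ → ℝ := fun r => Real.sqrt (1 + (1 - r ^ 2) / (r - ‖ζ‖) ^ 2) with hs
  have hbd : ∀ r : ℝ, max ‖w‖ ‖ζ‖ < r → r < 1 → ‖g w‖ ≤ M * s r := by
    intro r hr1 hr2
    obtain ⟨hwr, hζr⟩ := max_lt_iff.1 hr1
    have hr0 : 0 < r := (norm_nonneg _).trans_lt hwr
    have hcl : closedBall (0 : ℂ) r ⊆ ball 0 1 := closedBall_subset_ball hr2
    refine Complex.norm_le_of_forall_mem_frontier_norm_le (U := ball (0 : ℂ) r) isBounded_ball
      (hgd.diffContOnCl_ball hcl) ?_ (subset_closure (mem_ball_zero_iff.2 hwr))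
    intro v hv
    rw [frontier_ball _ hr0.ne', mem_sphere_zero_iff_norm] at hv
    have hv1 : ‖v‖ < 1 := by rw [hv]; exact hr2
    have hvb : v ∈ ball (0 : ℂ) 1 := mem_ball_zero_iff.2 hv1
    have h3 := hfg v hvb
    have h4 : r - ‖ζ‖ ≤ ‖v - ζ‖ := by
      rw [← hv]
      exact norm_sub_norm_le v ζ
    have h5 : 0 < r - ‖ζ‖ := by linarith
    have h6 : v - ζ ≠ 0 := norm_pos_iff.1 (h5.trans_le h4)
    have h7 := one_sub_ne hζ.le hv1
    have h8 : g v = f v * ((1 - conj ζ * v) / (v - ζ)) := by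
      clear hcl hb hfg
      generalize 1 - (starRingEnd ℂ) ζ * v = d at h3 h7
      rw [h3]
      field_simp
    rw [h8, norm_mul]
    refine mul_le_mul (hb v hvb) ?_ (norm_nonneg _) hM
    rw [norm_div, hs]
    refine Real.le_sqrt_of_sq_le ?_
    rw [div_pow, norm_ident, hv]
    have h9 : 0 < ‖v - ζ‖ := norm_pos_iff.2 h6
    rw [add_div, div_self (by positivity)]
    have h10 : (1 - r ^ 2) * (1 - ‖ζ‖ ^ 2) / ‖v - ζ‖ ^ 2 ≤ (1 - r ^ 2) / (r - ‖ζ‖) ^ 2 := by
      have h11 : 0 ≤ 1 - r ^ 2 := by nlinarith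
      refine div_le_div₀ h11 ?_ (by positivity) (pow_le_pow_left₀ h5.le h4 2)
      nlinarith [sq_nonneg ‖ζ‖]
    linarith
  have hcont : ContinuousAt (fun r => M * s r) 1 := by
    rw [hs]
    have h1 : (1 : ℝ) - ‖ζ‖ ≠ 0 := by linarith
    have h2 : ((1 : ℝ) - ‖ζ‖) ^ 2 ≠ 0 := pow_ne_zero 2 h1
    have h3 : ContinuousAt (fun r : ℝ => 1 + (1 - r ^ 2) / (r - ‖ζ‖) ^ 2) 1 := by
      refine ContinuousAt.add continuousAt_const (ContinuousAt.div ?_ ?_ h2) <;> fun_prop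
    exact continuousAt_const.mul (Real.continuous_sqrt.continuousAt.comp h3)
  have hval : M * s 1 = M := by
    rw [hs]
    simp
  have ht : Filter.Tendsto (fun r => M * s r) (𝓝[<] 1) (𝓝 M) := by
    have := hcont.tendsto
    rw [hval] at this
    exact this.mono_left nhdsWithin_le_nhds
  refine ge_of_tendsto ht ?_
  have h1 : Set.Ioo (max ‖w‖ ‖ζ‖) 1 ∈ 𝓝[<] (1 : ℝ) :=
    Ioo_mem_nhdsLT (max_lt hw hζ)
  filter_upwards [h1] with r hr using hbd r hr.1 hr.2

/-- Blaschke factorization. -/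
theorem factor {M ρ : ℝ} (hM : 0 < M) (hρ0 : 0 < ρ) (hρ1 : ρ < 1) : ∀ (n : ℕ) (f : ℂ → ℂ),
    DifferentiableOn ℂ f (ball 0 1) → (∀ w ∈ ball (0 : ℂ) 1, ‖f w‖ ≤ M) → M * ρ ^ n < ‖f 0‖ →
    ∃ (k : ℕ) (z : Fin k → ℂ) (g : ℂ → ℂ), k ≤ n ∧ (∀ j, ‖z j‖ ≤ ρ) ∧
      DifferentiableOn ℂ g (ball 0 1) ∧ (∀ w ∈ ball (0 : ℂ) 1, ‖g w‖ ≤ M) ∧
      (∀ w, ‖w‖ ≤ ρ → g w ≠ 0) ∧ ‖f 0‖ ≤ ‖g 0‖ ∧
      ∀ w ∈ ball (0 : ℂ) 1, f w = (∏ j, (w - z j) / (1 - conj (z j) * w)) * g w := by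
  intro n
  have h0b : (0 : ℂ) ∈ ball (0 : ℂ) 1 := by simp
  induction n with
  | zero =>
    intro f hf hb h
    rw [pow_zero, mul_one] at h
    exact absurd (hb 0 h0b) (not_le.2 h)
  | succ n ih =>
    intro f hf hb h
    by_cases hz : ∃ ζ, ‖ζ‖ ≤ ρ ∧ f ζ = 0
    · obtain ⟨ζ, hζ, hfζ⟩ := hz
      obtain ⟨f1, h1, h2, h3⟩ := divide hM.le hf hb (hζ.trans_lt hρ1) hfζ
      have h4 : ‖f 0‖ = ‖ζ‖ * ‖f1 0‖ := by
        rw [h3 0 h0b]
        simp
      have h5 : M * ρ ^ n < ‖f1 0‖ := by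
        have h6 : ρ * (M * ρ ^ n) < ρ * ‖f1 0‖ := by
          calc ρ * (M * ρ ^ n) = M * ρ ^ (n + 1) := by ring
            _ < ‖f 0‖ := h
            _ = ‖ζ‖ * ‖f1 0‖ := h4
            _ ≤ ρ * ‖f1 0‖ := by gcongr
        exact lt_of_mul_lt_mul_left h6 hρ0.le
      obtain ⟨k, z, g, k1, k2, k3, k4, k5, k6, k7⟩ := ih f1 h1 h2 h5
      refine ⟨k + 1, Fin.cons ζ z, g, by omega, ?_, k3, k4, k5, ?_, ?_⟩
      · intro j
        refine Fin.cases ?_ (fun j => ?_) j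
        · simpa using hζ
        · simpa using k2 j
      · refine le_trans ?_ k6
        rw [h4]
        nlinarith [norm_nonneg (f1 0)]
      · intro w hw
        rw [Fin.prod_univ_succ]
        simp only [Fin.cons_zero, Fin.cons_succ]
        rw [h3 w hw, k7 w hw]
        ring
    · push Not at hz
      refine ⟨0, Fin.elim0, f, by omega, fun j => j.elim0, hf, hb, hz, le_rfl, fun w _ => ?_⟩
      simp

/-- The logarithm of an analytic function without zeros is Lipschitz. -/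
theorem zero_free {g : ℂ → ℂ} {M a : ℝ} (ha : 0 < a) (hM : 0 < M)
    (hg : DifferentiableOn ℂ g (ball 0 (1 / 2))) (hne : ∀ w ∈ ball (0 : ℂ) (1 / 2), g w ≠ 0)
    (hb : ∀ w ∈ ball (0 : ℂ) (1 / 2), ‖g w‖ ≤ M) (h0 : M * Real.exp (-a) ≤ ‖g 0‖) {w w' : ℂ}
    (hw : ‖w‖ ≤ 1 / 4) (hw' : ‖w'‖ ≤ 1 / 4) :
    ‖g w‖ ≤ ‖g w'‖ * Real.exp (48 * a * ‖w - w'‖) := by
  have h0b : (0 : ℂ) ∈ ball (0 : ℂ) (1 / 2) := by simp
  have hder : DifferentiableOn ℂ (deriv g) (ball 0 (1 / 2)) := hg.deriv isOpen_ball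
  obtain ⟨F, hF0, hF⟩ := (((hder.div hg hne).isExactOn_ball (c := 0)
    (r := 1 / 2))).with_val_at 0 0
  -- `g = g 0 * exp F`
  have hexp : ∀ w ∈ ball (0 : ℂ) (1 / 2), g w = g 0 * Complex.exp (F w) := by
    have hH : ∀ w ∈ ball (0 : ℂ) (1 / 2),
        HasDerivAt (fun w => g w * Complex.exp (-F w)) 0 w := by
      intro w hw
      have d1 : HasDerivAt g (deriv g w) w :=
        (hg.differentiableAt (isOpen_ball.mem_nhds hw)).hasDerivAt
      have d2 := (hF w hw).neg.cexp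
      have d3 := d1.mul d2
      convert! d3 using 1
      have := hne w hw
      simp only [Pi.div_apply, Pi.neg_apply]
      field_simp
      ring
    have hconst : ∀ w ∈ ball (0 : ℂ) (1 / 2), g w * Complex.exp (-F w) = g 0 := by
      intro w hw
      have h1 := isOpen_ball.is_const_of_deriv_eq_zero
        (convex_ball (0 : ℂ) (1 / 2)).isPreconnected
        (fun x hx => (hH x hx).differentiableAt.differentiableWithinAt)
        (fun x hx => (hH x hx).deriv) hw h0b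
      simp only [hF0, neg_zero, Complex.exp_zero, mul_one] at h1
      exact h1
    intro w hw
    rw [← hconst w hw, mul_assoc, ← Complex.exp_add]
    simp
  have hg0 : 0 < ‖g 0‖ := norm_pos_iff.2 (hne 0 h0b)
  have hnorm : ∀ w ∈ ball (0 : ℂ) (1 / 2), ‖g w‖ = ‖g 0‖ * Real.exp (F w).re := by
    intro w hw
    conv_lhs => rw [hexp w hw]
    rw [norm_mul, Complex.norm_exp]
  have hre : Set.MapsTo F (ball 0 (1 / 2)) {z | z.re ≤ a} := by
    intro w hw
    show (F w).re ≤ a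
    have h1 := hnorm w hw
    have h2 := hb w hw
    rw [h1] at h2
    have h3 : M * Real.exp (-a) * Real.exp (F w).re ≤ M := by
      refine le_trans ?_ h2
      gcongr
    rw [mul_assoc, ← Real.exp_add] at h3
    have h4 : Real.exp (-a + (F w).re) ≤ 1 := by
      by_contra hcon
      push Not at hcon
      nlinarith
    have h5 := Real.exp_le_one_iff.1 h4
    linarith
  have hFd : DifferentiableOn ℂ F (ball 0 (1 / 2)) := fun w hw =>
    (hF w hw).differentiableAt.differentiableWithinAt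
  have hFb : ∀ w : ℂ, ‖w‖ ≤ 3 / 8 → ‖F w‖ ≤ 6 * a := by
    intro w hw
    have h1 := Complex.borelCaratheodory_zero ha hFd hre (by norm_num)
      (mem_ball_zero_iff.2 (by linarith : ‖w‖ < 1 / 2)) hF0
    refine h1.trans ?_
    rw [div_le_iff₀ (by linarith)]
    nlinarith
  have hFder : ∀ w : ℂ, ‖w‖ ≤ 1 / 4 → ‖deriv F w‖ ≤ 48 * a := by
    intro w hw
    have h1 := Complex.norm_deriv_le_of_forall_mem_sphere_norm_le (c := w) (R := 1 / 8)
      (C := 6 * a) (f := F) (by norm_num) ?_ ?_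
    · refine h1.trans (le_of_eq ?_)
      ring
    · refine (hFd.mono ?_).diffContOnCl_ball (U := ball (0 : ℂ) (1 / 2)) ?_
      · exact subset_rfl
      · intro v hv
        rw [mem_closedBall, dist_eq_norm] at hv
        rw [mem_ball_zero_iff]
        have : v = (v - w) + w := by ring
        rw [this]
        refine (norm_add_le _ _).trans_lt ?_
        linarith
    · intro v hv
      refine hFb v ?_
      rw [mem_sphere, dist_eq_norm] at hv
      have : v = (v - w) + w := by ring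
      rw [this]
      refine (norm_add_le _ _).trans ?_
      linarith
  have hb4 : ∀ v : ℂ, ‖v‖ ≤ 1 / 4 → v ∈ ball (0 : ℂ) (1 / 2) := fun v hv =>
    mem_ball_zero_iff.2 (by linarith)
  have hlip : ‖F w - F w'‖ ≤ 48 * a * ‖w - w'‖ := by
    refine Convex.norm_image_sub_le_of_norm_deriv_le (s := closedBall (0 : ℂ) (1 / 4))
      (fun x hx => ?_) (fun x hx => ?_) (convex_closedBall _ _) ?_ ?_
    · exact hFd.differentiableAt (isOpen_ball.mem_nhds (hb4 x (mem_closedBall_zero_iff.1 hx)))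
    · exact hFder x (mem_closedBall_zero_iff.1 hx)
    · exact mem_closedBall_zero_iff.2 hw'
    · exact mem_closedBall_zero_iff.2 hw
  rw [hnorm w (hb4 w hw), hnorm w' (hb4 w' hw'), mul_assoc, ← Real.exp_add]
  refine mul_le_mul_of_nonneg_left (Real.exp_le_exp.2 ?_) hg0.le
  have h1 : (F w).re - (F w').re ≤ ‖F w - F w'‖ := by
    rw [← Complex.sub_re]
    exact Complex.re_le_norm _
  linarith

end Pool.Agent.Y291.PA
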