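import Pool.Agent.Y291.PA.Sol

/-!
# Exponential decay of the modes
-/

set_option linter.unusedSectionVars false
set_option linter.unusedVariables false

namespace Pool.Agent.Y291.PA

open MeasureTheory Real Pool.Agent.Y291.DB

open scoped ComplexConjugate Topology

theorem summable_exp_abs {θ : ℝ} (hθ : 0 < θ) :
    Summable fun k : ℤ => Real.exp (-(θ * |(k : ℝ)|)) := by
  have h1 : Summable fun n : ℕ => Real.exp (-(θ * (n : ℝ))) := by
    have h2 : (fun n : ℕ => Real.exp (-(θ * (n : ℝ)))) = fun n : ℕ => Real.exp (-θ) ^ n := by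
      funext n
      rw [← Real.exp_nat_mul]
      congr 1
      ring
    rw [h2]
    exact summable_geometric_of_lt_one (Real.exp_pos _).le (Real.exp_lt_one_iff.2 (by linarith))
  refine Summable.of_nat_of_neg ?_ ?_
  · convert! h1 using 4 with n
    simp
  · convert! h1 using 4 with n
    simp

/-- The sum of the geometric series. -/
noncomputable def Sg (θ : ℝ) : ℝ := ∑' k : ℤ, Real.exp (-(θ * |(k : ℝ)|))

theorem Sg_ge {θ : ℝ} (hθ : 0 < θ) : 1 ≤ Sg θ := by
  have h := (summable_exp_abs hθ).le_tsum 0 (fun j _ => (Real.exp_pos _).le)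
  simpa [Sg] using h

theorem hasSum_shift {θ : ℝ} (hθ : 0 < θ) (k : ℤ) :
    HasSum (fun j : ℤ => Real.exp (-(θ * |(k : ℝ) - j|))) (Sg θ) := by
  have h1 := (summable_exp_abs hθ).hasSum
  have h2 := (Equiv.subLeft k).hasSum_iff.2 h1
  convert! h2 using 2 with j
  simp

section mul

variable {ρ φ : ℝ → ℝ → ℝ} (hρ : Continuous (Function.uncurry ρ))
  (hφ : Continuous (Function.uncurry φ)) (hρp : ∀ x y, ρ x (y + 2 * π) = ρ x y)

include hρ hφ hρp

/-- The modes of a product. -/
theorem um_mul (k : ℤ) (x : ℝ) (hs : Summable fun l : ℤ => ‖um ρ l x‖) :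
    HasSum (fun l : ℤ => um ρ l x * um φ (k - l) x) (um (fun x y => ρ x y * φ x y) k x) := by
  have c1 : Continuous fun y => (ρ x y : ℂ) :=
    Complex.continuous_ofReal.comp (hρ.comp (Continuous.prodMk_right x))
  have c2 : Continuous fun y => (φ x y : ℂ) :=
    Complex.continuous_ofReal.comp (hφ.comp (Continuous.prodMk_right x))
  have hek := ek_cont k
  set F : ℤ → ℝ → ℂ := fun l y => um ρ l x * (φ x y * ek (k - l) y) with hF
  have hFc : ∀ l, Continuous (F l) := by
    intro l
    have := ek_cont (k - l)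
    rw [hF]
    fun_prop
  obtain ⟨C, hC⟩ := isCompact_Icc.exists_bound_of_continuousOn (s := Set.Icc 0 (2 * π))
    c2.continuousOn
  have hek1 : ∀ (l : ℤ) (y : ℝ), ‖ek l y‖ = 1 := by
    intro l y
    unfold ek
    rw [Complex.norm_exp]
    simp
  have hint : ∀ l, Integrable (F l) (volume.restrict (Set.Ioc 0 (2 * π))) := fun l =>
    ((hFc l).integrableOn_Icc (a := 0) (b := 2 * π)).mono_set Set.Ioc_subset_Icc_self
  have hsum : Summable fun l => ∫ y, ‖F l y‖ ∂(volume.restrict (Set.Ioc 0 (2 * π))) := by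
    refine Summable.of_nonneg_of_le (fun l => integral_nonneg fun y => norm_nonneg _)
      (fun l => ?_) (hs.mul_right (C * (2 * π)))
    have h1 : ∫ y, ‖F l y‖ ∂(volume.restrict (Set.Ioc 0 (2 * π))) ≤
        ∫ y, ‖um ρ l x‖ * C ∂(volume.restrict (Set.Ioc 0 (2 * π))) := by
      refine integral_mono_ae (hint l).norm (integrable_const _) ?_
      filter_upwards [ae_restrict_mem measurableSet_Ioc] with y hy
      rw [hF]
      simp only [norm_mul, hek1, mul_one]
      have := hC y ⟨hy.1.le, hy.2⟩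
      gcongr
    refine h1.trans (le_of_eq ?_)
    rw [integral_const]
    simp only [measureReal_restrict_apply_univ, Real.volume_real_Ioc_of_le Real.two_pi_pos.le,
      sub_zero, smul_eq_mul]
    ring
  have h1 := hasSum_integral_of_summable_integral_norm hint hsum
  have h2 : ∀ l, ∫ y, F l y ∂(volume.restrict (Set.Ioc 0 (2 * π))) =
      um ρ l x * ∫ y in (0 : ℝ)..(2 * π), (φ x y : ℂ) * ek (k - l) y := by
    intro l
    rw [← intervalIntegral.integral_of_le Real.two_pi_pos.le, hF]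
    simp only
    rw [intervalIntegral.integral_const_mul]
  have h3 : ∫ y, ∑' l, F l y ∂(volume.restrict (Set.Ioc 0 (2 * π))) =
      ∫ y in (0 : ℝ)..(2 * π), ((ρ x y * φ x y : ℝ) : ℂ) * ek k y := by
    rw [intervalIntegral.integral_of_le Real.two_pi_pos.le]
    refine integral_congr_ae (Filter.Eventually.of_forall fun y => ?_)
    have h4 := inversion2 hρ hρp x hs y
    have h5 := h4.mul_right ((φ x y : ℂ) * ek k y)
    show ∑' l, F l y = _
    have h6 : HasSum (fun l => F l y) ((ρ x y : ℂ) * ((φ x y : ℂ) * ek k y)) := by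
      convert! h5 using 2 with l
      rw [hF]
      simp only
      have h7 : ek (k - l) y = Complex.exp (l * y * Complex.I) * ek k y := by
        unfold ek
        rw [← Complex.exp_add]
        congr 1
        push_cast
        ring
      rw [h7]
      ring
    rw [h6.tsum_eq]
    push_cast
    ring
  rw [h3] at h1
  simp only [h2] at h1
  have h4 := h1.mul_left ((1 / (2 * π) : ℝ) : ℂ)
  convert! h4 using 2 with l
  unfold um
  ring

end mul

/-- One mode: the maximum principle. -/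
theorem mode_max {u u' f : ℝ → ℂ} {κ Φ L : ℝ} (hL : 0 < L) (h1 : ∀ x, HasDerivAt u (u' x) x)
    (h2 : ∀ x, HasDerivAt u' (((κ ^ 2 : ℝ) : ℂ) * u x - f x) x) (hf : ∀ x, ‖f x‖ ≤ Φ)
    (hper : ∀ x, ‖u (x + L)‖ = ‖u x‖) (hκ : 0 < κ ^ 2) (x : ℝ) : ‖u x‖ ≤ Φ / κ ^ 2 := by
  have hc : Continuous u := continuous_iff_continuousAt.2 fun t => (h1 t).continuousAt
  -- a maximum
  obtain ⟨x0, hx0⟩ : ∃ x0, ∀ x, ‖u x‖ ≤ ‖u x0‖ := by
    obtain ⟨x0, -, hmax⟩ := isCompact_Icc.exists_isMaxOn (s := Set.Icc 0 L)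
      ⟨0, le_rfl, hL.le⟩ hc.norm.continuousOn
    refine ⟨x0, fun x => ?_⟩
    have hp : Function.Periodic (fun x => ‖u x‖) L := hper
    obtain ⟨y, hy, hxy⟩ := hp.exists_mem_Ico₀ hL x
    rw [hxy]
    exact hmax ⟨hy.1, hy.2.le⟩
  refine (hx0 x).trans ?_
  by_contra hcon
  push Not at hcon
  rw [div_lt_iff₀ hκ] at hcon
  set w : ℝ → ℝ := fun x => (u x).re * (u' x).re + (u x).im * (u' x).im with hw
  have hre : ∀ (f : ℝ → ℂ) (f' : ℂ) (x : ℝ), HasDerivAt f f' x →
      HasDerivAt (fun t => (f t).re) f'.re x ∧ HasDerivAt (fun t => (f t).im) f'.im x := by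
    intro f f' x hf
    exact ⟨Complex.reCLM.hasFDerivAt.comp_hasDerivAt x hf,
      Complex.imCLM.hasFDerivAt.comp_hasDerivAt x hf⟩
  have hg : ∀ x, HasDerivAt (fun x => ‖u x‖ ^ 2) (2 * w x) x := by
    intro x
    obtain ⟨a1, a2⟩ := hre _ _ _ (h1 x)
    have h3 := (a1.pow 2).add (a2.pow 2)
    have h4 : (fun x => ‖u x‖ ^ 2) = (fun t => (u t).re) ^ 2 + (fun t => (u t).im) ^ 2 := by
      funext t
      simp only [Pi.add_apply, Pi.pow_apply]
      rw [← Complex.normSq_eq_norm_sq, Complex.normSq_apply]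
      ring
    rw [h4]
    convert! h3 using 1
    simp only [hw]
    push_cast
    ring
  have hwd : ∀ x, HasDerivAt w (‖u' x‖ ^ 2 + κ ^ 2 * ‖u x‖ ^ 2 -
      ((u x).re * (f x).re + (u x).im * (f x).im)) x := by
    intro x
    obtain ⟨a1, a2⟩ := hre _ _ _ (h1 x)
    obtain ⟨a3, a4⟩ := hre _ _ _ (h2 x)
    have h3 := (a1.mul a3).add (a2.mul a4)
    convert! h3 using 1
    rw [← Complex.normSq_eq_norm_sq, ← Complex.normSq_eq_norm_sq, Complex.normSq_apply,
      Complex.normSq_apply, Complex.sub_re, Complex.sub_im, Complex.re_ofReal_mul,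
      Complex.im_ofReal_mul]
    ring
  have hw0 : w x0 = 0 := by
    have h3 : IsLocalMax (fun x => ‖u x‖ ^ 2) x0 := Filter.Eventually.of_forall fun x =>
      pow_le_pow_left₀ (norm_nonneg _) (hx0 x) 2
    have h4 := h3.hasDerivAt_eq_zero (hg x0)
    linarith
  have hpos : 0 < ‖u' x0‖ ^ 2 + κ ^ 2 * ‖u x0‖ ^ 2 -
      ((u x0).re * (f x0).re + (u x0).im * (f x0).im) := by
    have h3 : (u x0).re * (f x0).re + (u x0).im * (f x0).im ≤ ‖u x0‖ * ‖f x0‖ := by
      have h4 : (u x0).re * (f x0).re + (u x0).im * (f x0).im = (u x0 * conj (f x0)).re := by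
        simp only [Complex.mul_re, Complex.conj_re, Complex.conj_im]
        ring
      rw [h4]
      refine (Complex.re_le_norm _).trans ?_
      rw [norm_mul, RCLike.norm_conj]
    have h5 : ‖u x0‖ * ‖f x0‖ ≤ ‖u x0‖ * Φ := by
      gcongr
      exact hf x0
    have h6 : 0 < ‖u x0‖ := by
      by_contra h7
      have h8 : ‖u x0‖ = 0 := le_antisymm (not_lt.1 h7) (norm_nonneg _)
      rw [h8] at hcon
      have := (norm_nonneg _).trans (hf x0)
      nlinarith
    have h7 : ‖u x0‖ * Φ < ‖u x0‖ * (‖u x0‖ * κ ^ 2) := mul_lt_mul_of_pos_left hcon h6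
    nlinarith [sq_nonneg ‖u' x0‖]
  -- `w` is positive to the right of `x0`
  have hev : ∀ᶠ x in 𝓝[>] x0, 0 < w x := by
    have h3 := (hwd x0).hasDerivWithinAt (s := Set.Ioi x0)
    have h4 := hasDerivWithinAt_iff_tendsto_slope' (by simp) |>.1 h3
    have h5 := h4.eventually (lt_mem_nhds hpos)
    filter_upwards [h5, self_mem_nhdsWithin] with x hx hx'
    rw [slope_def_field, hw0, sub_zero] at hx
    have h6 : 0 < x - x0 := sub_pos.2 hx'
    exact (div_pos_iff_of_pos_right h6).1 hx
  obtain ⟨y, hy, hyp⟩ := (mem_nhdsGT_iff_exists_Ioo_subset).1 hev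
  have hmono : StrictMonoOn (fun x => ‖u x‖ ^ 2) (Set.Icc x0 ((x0 + y) / 2)) := by
    refine strictMonoOn_of_deriv_pos (convex_Icc _ _) (hc.norm.pow 2).continuousOn fun t ht => ?_
    rw [interior_Icc] at ht
    rw [(hg t).deriv]
    have hxy : x0 < y := hy
    have := hyp ⟨ht.1, by linarith [ht.2]⟩
    have : 0 < w t := this
    linarith
  have hxy : x0 < y := hy
  have h3 := hmono ⟨le_rfl, by linarith⟩ ⟨by linarith, le_rfl⟩
    (show x0 < (x0 + y) / 2 by linarith)
  have h4 := pow_le_pow_left₀ (norm_nonneg _) (hx0 ((x0 + y) / 2)) 2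
  simp only at h3
  linarith

/-- Exponential decay of the modes. -/
theorem decay {u u' f : ℤ → ℝ → ℂ} {L τ σ Mq B K0 : ℝ} (hL : 0 < L) (hσ : 0 < σ) (hστ : σ < τ)
    (hMq : 0 ≤ Mq) (hB : 0 < B) (hK0 : 0 < K0)
    (h1 : ∀ k x, HasDerivAt (u k) (u' k x) x)
    (h2 : ∀ k x, HasDerivAt (u' k) ((((k : ℝ) ^ 2 : ℝ) : ℂ) * u k x - f k x) x)
    (hper : ∀ k x, ‖u k (x + L)‖ = ‖u k x‖) (huB : ∀ k x, ‖u k x‖ ≤ B)
    (hf : ∀ k x, ‖f k x‖ ≤ ∑' j : ℤ, Mq * Real.exp (-(τ * |(k : ℝ) - j|)) * ‖u j x‖)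
    (hKM : 2 * Mq * Sg (τ - σ) ≤ K0 ^ 2) (k : ℤ) (x : ℝ) :
    ‖u k x‖ ≤ B * Real.exp (σ * (K0 - |(k : ℝ)|)) := by
  have hθ : 0 < τ - σ := by linarith
  have hτ : 0 < τ := by linarith
  -- the sums
  have hsumm : ∀ (k : ℤ) (x : ℝ),
      Summable fun j : ℤ => Mq * Real.exp (-(τ * |(k : ℝ) - j|)) * ‖u j x‖ := by
    intro k x
    refine Summable.of_nonneg_of_le (fun j => by positivity) (fun j => ?_)
      (((hasSum_shift hτ k).summable.mul_left Mq).mul_right B)
    have := huB j x
    gcongr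
  -- the step
  have hstep : ∀ (n : ℕ) (C : ℝ), 0 ≤ C →
      (∀ k x, ‖u k x‖ ≤ C * Real.exp (-(σ * min |(k : ℝ)| n))) →
      ∀ k x, ‖u k x‖ ≤ max (C / 2) (B * Real.exp (σ * K0)) *
        Real.exp (-(σ * min |(k : ℝ)| n)) := by
    intro n C hC hu k x
    rcases le_or_gt |(k : ℝ)| K0 with hk | hk
    · calc ‖u k x‖ ≤ B := huB k x
        _ ≤ (B * Real.exp (σ * K0)) * Real.exp (-(σ * min |(k : ℝ)| n)) := by
            rw [mul_assoc, ← Real.exp_add]
            refine le_mul_of_one_le_right hB.le (Real.one_le_exp ?_)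
            have : min |(k : ℝ)| n ≤ K0 := (min_le_left _ _).trans hk
            nlinarith
        _ ≤ _ := by
            gcongr
            exact le_max_right _ _
    · have hk2 : K0 ^ 2 < (k : ℝ) ^ 2 := by
        rw [← sq_abs (k : ℝ)]
        exact pow_lt_pow_left₀ hk hK0.le two_ne_zero
      have hfb : ∀ x, ‖f k x‖ ≤ Mq * Sg (τ - σ) * C * Real.exp (-(σ * min |(k : ℝ)| n)) := by
        intro x
        refine (hf k x).trans ?_
        have h3 : HasSum (fun j : ℤ => Mq * C * Real.exp (-(σ * min |(k : ℝ)| n)) *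
            Real.exp (-((τ - σ) * |(k : ℝ) - j|)))
            (Mq * C * Real.exp (-(σ * min |(k : ℝ)| n)) * Sg (τ - σ)) :=
          (hasSum_shift hθ k).mul_left _
        have h4 := (hsumm k x).tsum_le_tsum (g := fun j : ℤ => Mq * C *
          Real.exp (-(σ * min |(k : ℝ)| n)) * Real.exp (-((τ - σ) * |(k : ℝ) - j|))) ?_
          h3.summable
        · rw [h3.tsum_eq] at h4
          refine h4.trans (le_of_eq ?_)
          ring
        · intro j
          have h5 := hu j x
          have h6 : |(k : ℝ)| ≤ |(k : ℝ) - j| + |(j : ℝ)| := by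
            have : (k : ℝ) = (k - j) + j := by ring
            conv_lhs => rw [this]
            exact abs_add_le _ _
          have h7 : min |(k : ℝ)| (n : ℝ) ≤ |(k : ℝ) - j| + min |(j : ℝ)| n := by
            rcases le_total |(j : ℝ)| (n : ℝ) with h8 | h8
            · rw [min_eq_left h8]
              exact (min_le_left _ _).trans h6
            · rw [min_eq_right h8]
              exact (min_le_right _ _).trans (by linarith [abs_nonneg ((k : ℝ) - j)])
          calc Mq * Real.exp (-(τ * |(k : ℝ) - j|)) * ‖u j x‖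
              ≤ Mq * Real.exp (-(τ * |(k : ℝ) - j|)) *
                (C * Real.exp (-(σ * min |(j : ℝ)| n))) := by gcongr
            _ = Mq * C * Real.exp (-(τ * |(k : ℝ) - j|) + -(σ * min |(j : ℝ)| n)) := by
                rw [Real.exp_add]
                ring
            _ ≤ Mq * C * Real.exp (-(σ * min |(k : ℝ)| n) + -((τ - σ) * |(k : ℝ) - j|)) := by
                refine mul_le_mul_of_nonneg_left (Real.exp_le_exp.2 ?_) (by positivity)
                nlinarith [mul_le_mul_of_nonneg_left h7 hσ.le]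
            _ = _ := by
                rw [Real.exp_add]
                ring
      have h5 := mode_max (κ := (k : ℝ)) hL (h1 k) (h2 k) hfb (hper k)
        (lt_trans (by positivity) hk2) x
      refine h5.trans ?_
      rw [div_le_iff₀ (lt_trans (by positivity) hk2)]
      have h6 : C / 2 ≤ max (C / 2) (B * Real.exp (σ * K0)) := le_max_left _ _
      have h7 : Mq * Sg (τ - σ) * C ≤ C / 2 * (k : ℝ) ^ 2 := by nlinarith
      have h8 : C / 2 * (k : ℝ) ^ 2 ≤ max (C / 2) (B * Real.exp (σ * K0)) * (k : ℝ) ^ 2 := by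
        gcongr
      calc Mq * Sg (τ - σ) * C * Real.exp (-(σ * min |(k : ℝ)| n))
          ≤ max (C / 2) (B * Real.exp (σ * K0)) * (k : ℝ) ^ 2 *
            Real.exp (-(σ * min |(k : ℝ)| n)) :=
            mul_le_mul_of_nonneg_right (h7.trans h8) (Real.exp_pos _).le
        _ = _ := by ring
  -- iterate
  have hiter : ∀ (n m : ℕ), ∀ k x, ‖u k x‖ ≤ max (B * Real.exp (σ * n) / 2 ^ m)
      (B * Real.exp (σ * K0)) * Real.exp (-(σ * min |(k : ℝ)| n)) := by
    intro n m
    induction m with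
    | zero =>
      intro k x
      refine (huB k x).trans ?_
      rw [pow_zero, div_one]
      have h3 : B ≤ B * Real.exp (σ * n) * Real.exp (-(σ * min |(k : ℝ)| n)) := by
        rw [mul_assoc, ← Real.exp_add]
        refine le_mul_of_one_le_right hB.le (Real.one_le_exp ?_)
        have : min |(k : ℝ)| (n : ℝ) ≤ n := min_le_right _ _
        nlinarith
      refine h3.trans ?_
      gcongr
      exact le_max_left _ _
    | succ m ih =>
      intro k x
      have h3 := hstep n _ (by positivity) ih k x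
      refine h3.trans (mul_le_mul_of_nonneg_right ?_ (Real.exp_pos _).le)
      refine max_le ?_ (le_max_right _ _)
      rw [← max_div_div_right (by norm_num : (0 : ℝ) ≤ 2)]
      refine max_le ?_ ?_
      · refine le_trans (le_of_eq ?_) (le_max_left _ _)
        rw [pow_succ]
        field_simp
      · refine le_trans ?_ (le_max_right _ _)
        have : 0 ≤ B * Real.exp (σ * K0) := by positivity
        linarith
  -- conclude
  set n : ℕ := k.natAbs with hn
  have hnk : (n : ℝ) = |(k : ℝ)| := by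
    rw [hn, Nat.cast_natAbs]
    simp
  obtain ⟨m, hm⟩ : ∃ m : ℕ, Real.exp (σ * n) < 2 ^ m := pow_unbounded_of_one_lt _ one_lt_two
  have h3 := hiter n m k x
  rw [hnk, min_self] at h3
  have h4 : B * Real.exp (σ * |(k : ℝ)|) / 2 ^ m ≤ B * Real.exp (σ * K0) := by
    rw [div_le_iff₀ (by positivity)]
    rw [hnk] at hm
    have h5 : 1 ≤ Real.exp (σ * K0) := Real.one_le_exp (by positivity)
    calc B * Real.exp (σ * |(k : ℝ)|) ≤ B * 2 ^ m := by gcongr
      _ = B * 1 * 2 ^ m := by ring
      _ ≤ B * Real.exp (σ * K0) * 2 ^ m := by gcongr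
  rw [max_eq_right h4] at h3
  refine h3.trans (le_of_eq ?_)
  rw [mul_assoc, ← Real.exp_add]
  congr 2
  ring

end Pool.Agent.Y291.PA
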