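import Pool.Agent.Y291.DB.Prop

/-!
# Propagation of bounds from a slice, with a source
-/

set_option linter.unusedSectionVars false
set_option linter.unusedVariables false

namespace Pool.Agent.Y291.PA

open MeasureTheory Complex Real Pool.Agent.Y291.DB

section prop

variable {S : Finset ℤ} {v v' f : ℤ → ℝ → ℂ}
  (hv : ∀ k ∈ S, ∀ x, HasDerivAt (v k) (v' k x) x)
  (hv' : ∀ k ∈ S, ∀ x, HasDerivAt (v' k) ((((k : ℝ) ^ 2 : ℝ) : ℂ) * v k x - f k x) x)

include hv hv'

theorem AA_deriv2 (x0 h s τ : ℝ) : HasDerivAt (AA S v v' x0 h s)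
    (-(1 / 2 : ℝ) * ∫ σ in (0 : ℝ)..(h - τ),
      (Ps S f (x0 + τ) (s - σ) + Ps S f (x0 + τ) (s + σ))) τ := by
  have h1 : ∀ k ∈ S, IntervalIntegrable (fun σ : ℝ => f k (x0 + τ) * Real.exp (-k * (s - σ)) +
      f k (x0 + τ) * Real.exp (-k * (s + σ))) volume 0 (h - τ) := by
    intro k _
    refine Continuous.intervalIntegrable ?_ _ _
    fun_prop
  have h2 : ∫ σ in (0 : ℝ)..(h - τ), (Ps S f (x0 + τ) (s - σ) + Ps S f (x0 + τ) (s + σ)) =
      ∑ k ∈ S, f k (x0 + τ) * ((Real.exp (-k * s) * JJ k (h - τ) : ℝ) : ℂ) := by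
    unfold Ps
    simp only [← Finset.sum_add_distrib]
    rw [intervalIntegral.integral_finsetSum h1]
    refine Finset.sum_congr rfl fun k _ => ?_
    unfold JJ
    rw [← intervalIntegral.integral_const_mul, ← intervalIntegral.integral_ofReal,
      ← intervalIntegral.integral_const_mul]
    refine intervalIntegral.integral_congr fun σ _ => ?_
    rw [← mul_add, ← Complex.ofReal_add, mul_add (Real.exp (-k * s)), ← Real.exp_add,
      ← Real.exp_add]
    congr 4 <;> ring_nf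
  rw [h2, Finset.mul_sum]
  unfold AA
  refine HasDerivAt.fun_sum fun k hk => ?_
  have d0 : HasDerivAt (fun τ : ℝ => h - τ) (-1) τ := by
    simpa using (hasDerivAt_id τ).const_sub h
  have d1 : HasDerivAt (fun τ : ℝ => Real.exp (k * (h - τ))) (-k * Real.exp (k * (h - τ))) τ := by
    have := (d0.const_mul (k : ℝ)).exp
    convert! this using 1
    ring
  have d2 : HasDerivAt (fun τ : ℝ => Real.exp (-k * (h - τ))) (k * Real.exp (-k * (h - τ))) τ := by
    have := (d0.const_mul (-k : ℝ)).exp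
    convert! this using 1
    ring
  have d3 : HasDerivAt (fun τ : ℝ => JJ k (h - τ) / 2)
      (-(Real.exp (k * (h - τ)) + Real.exp (-k * (h - τ))) / 2) τ := by
    have := ((JJ_deriv k (h - τ)).comp τ d0).div_const 2
    convert! this using 1
    ring
  have d4 : HasDerivAt (fun τ : ℝ => v k (x0 + τ)) (v' k (x0 + τ)) τ := by
    have := (hv k hk (x0 + τ)).comp_const_add x0 τ
    exact this
  have d5 : HasDerivAt (fun τ : ℝ => v' k (x0 + τ))
      ((((k : ℝ) ^ 2 : ℝ) : ℂ) * v k (x0 + τ) - f k (x0 + τ)) τ := by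
    have := (hv' k hk (x0 + τ)).comp_const_add x0 τ
    exact this
  have d6 := (((((d1.add d2).div_const 2).ofReal_comp.mul d4).add
    (d3.ofReal_comp.mul d5)).mul_const ((Real.exp (-k * s) : ℝ) : ℂ))
  convert! d6 using 1
  have e1 : ((k : ℝ) : ℂ) * ((JJ k (h - τ) : ℝ) : ℂ) =
      ((Real.exp (k * (h - τ)) : ℝ) : ℂ) - ((Real.exp (-k * (h - τ)) : ℝ) : ℂ) := by
    have := JJ_mul k (h - τ)
    exact_mod_cast this
  simp only [Pi.add_apply]
  push_cast at e1 ⊢
  linear_combination (-(k : ℂ) / 2) * v k (x0 + τ) * Complex.exp (-k * s) * e1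

theorem prop_pos2 {Q R M M1 x0 ε a : ℝ} (hR : 0 < R) (hQ0 : 0 ≤ Q) (hε : 0 ≤ ε) (ha0 : 0 < a)
    (ha2 : 2 * Q ≤ a ^ 2)
    (hF : ∀ t s : ℝ, |t| + |s| ≤ R → ‖Ps S f (x0 + t) s‖ ≤ Q * ‖Ps S v (x0 + t) s‖ + ε)
    (h0 : ∀ σ : ℝ, |σ| ≤ R → ‖Ps S v x0 σ‖ ≤ M) (h1 : ∀ σ : ℝ, |σ| ≤ R → ‖Ps S v' x0 σ‖ ≤ M1)
    {h : ℝ} (hh0 : 0 ≤ h) (hhR : h ≤ R) :
    ‖Ps S v (x0 + h) 0‖ ≤ (2 * (M + R * M1) + ε * R ^ 2) * Real.exp (a * R) := by
  have hM0 : 0 ≤ M := (norm_nonneg _).trans (h0 0 (by simpa using hR.le))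
  have hM1 : 0 ≤ M1 := (norm_nonneg _).trans (h1 0 (by simpa using hR.le))
  -- the compact domain
  set D : Set (ℝ × ℝ) := {p | 0 ≤ p.1 ∧ p.1 + |p.2| ≤ R} with hD
  have hDc : IsCompact D := by
    refine Metric.isCompact_of_isClosed_isBounded ?_ ?_
    · exact (isClosed_le continuous_const continuous_fst).inter
        (isClosed_le (continuous_fst.add continuous_snd.abs) continuous_const)
    · refine (Metric.isBounded_Icc (-R) R).prod (Metric.isBounded_Icc (-R) R) |>.subset ?_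
      rintro ⟨p, s⟩ ⟨hp1, hp2⟩
      simp only at hp1 hp2
      refine ⟨⟨?_, ?_⟩, abs_le.1 ?_⟩ <;> linarith [abs_nonneg s]
  have hvc : ∀ k ∈ S, Continuous (v k) := fun k hk =>
    continuous_iff_continuousAt.2 fun x => (hv k hk x).continuousAt
  have hPc : Continuous fun p : ℝ × ℝ => Ps S v (x0 + p.1) p.2 := by
    unfold Ps
    refine continuous_finsetSum _ fun k hk => ?_
    refine ((hvc k hk).comp (by fun_prop)).mul ?_
    fun_prop
  obtain ⟨p, hpD, hpmax⟩ := hDc.exists_isMaxOn (f := fun p : ℝ × ℝ =>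
    ‖Ps S v (x0 + p.1) p.2‖ * Real.exp (-a * p.1)) ⟨(0, 0), by simp [hD, hR.le]⟩
    (by fun_prop)
  set μ : ℝ := ‖Ps S v (x0 + p.1) p.2‖ * Real.exp (-a * p.1) with hμ
  have hμ0 : 0 ≤ μ := by positivity
  have hbd : ∀ τ s : ℝ, 0 ≤ τ → τ + |s| ≤ R → ‖Ps S v (x0 + τ) s‖ ≤ μ * Real.exp (a * τ) := by
    intro τ s h2 h3
    have h4 : ‖Ps S v (x0 + τ) s‖ * Real.exp (-a * τ) ≤ μ := hpmax (show (τ, s) ∈ D from ⟨h2, h3⟩)
    calc ‖Ps S v (x0 + τ) s‖ = ‖Ps S v (x0 + τ) s‖ * Real.exp (-a * τ) * Real.exp (a * τ) := by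
          rw [mul_assoc, ← Real.exp_add]
          simp
      _ ≤ μ * Real.exp (a * τ) := by gcongr
  have hbdf : ∀ τ s : ℝ, 0 ≤ τ → τ + |s| ≤ R → ‖Ps S f (x0 + τ) s‖ ≤
      Q * (μ * Real.exp (a * τ)) + ε := by
    intro τ s h2 h3
    refine (hF τ s (by rwa [abs_of_nonneg h2])).trans ?_
    have := hbd τ s h2 h3
    gcongr
  -- the bound at the maximum
  obtain ⟨hp1, hp2⟩ := hpD
  set H := p.1 with hH
  set s := p.2 with hs
  have hstart : ‖AA S v v' x0 H s 0‖ ≤ M + R * M1 := by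
    rw [AA_start]
    have e1 : ‖Ps S v x0 (s - H)‖ ≤ M := h0 _ (by
      rw [abs_le]
      constructor <;> linarith [le_abs_self s, neg_abs_le s])
    have e2 : ‖Ps S v x0 (s + H)‖ ≤ M := h0 _ (by
      rw [abs_le]
      constructor <;> linarith [le_abs_self s, neg_abs_le s])
    have e3 : ‖∫ σ in (0 : ℝ)..H, (Ps S v' x0 (s - σ) + Ps S v' x0 (s + σ))‖ ≤
        (2 * M1) * |H - 0| := by
      refine intervalIntegral.norm_integral_le_of_norm_le_const fun σ hσ => ?_
      rw [Set.uIoc_of_le hp1] at hσ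
      refine (norm_add_le _ _).trans ?_
      have e4 := h1 (s - σ) (by
        rw [abs_le]
        constructor <;> linarith [le_abs_self s, neg_abs_le s, hσ.1, hσ.2])
      have e5 := h1 (s + σ) (by
        rw [abs_le]
        constructor <;> linarith [le_abs_self s, neg_abs_le s, hσ.1, hσ.2])
      linarith
    rw [sub_zero, abs_of_nonneg hp1] at e3
    have hHR : H ≤ R := by linarith [abs_nonneg s]
    refine (norm_add_le _ _).trans ?_
    rw [norm_mul, norm_mul]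
    have e6 : ‖(1 / 2 : ℂ)‖ = 1 / 2 := by norm_num
    rw [e6]
    have e7 := (norm_add_le (Ps S v x0 (s - H)) (Ps S v x0 (s + H)))
    have e8 : H * M1 ≤ R * M1 := by gcongr
    linarith
  have hder : ∀ τ ∈ Set.Ico 0 H, ‖-((1 / 2 : ℝ) : ℂ) * ∫ σ in (0 : ℝ)..(H - τ),
      (Ps S f (x0 + τ) (s - σ) + Ps S f (x0 + τ) (s + σ))‖ ≤
        (H - τ) * (Q * (μ * Real.exp (a * τ)) + ε) := by
    intro τ hτ
    have e3 : ‖∫ σ in (0 : ℝ)..(H - τ), (Ps S f (x0 + τ) (s - σ) + Ps S f (x0 + τ) (s + σ))‖ ≤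
        (2 * (Q * (μ * Real.exp (a * τ)) + ε)) * |(H - τ) - 0| := by
      refine intervalIntegral.norm_integral_le_of_norm_le_const fun σ hσ => ?_
      rw [Set.uIoc_of_le (by linarith [hτ.2])] at hσ
      refine (norm_add_le _ _).trans ?_
      have e4 := hbdf τ (s - σ) hτ.1 (by
        have : |s - σ| ≤ |s| + (H - τ) := by
          refine (abs_sub _ _).trans ?_
          rw [abs_of_pos hσ.1]
          linarith [hσ.2]
        linarith)
      have e5 := hbdf τ (s + σ) hτ.1 (by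
        have : |s + σ| ≤ |s| + (H - τ) := by
          refine (abs_add_le _ _).trans ?_
          rw [abs_of_pos hσ.1]
          linarith [hσ.2]
        linarith)
      linarith
    rw [sub_zero, abs_of_nonneg (by linarith [hτ.2])] at e3
    rw [norm_mul, norm_neg, Complex.norm_real, Real.norm_eq_abs, abs_of_pos (by norm_num)]
    linarith
  have hmain : ‖AA S v v' x0 H s H‖ ≤ (M + R * M1) + Q * μ * (Real.exp (a * H) / a ^ 2 -
      H / a - 1 / a ^ 2) + ε * H ^ 2 / 2 := by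
    have hB : ∀ τ : ℝ, HasDerivAt (fun τ => (M + R * M1) + Q * μ * ((H - τ) * Real.exp (a * τ) / a +
        Real.exp (a * τ) / a ^ 2 - H / a - 1 / a ^ 2) + ε * (H * τ - τ ^ 2 / 2))
        ((H - τ) * (Q * (μ * Real.exp (a * τ)) + ε)) τ := by
      intro τ
      have d1 : HasDerivAt (fun τ : ℝ => Real.exp (a * τ)) (Real.exp (a * τ) * (a * 1)) τ :=
        ((hasDerivAt_id τ).const_mul a).exp
      have d2 : HasDerivAt (fun τ : ℝ => H - τ) (-1) τ := by
        simpa using (hasDerivAt_id τ).const_sub H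
      have d3 : HasDerivAt (fun τ : ℝ => H * τ - τ ^ 2 / 2) (H - τ) τ := by
        have := ((hasDerivAt_id τ).const_mul H).sub (((hasDerivAt_id τ).pow 2).div_const 2)
        convert! this using 1
        simp
      have d4 := ((((((d2.mul d1).div_const a).add (d1.div_const (a ^ 2))).sub_const
        (H / a)).sub_const (1 / a ^ 2)).const_mul (Q * μ)).const_add (M + R * M1) |>.add
        (d3.const_mul ε)
      convert! d4 using 1
      field_simp
      ring
    have := image_norm_le_of_norm_deriv_right_le_deriv_boundary (a := 0) (b := H)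
      (f := AA S v v' x0 H s)
      (f' := fun τ => -((1 / 2 : ℝ) : ℂ) * ∫ σ in (0 : ℝ)..(H - τ),
        (Ps S f (x0 + τ) (s - σ) + Ps S f (x0 + τ) (s + σ)))
      (fun τ _ => (AA_deriv2 hv hv' x0 H s τ).continuousAt.continuousWithinAt)
      (fun τ _ => (AA_deriv2 hv hv' x0 H s τ).hasDerivWithinAt)
      (B := fun τ => (M + R * M1) + Q * μ * ((H - τ) * Real.exp (a * τ) / a +
        Real.exp (a * τ) / a ^ 2 - H / a - 1 / a ^ 2) + ε * (H * τ - τ ^ 2 / 2))
      (B' := fun τ => (H - τ) * (Q * (μ * Real.exp (a * τ)) + ε)) (by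
        refine hstart.trans (le_of_eq ?_)
        simp) hB
      (fun τ hτ => hder τ hτ)
    refine (this (Set.right_mem_Icc.2 hp1)).trans (le_of_eq ?_)
    simp only [sub_self, zero_mul, zero_div, zero_add]
    ring
  rw [AA_end] at hmain
  have hHR : H ≤ R := by linarith [abs_nonneg s]
  have hQa : Q * μ * (Real.exp (a * H) / a ^ 2 - H / a - 1 / a ^ 2) ≤
      μ / 2 * Real.exp (a * H) := by
    have e1 : Real.exp (a * H) / a ^ 2 - H / a - 1 / a ^ 2 ≤ Real.exp (a * H) / a ^ 2 := by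
      have : 0 ≤ H / a := by positivity
      have : 0 ≤ 1 / a ^ 2 := by positivity
      linarith
    have e2 : Q / a ^ 2 ≤ 1 / 2 := by
      rw [div_le_iff₀ (by positivity)]
      linarith
    calc Q * μ * (Real.exp (a * H) / a ^ 2 - H / a - 1 / a ^ 2)
        ≤ Q * μ * (Real.exp (a * H) / a ^ 2) := by gcongr
      _ = (Q / a ^ 2) * (μ * Real.exp (a * H)) := by ring
      _ ≤ 1 / 2 * (μ * Real.exp (a * H)) := by gcongr
      _ = _ := by ring
  have hεR : ε * H ^ 2 / 2 ≤ ε * R ^ 2 / 2 := by gcongr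
  have hμle : μ ≤ 2 * (M + R * M1) + ε * R ^ 2 := by
    have e1 : μ = ‖Ps S v (x0 + H) s‖ * Real.exp (-a * H) := hμ
    have e2 : Real.exp (-a * H) ≤ 1 := Real.exp_le_one_iff.2 (by nlinarith)
    have e3 : Real.exp (a * H) * Real.exp (-a * H) = 1 := by
      rw [← Real.exp_add]
      simp
    have e4 : μ ≤ ((M + R * M1) + μ / 2 * Real.exp (a * H) + ε * R ^ 2 / 2) *
        Real.exp (-a * H) := by
      conv_lhs => rw [e1]
      refine mul_le_mul_of_nonneg_right (hmain.trans ?_) (Real.exp_pos _).le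
      linarith
    have e6 : (M + R * M1 + ε * R ^ 2 / 2) * Real.exp (-a * H) ≤ (M + R * M1 + ε * R ^ 2 / 2) := by
      have : 0 ≤ M + R * M1 + ε * R ^ 2 / 2 := by positivity
      exact mul_le_of_le_one_right this e2
    nlinarith
  have hfin := hbd h 0 hh0 (by simpa using hhR)
  refine hfin.trans ?_
  have e1 : Real.exp (a * h) ≤ Real.exp (a * R) := Real.exp_le_exp.2 (by gcongr)
  exact mul_le_mul hμle e1 (Real.exp_pos _).le (by positivity)

end prop

/-- Propagation in both directions. -/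
theorem prop2 {S : Finset ℤ} {v v' f : ℤ → ℝ → ℂ}
    (hv : ∀ k ∈ S, ∀ x, HasDerivAt (v k) (v' k x) x)
    (hv' : ∀ k ∈ S, ∀ x, HasDerivAt (v' k) ((((k : ℝ) ^ 2 : ℝ) : ℂ) * v k x - f k x) x)
    {Q R M M1 x0 ε a : ℝ} (hR : 0 < R) (hQ0 : 0 ≤ Q) (hε : 0 ≤ ε) (ha0 : 0 < a)
    (ha2 : 2 * Q ≤ a ^ 2)
    (hF : ∀ t s : ℝ, |t| + |s| ≤ R → ‖Ps S f (x0 + t) s‖ ≤ Q * ‖Ps S v (x0 + t) s‖ + ε)
    (h0 : ∀ σ : ℝ, |σ| ≤ R → ‖Ps S v x0 σ‖ ≤ M) (h1 : ∀ σ : ℝ, |σ| ≤ R → ‖Ps S v' x0 σ‖ ≤ M1)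
    {h : ℝ} (hh : |h| ≤ R) :
    ‖Ps S v (x0 + h) 0‖ ≤ (2 * (M + R * M1) + ε * R ^ 2) * Real.exp (a * R) := by
  rcases le_total 0 h with h2 | h2
  · rw [abs_of_nonneg h2] at hh
    exact prop_pos2 hv hv' hR hQ0 hε ha0 ha2 hF h0 h1 h2 hh
  · rw [abs_of_nonpos h2] at hh
    have e1 : ∀ k ∈ S, ∀ x, HasDerivAt (fun x => v k (-x)) ((fun k x => -v' k (-x)) k x) x := by
      intro k hk x
      have := (hv k hk (-x)).scomp x (hasDerivAt_neg x)
      simpa [Function.comp_def] using this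
    have e2 : ∀ k ∈ S, ∀ x, HasDerivAt ((fun k x => -v' k (-x)) k)
        ((((k : ℝ) ^ 2 : ℝ) : ℂ) * (fun k x => v k (-x)) k x - (fun k x => f k (-x)) k x) x := by
      intro k hk x
      have := ((hv' k hk (-x)).scomp x (hasDerivAt_neg x)).fun_neg
      simpa [Function.comp_def] using this
    have := prop_pos2 (v := fun k x => v k (-x)) (f := fun k x => f k (-x)) (x0 := -x0) (M := M)
      (M1 := M1) e1 e2 hR hQ0 hε ha0 ha2 (fun t s hts => ?_)
      (fun σ hσ => ?_) (fun σ hσ => ?_) (h := -h) (by linarith) hh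
    · convert! this using 2
      unfold Ps
      simp only [neg_add_rev, neg_neg]
      rw [add_comm]
    · have := hF (-t) s (by rwa [abs_neg])
      unfold Ps at this ⊢
      simpa [add_comm] using this
    · have := h0 σ hσ
      unfold Ps at this ⊢
      simpa using this
    · have := h1 σ hσ
      unfold Ps at this ⊢
      simpa [Finset.sum_neg_distrib] using this

end Pool.Agent.Y291.PA
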