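import Pool.Agent.Y291.PA.Decay
import Pool.Agent.Y291.PA.Prop2

/-!
# Analytic extension in the angle
-/

set_option linter.unusedSectionVars false
set_option linter.unusedVariables false

namespace Pool.Agent.Y291.PA

open MeasureTheory Real Complex Pool.Agent.Y291.DB

open scoped ComplexConjugate Topology

/-- The sum of the series of exponentials. -/
noncomputable def TS (c : ℤ → ℂ) (z : ℂ) : ℂ := ∑' k : ℤ, c k * Complex.exp (k * z * I)

theorem norm_exp_k (k : ℤ) (z : ℂ) : ‖Complex.exp (k * z * I)‖ ≤ Real.exp (|(k : ℝ)| * |z.im|) := by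
  rw [Complex.norm_exp]
  refine Real.exp_le_exp.2 ?_
  have h1 : ((k : ℂ) * z * I).re = -(k * z.im) := by
    simp [Complex.mul_re, Complex.mul_im]
  rw [h1, ← abs_mul]
  exact neg_le_abs _

section series

variable {c : ℤ → ℂ} {C σ : ℝ} (hc : ∀ k, ‖c k‖ ≤ C * Real.exp (-(σ * |(k : ℝ)|)))

include hc

theorem term_le {σ' : ℝ} (hC : 0 ≤ C) {z : ℂ} (hz : |z.im| ≤ σ') (k : ℤ) :
    ‖c k * Complex.exp (k * z * I)‖ ≤ C * Real.exp (-((σ - σ') * |(k : ℝ)|)) := by
  rw [norm_mul]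
  calc ‖c k‖ * ‖Complex.exp (k * z * I)‖
      ≤ (C * Real.exp (-(σ * |(k : ℝ)|))) * Real.exp (|(k : ℝ)| * |z.im|) :=
        mul_le_mul (hc k) (norm_exp_k k z) (norm_nonneg _) (by positivity)
    _ = C * Real.exp (-(σ * |(k : ℝ)|) + |(k : ℝ)| * |z.im|) := by
        rw [Real.exp_add]
        ring
    _ ≤ C * Real.exp (-((σ - σ') * |(k : ℝ)|)) := by
        refine mul_le_mul_of_nonneg_left (Real.exp_le_exp.2 ?_) hC
        nlinarith [mul_le_mul_of_nonneg_left hz (abs_nonneg (k : ℝ))]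

theorem TS_summable {σ' : ℝ} (hC : 0 ≤ C) (hσ : σ' < σ) {z : ℂ} (hz : |z.im| ≤ σ') :
    Summable fun k : ℤ => c k * Complex.exp (k * z * I) :=
  Summable.of_norm_bounded ((summable_exp_abs (sub_pos.2 hσ)).mul_left C)
    fun k => term_le hc hC hz k

theorem TS_bound {σ' : ℝ} (hC : 0 ≤ C) (hσ : σ' < σ) {z : ℂ} (hz : |z.im| ≤ σ') :
    ‖TS c z‖ ≤ C * Sg (σ - σ') := by
  unfold TS Sg
  rw [← tsum_mul_left]
  exact tsum_of_norm_bounded (((summable_exp_abs (sub_pos.2 hσ)).mul_left C).hasSum)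
    fun k => term_le hc hC hz k

theorem TS_diff (hC : 0 ≤ C) : DifferentiableOn ℂ (TS c) {z : ℂ | |z.im| < σ} := by
  intro z hz
  have hz' : |z.im| < σ := hz
  obtain ⟨σ', h1, h2⟩ := exists_between hz'
  have hopen : IsOpen {z : ℂ | |z.im| < σ'} := by
    have : Continuous fun z : ℂ => |z.im| := Complex.continuous_im.abs
    exact isOpen_lt this continuous_const
  have h3 : DifferentiableOn ℂ (TS c) {z : ℂ | |z.im| < σ'} := by
    refine differentiableOn_tsum_of_summable_norm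
      ((summable_exp_abs (sub_pos.2 h2)).mul_left C) (fun k => ?_) hopen
      (fun k w hw => term_le hc hC (le_of_lt hw) k)
    fun_prop
  exact (h3.differentiableAt (hopen.mem_nhds h1)).differentiableWithinAt

/-- Truncation. -/
theorem TS_trunc {σ' : ℝ} (hC : 0 ≤ C) (hσ : σ' < σ) (S : Finset ℤ) {z : ℂ} (hz : |z.im| ≤ σ') :
    ‖TS c z - ∑ k ∈ S, c k * Complex.exp (k * z * I)‖ ≤
      C * (Sg (σ - σ') - ∑ k ∈ S, Real.exp (-((σ - σ') * |(k : ℝ)|))) := by
  have hs := TS_summable hc hC hσ hz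
  have hb := (summable_exp_abs (sub_pos.2 hσ))
  have h1 := hs.sum_add_tsum_compl (s := S)
  have h2 := hb.sum_add_tsum_compl (s := S)
  have h3 : TS c z - ∑ k ∈ S, c k * Complex.exp (k * z * I) =
      ∑' k : ↑((S : Set ℤ)ᶜ), c k * Complex.exp ((k : ℤ) * z * I) := by
    unfold TS
    rw [← h1]
    ring
  have h4 : Sg (σ - σ') - ∑ k ∈ S, Real.exp (-((σ - σ') * |(k : ℝ)|)) =
      ∑' k : ↑((S : Set ℤ)ᶜ), Real.exp (-((σ - σ') * |((k : ℤ) : ℝ)|)) := by
    unfold Sg
    rw [← h2]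
    ring
  rw [h3, h4, ← tsum_mul_left]
  exact tsum_of_norm_bounded (((hb.subtype _).mul_left C).hasSum) fun k => term_le hc hC hz k

end series

theorem TS_per (c : ℤ → ℂ) (z : ℂ) : TS c (z + 2 * π) = TS c z := by
  unfold TS
  refine tsum_congr fun k => ?_
  rw [show (k : ℂ) * (z + 2 * π) * I = k * z * I + k * (2 * π * I) by ring, Complex.exp_add,
    Complex.exp_int_mul_two_pi_mul_I, mul_one]

theorem TS_real {F : ℝ → ℝ → ℝ} (hF : Continuous (Function.uncurry F))
    (hper : ∀ x y, F x (y + 2 * π) = F x y) (x : ℝ) {C σ : ℝ} (hC : 0 ≤ C) (hσ : 0 < σ)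
    (hc : ∀ k, ‖um F k x‖ ≤ C * Real.exp (-(σ * |(k : ℝ)|))) (y : ℝ) :
    TS (fun k => um F k x) y = F x y := by
  have hs : Summable fun k : ℤ => ‖um F k x‖ :=
    Summable.of_nonneg_of_le (fun k => norm_nonneg _) hc ((summable_exp_abs hσ).mul_left C)
  exact (inversion2 hF hper x hs y).tsum_eq

/-- The product. -/
theorem TS_mul {q φ : ℝ → ℝ → ℝ} (hq : Continuous (Function.uncurry q))
    (hφ : Continuous (Function.uncurry φ)) (hqp : ∀ x y, q x (y + 2 * π) = q x y)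
    (hφp : ∀ x y, φ x (y + 2 * π) = φ x y) (x : ℝ) {C1 C2 C3 σ : ℝ} (hC1 : 0 ≤ C1) (hC2 : 0 ≤ C2)
    (hC3 : 0 ≤ C3) (hσ : 0 < σ)
    (h1 : ∀ k, ‖um q k x‖ ≤ C1 * Real.exp (-(σ * |(k : ℝ)|)))
    (h2 : ∀ k, ‖um φ k x‖ ≤ C2 * Real.exp (-(σ * |(k : ℝ)|)))
    (h3 : ∀ k, ‖um (fun x y => q x y * φ x y) k x‖ ≤ C3 * Real.exp (-(σ * |(k : ℝ)|)))
    {z : ℂ} (hz : |z.im| < σ) :
    TS (fun k => um (fun x y => q x y * φ x y) k x) z =
      TS (fun k => um q k x) z * TS (fun k => um φ k x) z := by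
  have hU : IsOpen {z : ℂ | |z.im| < σ} := by
    have : Continuous fun z : ℂ => |z.im| := Complex.continuous_im.abs
    exact isOpen_lt this continuous_const
  have hconn : IsPreconnected {z : ℂ | |z.im| < σ} := by
    have h4 : {z : ℂ | |z.im| < σ} = Complex.im ⁻¹' (Set.Ioo (-σ) σ) := by
      ext z
      simp [abs_lt]
    rw [h4]
    exact ((convex_Ioo (-σ) σ).linear_preimage Complex.imLm).isPreconnected
  have ha1 := (TS_diff h3 hC3).analyticOnNhd hU
  have ha2 := ((TS_diff h1 hC1).mul (TS_diff h2 hC2)).analyticOnNhd hU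
  have h0 : (0 : ℂ) ∈ {z : ℂ | |z.im| < σ} := by simpa using hσ
  have hqφ : Continuous (Function.uncurry fun x y => q x y * φ x y) := hq.mul hφ
  have hfreq : ∃ᶠ w in 𝓝[≠] (0 : ℂ), TS (fun k => um (fun x y => q x y * φ x y) k x) w =
      (TS (fun k => um q k x) * TS (fun k => um φ k x)) w := by
    have hreal : ∀ y : ℝ, TS (fun k => um (fun x y => q x y * φ x y) k x) y =
        (TS (fun k => um q k x) * TS (fun k => um φ k x)) y := by
      intro y
      rw [Pi.mul_apply, TS_real hqφ (fun x y => by rw [hqp, hφp]) x hC3 hσ h3 y,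
        TS_real hq hqp x hC1 hσ h1 y, TS_real hφ hφp x hC2 hσ h2 y]
      push_cast
      rfl
    have ht : Filter.Tendsto (fun n : ℕ => ((1 / ((n : ℝ) + 1) : ℝ) : ℂ)) Filter.atTop
        (𝓝[≠] (0 : ℂ)) := by
      rw [tendsto_nhdsWithin_iff]
      constructor
      · have := (Complex.continuous_ofReal.tendsto 0).comp
          (tendsto_one_div_add_atTop_nhds_zero_nat (𝕜 := ℝ))
        rw [Complex.ofReal_zero] at this
        exact this
      · refine Filter.Eventually.of_forall fun n => ?_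
        have : (0 : ℝ) < 1 / ((n : ℝ) + 1) := by positivity
        simp only [Set.mem_compl_iff, Set.mem_singleton_iff]
        exact_mod_cast this.ne'
    exact ht.frequently (Filter.Frequently.of_forall fun n => hreal _)
  exact ha1.eqOn_of_preconnected_of_frequently_eq ha2 hconn h0 hfreq hz

/-- A bound of the first derivative. -/
theorem deriv_bound {g g' g'' : ℝ → ℂ} (h1 : ∀ t, HasDerivAt g (g' t) t)
    (h2 : ∀ t, HasDerivAt g' (g'' t) t) {x r a b : ℝ} (hr : 0 < r)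
    (ha : ∀ t ∈ Set.Icc x (x + r), ‖g t‖ ≤ a) (hb : ∀ t ∈ Set.Icc x (x + r), ‖g'' t‖ ≤ b) :
    ‖g' x‖ ≤ 2 * a / r + b * r := by
  have hb0 : 0 ≤ b := (norm_nonneg _).trans (hb x ⟨le_rfl, by linarith⟩)
  have e1 : ∀ t ∈ Set.Icc x (x + r), ‖g' t - g' x‖ ≤ b * r := by
    intro t ht
    have := norm_image_sub_le_of_norm_deriv_le_segment' (f := g') (f' := g'') (C := b) (a := x)
      (b := x + r) (fun s _ => (h2 s).hasDerivWithinAt) (fun s hs => hb s ⟨hs.1, hs.2.le⟩) t ht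
    refine this.trans ?_
    gcongr
    linarith [ht.2]
  have e2 := norm_image_sub_le_of_norm_deriv_le_segment' (f := fun t => g t - (t - x : ℝ) * g' x)
    (f' := fun t => g' t - g' x) (C := b * r) (a := x) (b := x + r) (fun s _ => by
      have h3 : HasDerivAt (fun t : ℝ => ((t - x : ℝ) : ℂ) * g' x) (((1 : ℝ) : ℂ) * g' x) s :=
        (((hasDerivAt_id s).sub_const x).ofReal_comp).mul_const _
      have h4 := (h1 s).sub h3
      rw [Complex.ofReal_one, one_mul] at h4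
      exact h4.hasDerivWithinAt) (fun s hs => e1 s ⟨hs.1, hs.2.le⟩) (x + r)
    ⟨by linarith, le_rfl⟩
  simp only [sub_self, Complex.ofReal_zero, zero_mul, sub_zero, add_sub_cancel_left] at e2
  have h5 : (r : ℂ) * g' x = (g (x + r) - g x) - (g (x + r) - (r : ℂ) * g' x - g x) := by ring
  have h6 : r * ‖g' x‖ ≤ 2 * a + b * r * r := by
    have h7 : ‖(r : ℂ) * g' x‖ = r * ‖g' x‖ := by
      rw [norm_mul, Complex.norm_real, Real.norm_of_nonneg hr.le]
    rw [← h7, h5]
    refine (norm_sub_le _ _).trans ?_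
    have h8 := ha (x + r) ⟨by linarith, le_rfl⟩
    have h9 := ha x ⟨le_rfl, by linarith⟩
    have h10 := norm_sub_le (g (x + r)) (g x)
    linarith
  have h7 : ‖g' x‖ ≤ (2 * a + b * r * r) / r := by
    rw [le_div_iff₀ hr]
    linarith
  refine h7.trans (le_of_eq ?_)
  field_simp

/-- The sequences with a common bound: propagation. -/
theorem propU {u u' f : ℤ → ℝ → ℂ} {C σ Q a : ℝ} (hC : 0 ≤ C) (hσ : 0 < σ)
    (h1 : ∀ k x, HasDerivAt (u k) (u' k x) x)
    (h2 : ∀ k x, HasDerivAt (u' k) ((((k : ℝ) ^ 2 : ℝ) : ℂ) * u k x - f k x) x)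
    (b1 : ∀ k x, ‖u k x‖ ≤ C * Real.exp (-(σ * |(k : ℝ)|)))
    (b2 : ∀ k x, ‖u' k x‖ ≤ C * Real.exp (-(σ * |(k : ℝ)|)))
    (b3 : ∀ k x, ‖f k x‖ ≤ C * Real.exp (-(σ * |(k : ℝ)|)))
    (hQ0 : 0 ≤ Q) (ha0 : 0 < a) (ha2 : 2 * Q ≤ a ^ 2)
    (hQ : ∀ x z, |Complex.im z| ≤ σ / 2 → ‖TS (fun k => f k x) z‖ ≤ Q * ‖TS (fun k => u k x) z‖)
    {R M0 M1 x0 y' : ℝ} (hR : 0 < R) (hRσ : R ≤ σ / 2)
    (hM0 : ∀ s : ℝ, |s| ≤ R → ‖TS (fun k => u k x0) (y' + s * I)‖ ≤ M0)
    (hM1 : ∀ s : ℝ, |s| ≤ R → ‖TS (fun k => u' k x0) (y' + s * I)‖ ≤ M1)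
    {h : ℝ} (hh : |h| ≤ R) :
    ‖TS (fun k => u k (x0 + h)) y'‖ ≤ 2 * (M0 + R * M1) * Real.exp (a * R) := by
  have hσ2 : σ / 2 < σ := by linarith
  have hθ : 0 < σ - σ / 2 := by linarith
  have hE := Real.exp_pos (a * R)
  set Y : ℝ := (2 * (1 + R) + (Q + 1) * R ^ 2) * Real.exp (a * R) + 1 with hY
  have hY0 : 0 < Y := by positivity
  refine le_of_forall_pos_le_add fun ε hε => ?_
  set η : ℝ := ε / Y with hη
  have hη0 : 0 < η := by positivity
  -- truncation
  obtain ⟨S, hS⟩ : ∃ S : Finset ℤ, C * (Sg (σ - σ / 2) -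
      ∑ k ∈ S, Real.exp (-((σ - σ / 2) * |(k : ℝ)|))) ≤ η := by
    have h3 := (summable_exp_abs hθ).hasSum
    have h4 : Filter.Tendsto (fun S : Finset ℤ => C * (Sg (σ - σ / 2) -
        ∑ k ∈ S, Real.exp (-((σ - σ / 2) * |(k : ℝ)|)))) Filter.atTop (𝓝 (C * (Sg (σ - σ / 2) -
        Sg (σ - σ / 2)))) := (h3.const_sub _).const_mul _
    rw [sub_self, mul_zero] at h4
    obtain ⟨S, hS⟩ := (h4.eventually (gt_mem_nhds hη0)).exists
    exact ⟨S, hS.le⟩
  have htr : ∀ (c : ℤ → ℂ), (∀ k, ‖c k‖ ≤ C * Real.exp (-(σ * |(k : ℝ)|))) → ∀ s : ℝ, |s| ≤ R →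
      ‖TS c (y' + s * I) - Ps S (fun k _ => c k * Complex.exp (k * y' * I)) 0 s‖ ≤ η := by
    intro c hc s hs
    have h3 := TS_trunc hc hC hσ2 S (z := y' + s * I) (by
      simp only [Complex.add_im, Complex.ofReal_im, Complex.mul_im, Complex.ofReal_re,
        Complex.I_im, mul_one, Complex.I_re, mul_zero, zero_add, add_zero]
      linarith)
    have h4 : Ps S (fun k _ => c k * Complex.exp (k * y' * I)) 0 s =
        ∑ k ∈ S, c k * Complex.exp (k * (y' + s * I) * I) := by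
      unfold Ps
      refine Finset.sum_congr rfl fun k _ => ?_
      rw [mul_assoc, Complex.ofReal_exp, ← Complex.exp_add]
      congr 2
      push_cast
      have hI : I * I = -1 := Complex.I_mul_I
      linear_combination (-(k : ℂ) * s) * hI
    rw [h4]
    exact h3.trans hS
  set v : ℤ → ℝ → ℂ := fun k x => u k x * Complex.exp (k * y' * I) with hv
  set v' : ℤ → ℝ → ℂ := fun k x => u' k x * Complex.exp (k * y' * I) with hv'
  set w : ℤ → ℝ → ℂ := fun k x => f k x * Complex.exp (k * y' * I) with hw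
  have htr' : ∀ (c : ℤ → ℝ → ℂ) (x : ℝ), (∀ k, ‖c k x‖ ≤ C * Real.exp (-(σ * |(k : ℝ)|))) →
      ∀ s : ℝ, |s| ≤ R → ‖TS (fun k => c k x) (y' + s * I) -
        Ps S (fun k x => c k x * Complex.exp (k * y' * I)) x s‖ ≤ η := by
    intro c x hc s hs
    exact htr (fun k => c k x) hc s hs
  have hp := prop2 (S := S) (v := v) (v' := v') (f := w) (Q := Q) (R := R) (M := M0 + η)
    (M1 := M1 + η) (x0 := x0) (ε := (Q + 1) * η) (a := a)
    (fun k _ x => (h1 k x).mul_const _) (fun k _ x => by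
      have := (h2 k x).mul_const (Complex.exp (k * y' * I))
      convert! this using 1
      simp only [hv, hw]
      ring) hR hQ0 (by positivity) ha0 ha2 ?_ ?_ ?_ hh
  · have h3 := htr' u (x0 + h) (fun k => b1 k _) 0 (by simpa using hR.le)
    have h4 : ((y' : ℂ) + ((0 : ℝ) : ℂ) * I) = y' := by simp
    rw [h4] at h3
    have h5 : TS (fun k => u k (x0 + h)) y' = (TS (fun k => u k (x0 + h)) y' -
        Ps S v (x0 + h) 0) + Ps S v (x0 + h) 0 := by ring
    rw [h5]
    refine (norm_add_le _ _).trans ?_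
    have h6 : η * Y = ε := by
      rw [hη]
      field_simp
    have h7 : (2 * (M0 + η + R * (M1 + η)) + (Q + 1) * η * R ^ 2) * Real.exp (a * R) + η =
        2 * (M0 + R * M1) * Real.exp (a * R) + η * Y := by
      rw [hY]
      ring
    linarith
  · intro t s hts
    have hs : |s| ≤ R := by linarith [abs_nonneg t]
    have h3 := htr' u (x0 + t) (fun k => b1 k _) s hs
    have h4 := htr' f (x0 + t) (fun k => b3 k _) s hs
    have h5 := hQ (x0 + t) (y' + s * I) (by
      simp only [Complex.add_im, Complex.ofReal_im, Complex.mul_im, Complex.ofReal_re,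
        Complex.I_im, mul_one, Complex.I_re, mul_zero, zero_add, add_zero]
      linarith)
    have h6 : ‖Ps S w (x0 + t) s‖ ≤ ‖TS (fun k => f k (x0 + t)) (y' + s * I)‖ + η := by
      have : Ps S w (x0 + t) s = TS (fun k => f k (x0 + t)) (y' + s * I) -
          (TS (fun k => f k (x0 + t)) (y' + s * I) - Ps S w (x0 + t) s) := by ring
      rw [this]
      exact (norm_sub_le _ _).trans (by linarith)
    have h7 : ‖TS (fun k => u k (x0 + t)) (y' + s * I)‖ ≤ ‖Ps S v (x0 + t) s‖ + η := by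
      have : TS (fun k => u k (x0 + t)) (y' + s * I) = (TS (fun k => u k (x0 + t)) (y' + s * I) -
          Ps S v (x0 + t) s) + Ps S v (x0 + t) s := by ring
      rw [this]
      exact (norm_add_le _ _).trans (by linarith)
    have h8 := mul_le_mul_of_nonneg_left h7 hQ0
    linarith
  · intro s hs
    have h3 := htr' u x0 (fun k => b1 k _) s hs
    have : Ps S v x0 s = TS (fun k => u k x0) (y' + s * I) -
        (TS (fun k => u k x0) (y' + s * I) - Ps S v x0 s) := by ring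
    rw [this]
    exact (norm_sub_le _ _).trans (by linarith [hM0 s hs])
  · intro s hs
    have h3 := htr' u' x0 (fun k => b2 k _) s hs
    have : Ps S v' x0 s = TS (fun k => u' k x0) (y' + s * I) -
        (TS (fun k => u' k x0) (y' + s * I) - Ps S v' x0 s) := by ring
    rw [this]
    exact (norm_sub_le _ _).trans (by linarith [hM1 s hs])

end Pool.Agent.Y291.PA
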