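import Pool.Agent.Y291.PA.Main

/-!
# The constants of an eigenfunction
-/

set_option linter.unusedSectionVars false
set_option linter.unusedVariables false

namespace Pool.Agent.Y291.PA

open MeasureTheory Real Complex Pool.Agent.Y291.DB

open scoped ComplexConjugate Topology

/-- The modes of a product are bounded by a convolution. -/
theorem conv_bound {q φ : ℝ → ℝ → ℝ} (hq : Continuous (Function.uncurry q))
    (hφ : Continuous (Function.uncurry φ)) (hqp : ∀ x y, q x (y + 2 * π) = q x y) {τ Mq B : ℝ}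
    (hτ : 0 < τ) (hMq : 0 ≤ Mq) (hB : 0 ≤ B) (hdec : ∀ k x, ‖um q k x‖ ≤ Mq * Real.exp (-(τ * |(k : ℝ)|)))
    (huB : ∀ k x, ‖um φ k x‖ ≤ B) (k : ℤ) (x : ℝ) :
    ‖um (fun x y => q x y * φ x y) k x‖ ≤
      ∑' j : ℤ, Mq * Real.exp (-(τ * |(k : ℝ) - j|)) * ‖um φ j x‖ := by
  have hs : Summable fun l : ℤ => ‖um q l x‖ :=
    Summable.of_nonneg_of_le (fun k => norm_nonneg _) (fun k => hdec k x)
      ((summable_exp_abs hτ).mul_left Mq)
  have h1 := um_mul hq hφ hqp k x hs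
  have h2 : Summable fun l : ℤ => Mq * Real.exp (-(τ * |(l : ℝ)|)) * ‖um φ (k - l) x‖ := by
    refine Summable.of_nonneg_of_le (fun l => by positivity) (fun l => ?_)
      (((summable_exp_abs hτ).mul_left Mq).mul_right B)
    exact mul_le_mul_of_nonneg_left (huB _ _) (by positivity)
  have h3 : ‖um (fun x y => q x y * φ x y) k x‖ ≤
      ∑' l : ℤ, Mq * Real.exp (-(τ * |(l : ℝ)|)) * ‖um φ (k - l) x‖ := by
    rw [← h1.tsum_eq]
    refine tsum_of_norm_bounded h2.hasSum fun l => ?_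
    rw [norm_mul]
    exact mul_le_mul_of_nonneg_right (hdec l x) (norm_nonneg _)
  refine h3.trans (le_of_eq ?_)
  rw [← (Equiv.subLeft k).tsum_eq (fun l : ℤ => Mq * Real.exp (-(τ * |(l : ℝ)|)) *
    ‖um φ (k - l) x‖)]
  refine tsum_congr fun j => ?_
  simp only [Equiv.subLeft_apply, sub_sub_cancel]
  push_cast
  rfl

/-- The convolution of decaying sequences. -/
theorem conv_decay {τ σ Mq X : ℝ} {a : ℤ → ℝ} (hσ0 : 0 ≤ σ) (hσ : σ < τ) (hMq : 0 ≤ Mq)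
    (hX : 0 ≤ X) (ha0 : ∀ j, 0 ≤ a j) (ha : ∀ j, a j ≤ X * Real.exp (-(σ * |(j : ℝ)|))) (k : ℤ) :
    ∑' j : ℤ, Mq * Real.exp (-(τ * |(k : ℝ) - j|)) * a j ≤
      Mq * Sg (τ - σ) * X * Real.exp (-(σ * |(k : ℝ)|)) := by
  have hθ : 0 < τ - σ := by linarith
  have h3 : HasSum (fun j : ℤ => Mq * X * Real.exp (-(σ * |(k : ℝ)|)) *
      Real.exp (-((τ - σ) * |(k : ℝ) - j|)))
      (Mq * X * Real.exp (-(σ * |(k : ℝ)|)) * Sg (τ - σ)) :=
    (hasSum_shift hθ k).mul_left _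
  have hle : ∀ j : ℤ, Mq * Real.exp (-(τ * |(k : ℝ) - j|)) * a j ≤
      Mq * X * Real.exp (-(σ * |(k : ℝ)|)) * Real.exp (-((τ - σ) * |(k : ℝ) - j|)) := by
    intro j
    have h6 : |(k : ℝ)| ≤ |(k : ℝ) - j| + |(j : ℝ)| := by
      have : (k : ℝ) = (k - j) + j := by ring
      conv_lhs => rw [this]
      exact abs_add_le _ _
    calc Mq * Real.exp (-(τ * |(k : ℝ) - j|)) * a j
        ≤ Mq * Real.exp (-(τ * |(k : ℝ) - j|)) * (X * Real.exp (-(σ * |(j : ℝ)|))) := by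
          have := ha j
          gcongr
      _ = Mq * X * Real.exp (-(τ * |(k : ℝ) - j|) + -(σ * |(j : ℝ)|)) := by
          rw [Real.exp_add]
          ring
      _ ≤ Mq * X * Real.exp (-(σ * |(k : ℝ)|) + -((τ - σ) * |(k : ℝ) - j|)) := by
          refine mul_le_mul_of_nonneg_left (Real.exp_le_exp.2 ?_) (by positivity)
          nlinarith [mul_le_mul_of_nonneg_left h6 hσ0]
      _ = _ := by
          rw [Real.exp_add]
          ring
  have hsum : Summable fun j : ℤ => Mq * Real.exp (-(τ * |(k : ℝ) - j|)) * a j :=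
    Summable.of_nonneg_of_le (fun j => mul_nonneg (by positivity) (ha0 j)) hle h3.summable
  refine (hsum.tsum_le_tsum hle h3.summable).trans (le_of_eq ?_)
  rw [h3.tsum_eq]
  ring

theorem um_const_mul (c : ℝ) (F : ℝ → ℝ → ℝ) (k : ℤ) (x : ℝ) :
    um (fun x y => c * F x y) k x = c * um F k x := by
  unfold um
  rw [mul_left_comm]
  congr 1
  rw [← intervalIntegral.integral_const_mul]
  refine intervalIntegral.integral_congr fun y _ => ?_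
  simp only
  push_cast
  ring

theorem sq_le_exp (x : ℝ) (hx : 0 ≤ x) : x ^ 2 ≤ 2 * Real.exp x := by
  have := Real.quadratic_le_exp_of_nonneg hx
  nlinarith

/-- The numerical bound of the constants. -/
theorem const_bound {K κ0 σ : ℝ} (hK : 1 ≤ K) (hκ : 0 ≤ κ0) (hσ : 0 < σ) :
    (2 + (κ0 * K) ^ 2 + 2 / σ ^ 2) * Real.exp (2 * σ * (κ0 * K)) ≤
      Real.exp ((2 * σ * κ0 + (2 + κ0 ^ 2 + 2 / σ ^ 2) + 2) * K) := by
  have h1 : 2 + (κ0 * K) ^ 2 + 2 / σ ^ 2 ≤ (2 + κ0 ^ 2 + 2 / σ ^ 2) * K ^ 2 := by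
    have h2 : 1 ≤ K ^ 2 := by nlinarith
    have h3 : 0 ≤ 2 / σ ^ 2 := by positivity
    have h4 : 2 / σ ^ 2 ≤ 2 / σ ^ 2 * K ^ 2 := le_mul_of_one_le_right h3 h2
    nlinarith
  have h2 : K ^ 2 ≤ Real.exp (2 * K) := by
    have : K ≤ Real.exp K := by linarith [Real.add_one_le_exp K]
    calc K ^ 2 ≤ Real.exp K ^ 2 := pow_le_pow_left₀ (by linarith) this 2
      _ = Real.exp (2 * K) := by
          rw [← Real.exp_nat_mul]
          push_cast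
          rfl
  have h3 : 2 + κ0 ^ 2 + 2 / σ ^ 2 ≤ Real.exp ((2 + κ0 ^ 2 + 2 / σ ^ 2) * K) :=
    le_exp_K (by positivity) hK
  calc (2 + (κ0 * K) ^ 2 + 2 / σ ^ 2) * Real.exp (2 * σ * (κ0 * K))
      ≤ ((2 + κ0 ^ 2 + 2 / σ ^ 2) * K ^ 2) * Real.exp (2 * σ * (κ0 * K)) := by gcongr
    _ ≤ (Real.exp ((2 + κ0 ^ 2 + 2 / σ ^ 2) * K) * Real.exp (2 * K)) *
        Real.exp (2 * σ * (κ0 * K)) := by gcongr
    _ = _ := by
        rw [← Real.exp_add, ← Real.exp_add]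
        congr 1
        ring

/-- The three decay estimates. -/
theorem three_bounds {q φ φx φxx φy φyy : ℝ → ℝ → ℝ} {L α : ℝ} (hL : 0 < L)
    (hsol : Sol2 q φ φx φxx φy φyy)
    (hper : ∀ x y, φ x (y + 2 * π) = φ x y) (htw : ∀ x y, φ (x + L) (y + α) = φ x y)
    (hqp : ∀ x y, q x (y + 2 * π) = q x y) {σ Mq B K0 : ℝ} (hσ : 0 < σ)
    (hMq : 0 ≤ Mq) (hB : 0 < B) (hK0 : 0 < K0)
    (hdec : ∀ k x, ‖um q k x‖ ≤ Mq * Real.exp (-(4 * σ * |(k : ℝ)|)))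
    (hsup : ∀ x y, |φ x y| ≤ B) (hKM : 2 * Mq * Sg (2 * σ) ≤ K0 ^ 2) (k : ℤ) (x : ℝ) :
    ‖um φ k x‖ ≤ B * ((2 + K0 ^ 2 + 2 / σ ^ 2) * Real.exp (2 * σ * K0)) *
        Real.exp (-(σ * |(k : ℝ)|)) ∧
    ‖um φx k x‖ ≤ B * ((2 + K0 ^ 2 + 2 / σ ^ 2) * Real.exp (2 * σ * K0)) *
        Real.exp (-(σ * |(k : ℝ)|)) ∧
    ‖um (fun x y => q x y * φ x y) k x‖ ≤ B * ((2 + K0 ^ 2 + 2 / σ ^ 2) *
        Real.exp (2 * σ * K0)) * Real.exp (-(σ * |(k : ℝ)|)) := by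
  have e4 : 4 * σ - 2 * σ = 2 * σ := by ring
  have huB : ∀ k x, ‖um φ k x‖ ≤ B := fun k x => um_le (hsup x) k
  have hf := conv_bound hsol.qc hsol.c hqp (by positivity) hMq hB.le hdec huB
  have hu := decay (u := um φ) (u' := um φx) (f := um fun x y => q x y * φ x y) (L := L)
    (τ := 4 * σ) (σ := 2 * σ) hL (by positivity) (by linarith) hMq hB hK0
    (fun k x => um_d12 hsol hper k x) (fun k x => um_d22 hsol hper k x)
    (fun k x => um_twist hsol.c hper htw k x) huB hf (by rw [e4]; exact hKM)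
  have hu' : ∀ k x, ‖um φ k x‖ ≤ (B * Real.exp (2 * σ * K0)) *
      Real.exp (-(2 * σ * |(k : ℝ)|)) := by
    intro k x
    refine (hu k x).trans (le_of_eq ?_)
    rw [mul_assoc B, ← Real.exp_add]
    congr 2
    ring
  have hfb : ∀ k x, ‖um (fun x y => q x y * φ x y) k x‖ ≤ K0 ^ 2 / 2 *
      (B * Real.exp (2 * σ * K0)) * Real.exp (-(2 * σ * |(k : ℝ)|)) := by
    intro k x
    refine (hf k x).trans ?_
    have h1 := conv_decay (τ := 4 * σ) (σ := 2 * σ) (Mq := Mq) (X := B * Real.exp (2 * σ * K0))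
      (a := fun j => ‖um φ j x‖) (by positivity) (by linarith) hMq (by positivity)
      (fun j => norm_nonneg _) (fun j => hu' j x) k
    refine h1.trans ?_
    rw [e4]
    have h2 : Mq * Sg (2 * σ) ≤ K0 ^ 2 / 2 := by linarith
    gcongr
  have hkexp : (k : ℝ) ^ 2 * Real.exp (-(2 * σ * |(k : ℝ)|)) ≤
      2 / σ ^ 2 * Real.exp (-(σ * |(k : ℝ)|)) := by
    have h1 := sq_le_exp (σ * |(k : ℝ)|) (by positivity)
    rw [mul_pow, sq_abs] at h1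
    have h2 : Real.exp (-(2 * σ * |(k : ℝ)|)) = Real.exp (-(σ * |(k : ℝ)|)) *
        Real.exp (-(σ * |(k : ℝ)|)) := by
      rw [← Real.exp_add]
      congr 1
      ring
    have h3 : Real.exp (σ * |(k : ℝ)|) * Real.exp (-(σ * |(k : ℝ)|)) = 1 := by
      rw [← Real.exp_add]
      simp
    have h4 : (k : ℝ) ^ 2 * Real.exp (-(σ * |(k : ℝ)|)) ≤ 2 / σ ^ 2 := by
      rw [le_div_iff₀ (by positivity)]
      have h5 := mul_le_mul_of_nonneg_right h1 (Real.exp_pos (-(σ * |(k : ℝ)|))).le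
      rw [mul_assoc 2, h3] at h5
      linarith
    rw [h2, ← mul_assoc]
    exact mul_le_mul_of_nonneg_right h4 (Real.exp_pos _).le
  have hmono : Real.exp (-(2 * σ * |(k : ℝ)|)) ≤ Real.exp (-(σ * |(k : ℝ)|)) := by
    refine Real.exp_le_exp.2 ?_
    nlinarith [abs_nonneg (k : ℝ)]
  have hE : 0 < B * Real.exp (2 * σ * K0) := by positivity
  have h2σ : 0 ≤ 2 / σ ^ 2 := by positivity
  refine ⟨?_, ?_, ?_⟩
  · refine (hu' k x).trans ?_
    calc (B * Real.exp (2 * σ * K0)) * Real.exp (-(2 * σ * |(k : ℝ)|))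
        ≤ (B * Real.exp (2 * σ * K0)) * Real.exp (-(σ * |(k : ℝ)|)) := by gcongr
      _ = 1 * ((B * Real.exp (2 * σ * K0)) * Real.exp (-(σ * |(k : ℝ)|))) := (one_mul _).symm
      _ ≤ (2 + K0 ^ 2 + 2 / σ ^ 2) *
          ((B * Real.exp (2 * σ * K0)) * Real.exp (-(σ * |(k : ℝ)|))) := by
          gcongr
          nlinarith [sq_nonneg K0]
      _ = _ := by ring
  · have h1 := deriv_bound (um_d12 hsol hper k) (um_d22 hsol hper k) (x := x) (r := 1)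
      (a := (B * Real.exp (2 * σ * K0)) * Real.exp (-(2 * σ * |(k : ℝ)|)))
      (b := ((k : ℝ) ^ 2 + K0 ^ 2 / 2) * (B * Real.exp (2 * σ * K0)) *
        Real.exp (-(2 * σ * |(k : ℝ)|))) one_pos (fun t _ => hu' k t) (fun t _ => by
        refine (norm_sub_le _ _).trans ?_
        rw [norm_mul, Complex.norm_real, Real.norm_of_nonneg (by positivity), add_mul, add_mul]
        refine add_le_add ?_ (hfb k t)
        rw [mul_assoc]
        exact mul_le_mul_of_nonneg_left (hu' k t) (by positivity))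
    refine h1.trans ?_
    have h2 : 2 * ((B * Real.exp (2 * σ * K0)) * Real.exp (-(2 * σ * |(k : ℝ)|))) / 1 +
        ((k : ℝ) ^ 2 + K0 ^ 2 / 2) * (B * Real.exp (2 * σ * K0)) *
        Real.exp (-(2 * σ * |(k : ℝ)|)) * 1 =
        (B * Real.exp (2 * σ * K0)) * ((2 + K0 ^ 2 / 2) * Real.exp (-(2 * σ * |(k : ℝ)|)) +
          (k : ℝ) ^ 2 * Real.exp (-(2 * σ * |(k : ℝ)|))) := by ring
    rw [h2]
    calc (B * Real.exp (2 * σ * K0)) * ((2 + K0 ^ 2 / 2) * Real.exp (-(2 * σ * |(k : ℝ)|)) +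
          (k : ℝ) ^ 2 * Real.exp (-(2 * σ * |(k : ℝ)|)))
        ≤ (B * Real.exp (2 * σ * K0)) * ((2 + K0 ^ 2) * Real.exp (-(σ * |(k : ℝ)|)) +
          2 / σ ^ 2 * Real.exp (-(σ * |(k : ℝ)|))) := by
          refine mul_le_mul_of_nonneg_left (add_le_add ?_ hkexp) hE.le
          refine mul_le_mul ?_ hmono (Real.exp_pos _).le (by positivity)
          nlinarith [sq_nonneg K0]
      _ = _ := by ring
  · refine (hfb k x).trans ?_
    calc K0 ^ 2 / 2 * (B * Real.exp (2 * σ * K0)) * Real.exp (-(2 * σ * |(k : ℝ)|))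
        ≤ (2 + K0 ^ 2 + 2 / σ ^ 2) * (B * Real.exp (2 * σ * K0)) *
          Real.exp (-(σ * |(k : ℝ)|)) := by
          gcongr
          nlinarith [sq_nonneg K0]
      _ = _ := by ring

/-- The context of an eigenfunction. -/
theorem ctx_of_eigen {ρ : ℝ × ℝ → ℝ} {L α ρM σ Mρ : ℝ} (hL : 0 < L) (hρc : Continuous ρ)
    (hρy : ∀ p : ℝ × ℝ, ρ (p.1, p.2 + 2 * π) = ρ p) (hρ0 : ∀ p, 0 ≤ ρ p)
    (hρM : ∀ p, ρ p ≤ ρM) (hρM0 : 0 < ρM) (hσ : 0 < σ) (hσ1 : σ ≤ 1) (hMρ : 0 ≤ Mρ)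
    (hdec : ∀ k x, ‖um (fun x y => ρ (x, y)) k x‖ ≤ Mρ * Real.exp (-(4 * σ * |(k : ℝ)|))) :
    ∃ c1 cQ : ℝ, 0 ≤ c1 ∧ 0 < cQ ∧ ∀ (lam : ℝ) (φ : ℝ × ℝ → ℝ) (φx φxx φy φyy : ℝ → ℝ → ℝ),
      Eigen ρ L α lam φ →
      Sol2 (fun x y => lam * ρ (x, y)) (fun x y => φ (x, y)) φx φxx φy φyy →
      ∃ B, Ctx (fun x y => φ (x, y)) φx (um fun x y => lam * ρ (x, y) * φ (x, y)) L σ c1 cQ
        (Real.sqrt (1 + lam)) B := by
  have hS2 := Sg_ge (θ := 2 * σ) (by positivity)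
  have hS3 := Sg_ge (θ := 3 * σ) (by positivity)
  obtain ⟨κ0, hκ0⟩ : ∃ κ0, κ0 = Real.sqrt (2 * Mρ * Sg (2 * σ) + 1) := ⟨_, rfl⟩
  have hκpos : 0 < κ0 := by
    rw [hκ0]
    positivity
  have hκ2 : κ0 ^ 2 = 2 * Mρ * Sg (2 * σ) + 1 := by
    rw [hκ0, Real.sq_sqrt (by positivity)]
  refine ⟨2 * σ * κ0 + (2 + κ0 ^ 2 + 2 / σ ^ 2) + 2, Mρ * Sg (7 / 2 * σ) + ρM, by positivity, ?_, ?_⟩
  · have := Sg_ge (θ := 7 / 2 * σ) (by positivity)
    positivity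
  intro lam φ φx φxx φy φyy hφ hsol
  have hS7 := Sg_ge (θ := 7 / 2 * σ) (by positivity)
  have hlam := hφ.pos
  obtain ⟨K, hK⟩ : ∃ K, K = Real.sqrt (1 + lam) := ⟨_, rfl⟩
  rw [← hK]
  have hK1 : 1 ≤ K := by
    rw [hK]
    exact Real.one_le_sqrt.2 (by linarith)
  have hK2 : K ^ 2 = 1 + lam := by
    rw [hK, Real.sq_sqrt (by linarith)]
  -- the maximum
  have hKc : IsCompact (Set.Icc (0 : ℝ) L ×ˢ Set.Icc (0 : ℝ) (2 * π)) :=
    isCompact_Icc.prod isCompact_Icc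
  obtain ⟨pm, hpm, hmax⟩ := hKc.exists_isMaxOn (f := fun p => |φ p|)
    ⟨(0, 0), ⟨⟨le_rfl, hL.le⟩, ⟨le_rfl, by positivity⟩⟩⟩ hφ.smooth.continuous.abs.continuousOn
  have hsup : ∀ p, |φ p| ≤ |φ pm| := by
    intro p
    obtain ⟨m, n, h3, h4⟩ := reduce hL α 0 0 p
    rw [← per_all hφ.perx hφ.pery m n p]
    rw [zero_add] at h3 h4
    exact hmax ⟨⟨h3.1, h3.2.le⟩, ⟨h4.1, h4.2.le⟩⟩
  have hB : 0 < |φ pm| := by
    obtain ⟨p, hp⟩ := hφ.ne
    exact (abs_pos.2 hp).trans_le (hsup p)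
  have hper : ∀ x y, φ (x, y + 2 * π) = φ (x, y) := fun x y => hφ.pery (x, y)
  have htw : ∀ x y, φ (x + L, y + α) = φ (x, y) := fun x y => hφ.perx (x, y)
  have hqp : ∀ x y, lam * ρ (x, y + 2 * π) = lam * ρ (x, y) := fun x y => by
    rw [show ρ (x, y + 2 * π) = ρ (x, y) from hρy (x, y)]
  have hMq : 0 ≤ lam * Mρ := by positivity
  have hqdec : ∀ k x, ‖um (fun x y => lam * ρ (x, y)) k x‖ ≤ lam * Mρ *
      Real.exp (-(4 * σ * |(k : ℝ)|)) := by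
    intro k x
    rw [um_const_mul, norm_mul, Complex.norm_real, Real.norm_of_nonneg hlam.le, mul_assoc]
    exact mul_le_mul_of_nonneg_left (hdec k x) hlam.le
  have hKM : 2 * (lam * Mρ) * Sg (2 * σ) ≤ (κ0 * K) ^ 2 := by
    rw [mul_pow, hκ2, hK2]
    have : 0 ≤ 2 * Mρ * Sg (2 * σ) := by positivity
    nlinarith
  have h3b := three_bounds (q := fun x y => lam * ρ (x, y)) (φ := fun x y => φ (x, y)) (L := L)
    (α := α) (σ := σ) (Mq := lam * Mρ) (B := |φ pm|) (K0 := κ0 * K) hL hsol hper htw hqp hσ hMq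
    hB (by positivity) hqdec (fun x y => hsup (x, y)) hKM
  have hcb := const_bound (K := K) (κ0 := κ0) (σ := σ) hK1 hκpos.le hσ
  have hmulB : ∀ k : ℤ, |φ pm| * ((2 + (κ0 * K) ^ 2 + 2 / σ ^ 2) * Real.exp (2 * σ * (κ0 * K))) *
      Real.exp (-(σ * |(k : ℝ)|)) ≤ |φ pm| *
      Real.exp ((2 * σ * κ0 + (2 + κ0 ^ 2 + 2 / σ ^ 2) + 2) * K) *
      Real.exp (-(σ * |(k : ℝ)|)) := by
    intro k
    gcongr
  have b1 : ∀ (k : ℤ) (x : ℝ), ‖um (fun x y => φ (x, y)) k x‖ ≤ |φ pm| *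
      Real.exp ((2 * σ * κ0 + (2 + κ0 ^ 2 + 2 / σ ^ 2) + 2) * K) * Real.exp (-(σ * |(k : ℝ)|)) :=
    fun k x => (h3b k x).1.trans (hmulB k)
  have b2 : ∀ (k : ℤ) (x : ℝ), ‖um φx k x‖ ≤ |φ pm| *
      Real.exp ((2 * σ * κ0 + (2 + κ0 ^ 2 + 2 / σ ^ 2) + 2) * K) * Real.exp (-(σ * |(k : ℝ)|)) :=
    fun k x => (h3b k x).2.1.trans (hmulB k)
  have b3 : ∀ (k : ℤ) (x : ℝ), ‖um (fun x y => lam * ρ (x, y) * φ (x, y)) k x‖ ≤ |φ pm| *
      Real.exp ((2 * σ * κ0 + (2 + κ0 ^ 2 + 2 / σ ^ 2) + 2) * K) * Real.exp (-(σ * |(k : ℝ)|)) :=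
    fun k x => (h3b k x).2.2.trans (hmulB k)
  have hφxper : ∀ x y, φx x (y + 2 * π) = φx x y := by
    intro x y
    have h1 := hsol.dx x (y + 2 * π)
    have h2 : (fun t => φ (t, y + 2 * π)) = fun t => φ (t, y) := funext fun t => hper t y
    rw [h2] at h1
    exact h1.unique (hsol.dx x y)
  have hlK : lam ≤ K ^ 2 := by
    rw [hK2]
    linarith
  refine ⟨|φ pm|, ?_⟩
  refine ⟨hL, hσ, hσ1, by positivity, by positivity, hK1, hB, fun k x => um_d12 hsol hper k x,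
    fun k x => um_d22 hsol hper k x, b1, b2, b3, ?_, ?_, ?_, ?_, fun x y => hsup (x, y), ?_⟩
  · intro x z hz
    have hz' : |z.im| < σ := by linarith
    have e7 : 4 * σ - σ / 2 = 7 / 2 * σ := by ring
    have hq1 : ∀ k : ℤ, ‖um (fun x y => lam * ρ (x, y)) k x‖ ≤ lam * Mρ *
        Real.exp (-(σ * |(k : ℝ)|)) := by
      intro k
      refine (hqdec k x).trans ?_
      refine mul_le_mul_of_nonneg_left (Real.exp_le_exp.2 ?_) hMq
      nlinarith [abs_nonneg (k : ℝ)]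
    have h1 := TS_mul hsol.qc hsol.c hqp hper x (C1 := lam * Mρ)
      (C2 := |φ pm| * Real.exp ((2 * σ * κ0 + (2 + κ0 ^ 2 + 2 / σ ^ 2) + 2) * K))
      (C3 := |φ pm| * Real.exp ((2 * σ * κ0 + (2 + κ0 ^ 2 + 2 / σ ^ 2) + 2) * K)) (σ := σ)
      hMq (by positivity) (by positivity) hσ hq1 (fun k => b1 k x) (fun k => b3 k x) hz'
    rw [h1, norm_mul]
    have h2 := TS_bound (c := fun k => um (fun x y => lam * ρ (x, y)) k x) (C := lam * Mρ)
      (σ := 4 * σ) (fun k => hqdec k x) hMq (σ' := σ / 2) (by linarith) hz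
    rw [e7] at h2
    refine mul_le_mul_of_nonneg_right (h2.trans ?_) (norm_nonneg _)
    calc lam * Mρ * Sg (7 / 2 * σ) ≤ K ^ 2 * Mρ * Sg (7 / 2 * σ) := by gcongr
      _ = (Mρ * Sg (7 / 2 * σ)) * K ^ 2 := by ring
      _ ≤ (Mρ * Sg (7 / 2 * σ) + ρM) * K ^ 2 := by
          gcongr
          linarith
  · intro k x m hm
    have hm0 : 0 ≤ m := (abs_nonneg _).trans (hm 0)
    refine um_le (fun y => ?_) k
    rw [abs_mul, abs_mul, abs_of_pos hlam, abs_of_nonneg (hρ0 _)]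
    have h1 : 0 ≤ Mρ * Sg (7 / 2 * σ) := by positivity
    calc lam * ρ (x, y) * |φ (x, y)| ≤ K ^ 2 * ρM * m := by
          have h2 := hρ0 (x, y)
          have h3 := hρM (x, y)
          have h4 := hm y
          gcongr
      _ = ρM * K ^ 2 * m := by ring
      _ ≤ (Mρ * Sg (7 / 2 * σ) + ρM) * K ^ 2 * m := by
          gcongr
          linarith
  · intro x y
    exact TS_real hsol.c hper x (by positivity) hσ (fun k => b1 k x) y
  · intro x y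
    exact TS_real hsol.cx hφxper x (by positivity) hσ (fun k => b2 k x) y
  · intro x0
    obtain ⟨m, n, h3, h4⟩ := reduce hL α x0 0 pm
    refine ⟨pm.1 + m * L, ⟨h3.1, h3.2.le⟩, pm.2 + m * α + n * (2 * π), ?_⟩
    show |φ (pm.1 + m * L, pm.2 + m * α + n * (2 * π))| = |φ pm|
    rw [per_all hφ.perx hφ.pery m n pm]

/-- The doubling indices for metrics that are analytic in one variable. -/
theorem main {ρ : ℝ × ℝ → ℝ} {L α : ℝ} (hL : 0 < L) (hρc : Continuous ρ) (hρpos : ∀ p, 0 < ρ p)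
    (hρx : ∀ p : ℝ × ℝ, ρ (p.1 + L, p.2 + α) = ρ p)
    (hρy : ∀ p : ℝ × ℝ, ρ (p.1, p.2 + 2 * π) = ρ p) (hρa : AnalyticInSecond ρ)
    {C C₁ C₂ : ℝ} (hC : 0 < C) (hC1 : 0 < C₁) (hC2 : 0 < C₂) :
    ∃ a : ℝ, 0 < a ∧ ∀ (lam : ℝ) (φ : ℝ × ℝ → ℝ), Eigen ρ L α lam φ →
      ∀ (ι : Type) [Fintype ι] (c : ι → ℝ × ℝ), Admissible ρ L α lam φ C C₁ C₂ c →
        (∀ t : ℝ, 0 < t → (({i | t ≤ doubling ρ L α φ (c i) (C / Real.sqrt lam)}.ncard : ℕ) : ℝ) ≤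
          a / t * Fintype.card ι) ∧
        ∑ i, doubling ρ L α φ (c i) (C / Real.sqrt lam) ≤
          a * Real.log (2 + lam) * Fintype.card ι := by
  obtain ⟨τ, M, F, hτ, hF⟩ := hρa
  obtain ⟨ρm, hρm0, hρm⟩ := bounded_below_of_per hL hρc hρpos hρx hρy
  obtain ⟨ρM, hρM0', hρM'⟩ := bounded_of_per hL hρc hρx hρy
  have hρM : ∀ p, ρ p ≤ ρM := fun p => (le_abs_self _).trans (hρM' p)
  have hρM0 : 0 < ρM := (hρpos (0, 0)).trans_le (hρM _)
  have hM0 : 0 ≤ M := (norm_nonneg _).trans ((hF 0).2.1 0 (by simpa using hτ))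
  obtain ⟨σ, hσ, hσ1, hστ⟩ : ∃ σ : ℝ, 0 < σ ∧ σ ≤ 1 ∧ 4 * σ ≤ τ / 2 := by
    refine ⟨min 1 (τ / 8), lt_min one_pos (by positivity), min_le_left _ _, ?_⟩
    have := min_le_right 1 (τ / 8)
    linarith
  have hdec : ∀ (k : ℤ) (x : ℝ), ‖um (fun x y => ρ (x, y)) k x‖ ≤
      M * Real.exp (-(4 * σ * |(k : ℝ)|)) := by
    intro k x
    refine (um_decay (ρ := fun x y => ρ (x, y)) hτ (hF x).1 (hF x).2.1 (hF x).2.2
      (fun y => hρy (x, y)) k).trans ?_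
    refine mul_le_mul_of_nonneg_left (Real.exp_le_exp.2 ?_) hM0
    nlinarith [abs_nonneg (k : ℝ)]
  obtain ⟨c1, cQ, hc1, hcQ, hctx⟩ := ctx_of_eigen (α := α) hL hρc hρy (fun p => (hρpos p).le) hρM
    hρM0 hσ hσ1 hM0 hdec
  have hsM : 0 < Real.sqrt ρM := Real.sqrt_pos.2 hρM0
  obtain ⟨β, hβ, hβσ, hβC⟩ : ∃ β : ℝ, 0 < β ∧ β ≤ σ / 32 ∧ 8 * β * Real.sqrt ρM ≤ C := by
    refine ⟨min (σ / 32) (C / (8 * Real.sqrt ρM)), lt_min (by positivity) (by positivity),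
      min_le_left _ _, ?_⟩
    have h1 := min_le_right (σ / 32) (C / (8 * Real.sqrt ρM))
    calc 8 * min (σ / 32) (C / (8 * Real.sqrt ρM)) * Real.sqrt ρM
        ≤ 8 * (C / (8 * Real.sqrt ρM)) * Real.sqrt ρM := by gcongr
      _ = C := by
          field_simp
  have hA : 0 ≤ 6 * C / Real.sqrt ρm + 3 * L + 6 * π := by positivity
  obtain ⟨E, D, W, G, hE, hD, hW, hG, hgr⟩ := growth (L := L) (σ := σ) (c1 := c1) (cQ := cQ)
    (ρM := ρM) (β := β) (A := 6 * C / Real.sqrt ρm + 3 * L + 6 * π) hL hσ hσ1 hc1 hcQ hρM0.le hβ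
    hβσ hA
  obtain ⟨a, ha, hfin⟩ := assembly (C₁ := C₁) (C₂ := C₂) hL hρc hρx hρy hρm0 hρm hρM hC hβ
    (by linarith) hβC le_rfl hE hD hW hG hC1 hC2
  refine ⟨a, ha, fun lam φ hφ ι _ c hc => hfin lam φ hφ ?_ ι c hc⟩
  obtain ⟨φx, φxx, φy, φyy, hsol⟩ := sol_of_eigen hρc hφ
  obtain ⟨B, hB⟩ := hctx lam φ φx φxx φy φyy hφ hsol
  exact hgr lam B _ _ φx φxx φy φyy _ hφ.pos hB hsol fun x y =>
    mul_le_mul_of_nonneg_left (hρM _) hφ.pos.le

end Pool.Agent.Y291.PA
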