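import Pool.Agent.Y291.PA.Slices

/-!
# The growth function of a solution
-/

set_option linter.unusedSectionVars false
set_option linter.unusedVariables false

namespace Pool.Agent.Y291.PA

open MeasureTheory Real Complex Pool.Agent.Y291.DB

open scoped ComplexConjugate Topology

/-- Most points of the interval are good. -/
theorem good_points {q φ φx φxx φy φyy : ℝ → ℝ → ℝ} (hsol : Sol2 q φ φx φxx φy φyy)
    {f : ℤ → ℝ → ℂ} {L σ c1 cQ K B : ℝ} (H : Ctx φ φx f L σ c1 cQ K B)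
    {C1 S β δ b x0 y0 x y : ℝ} (hC1 : 0 < C1) (hS : 0 < S) (hβ : 0 < β) (hδ : 0 < δ)
    (hb : b = 4 * β * δ)
    (hx : x ∈ XX φ φx b x0 y0 (2 * C1 * b * S ^ 2)) (hy : |y - y0| ≤ β * δ) (s : ℝ)
    (hs : s ^ 2 = 1) :
    volume {t : ℝ | |t - y| ≤ β * δ ∧ Real.sqrt (8 * C1) * S < ‖PP φ φx b s x t‖} ≤
      ENNReal.ofReal (β * δ) := by
  have hb0 : 0 < b := by
    rw [hb]
    positivity
  have hm0 : 0 < Real.sqrt (8 * C1) * S := by positivity
  have hc1' : Continuous (fun p : ℝ × ℝ => φ p.1 p.2) := hsol.c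
  have hc2' : Continuous (fun p : ℝ × ℝ => φx p.1 p.2) := hsol.cx
  have hgc : Continuous fun t => φ x t ^ 2 + b ^ 2 * φx x t ^ 2 := by
    have d1 : Continuous fun t => φ x t := hc1'.comp (Continuous.prodMk_right x)
    have d2 : Continuous fun t => φx x t := hc2'.comp (Continuous.prodMk_right x)
    fun_prop
  have hmk := markov hgc (fun t => by positivity) (a := y0 - b / 2) (b := y0 + b / 2)
    (by linarith) hx.2 (s := (Real.sqrt (8 * C1) * S) ^ 2) (by positivity)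
  have hval : 2 * C1 * b * S ^ 2 / (Real.sqrt (8 * C1) * S) ^ 2 = β * δ := by
    rw [mul_pow, Real.sq_sqrt (by positivity), hb]
    field_simp
    ring
  rw [hval] at hmk
  refine (measure_mono ?_).trans hmk
  rintro t ⟨h1, h2⟩
  have h3 : |t - y0| ≤ b / 2 := by
    have : t - y0 = (t - y) + (y - y0) := by ring
    rw [this]
    refine (abs_add_le _ _).trans ?_
    rw [hb]
    linarith
  rw [abs_le] at h3
  refine ⟨⟨by linarith, by linarith⟩, ?_⟩
  rw [← PP_real H b s x t hs]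
  exact pow_le_pow_left₀ hm0.le h2.le 2

/-- The bound of the energy constant. -/
theorem energy_const {lam ρM β δ b : ℝ} (hlam : 0 < lam) (hρM : 0 ≤ ρM) (hβ : 0 < β) (hβ1 : β ≤ 1)
    (hδ : 4 * δ ^ 2 = 1 / (1 + lam)) (hb : b = 4 * β * δ) :
    129 + 16 * (lam * ρM) * b ^ 2 ≤ 129 + 64 * ρM := by
  have h1 : lam * δ ^ 2 ≤ 1 / 4 := by
    have h3 : lam * (1 / (1 + lam)) ≤ 1 := by
      rw [mul_one_div, div_le_one (by linarith)]
      linarith
    rw [← hδ] at h3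
    linarith
  have h2 : 16 * (lam * ρM) * b ^ 2 = 256 * β ^ 2 * ρM * (lam * δ ^ 2) := by
    rw [hb]
    ring
  rw [h2]
  have h3 : 256 * β ^ 2 * ρM * (lam * δ ^ 2) ≤ 256 * β ^ 2 * ρM * (1 / 4) := by gcongr
  have h4 : β ^ 2 ≤ 1 := by nlinarith
  nlinarith [mul_le_mul_of_nonneg_right h4 hρM]

/-- The analytic bound near a good point. -/
theorem rem_high {P : ℂ → ℂ} {R Ca a δ : ℝ} {g : ℝ → ℝ} (hg : Gro P R Ca a δ g) (hCa : 0 ≤ Ca)
    (ha : 0 ≤ a) {c8 A β m y y' τ G : ℝ} (haδ : a * δ = c8 / 2) (hδ : 0 < δ) (hA : 0 ≤ A)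
    (hβ : 0 < β) (hβ1 : β ≤ 1) (hβδ : β * δ ≤ R / 32) (hm : 0 ≤ m)
    (hset : volume {t : ℝ | |t - y| ≤ β * δ ∧ m < ‖P t‖} ≤ ENNReal.ofReal (β * δ))
    (hyy : |y' - y| ≤ (A + 1) * δ) (hτ : |τ| ≤ (A + 2) * δ) (hc : (2 * A + 3) * δ ≤ R / 32)
    (hR : R ≤ 1) (hG : g y ≤ G) :
    ‖P (y' + τ * I)‖ ≤ m * Real.exp (DD (2 * (2 * A + 3)) β * G + 1 +
      Ca * (c8 / 2) * (2 * A + 4)) := by
  have hα1 : 1 ≤ 2 * (2 * A + 3) := by linarith
  have hzy : ‖(y' + τ * I : ℂ) - y‖ ≤ (2 * A + 3) * δ := by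
    have h1 : (y' + τ * I : ℂ) - y = ((y' - y : ℝ) : ℂ) + τ * I := by
      push_cast
      ring
    rw [h1]
    refine (norm_add_le _ _).trans ?_
    rw [norm_mul, Complex.norm_I, mul_one, Complex.norm_real, Complex.norm_real,
      Real.norm_eq_abs, Real.norm_eq_abs]
    linarith
  have h1 := hg.rem (2 * (2 * A + 3)) β y m (y' + τ * I) hα1 hβ hβ1 hβδ hm hset
    (by linarith) (by
      have h2 := exp_sub_exp (z := y' + τ * I) (c := y) (by linarith)
      rw [Complex.ofReal_im, neg_zero, Real.exp_zero, one_mul] at h2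
      refine h2.trans ?_
      linarith)
  refine h1.trans (mul_le_mul_of_nonneg_left (Real.exp_le_exp.2 ?_) hm)
  have h2 : DD (2 * (2 * A + 3)) β * g y ≤ DD (2 * (2 * A + 3)) β * G :=
    mul_le_mul_of_nonneg_left hG (DD_nonneg hα1 hβ)
  have h3 : Ca * a * (β * δ + ‖(y' + τ * I : ℂ) - y‖) ≤ Ca * (c8 / 2) * (2 * A + 4) := by
    calc Ca * a * (β * δ + ‖(y' + τ * I : ℂ) - y‖)
        ≤ Ca * a * (1 * δ + (2 * A + 3) * δ) := by gcongr
      _ = Ca * (a * δ) * (2 * A + 4) := by ring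
      _ = _ := by rw [haδ]
  linarith

/-- The bound on the whole slice, from a good point. -/
theorem rem_low {P : ℂ → ℂ} {R Ca Cb a δ : ℝ} {g : ℝ → ℝ} (hg : Gro P R Ca a δ g)
    (hsp : Spr P R Cb a) (hCa : 0 ≤ Ca) (hR0 : 0 < R)
    (ha : 0 ≤ a) {A β m y G : ℝ} (hδ : 0 < δ) (hδ1 : δ ≤ 1 / 2) (hA : 0 ≤ A)
    (hβ : 0 < β) (hβ1 : β ≤ 1) (hβδ : β * δ ≤ R / 32) (hm : 0 ≤ m)
    (hset : volume {t : ℝ | |t - y| ≤ β * δ ∧ m < ‖P t‖} ≤ ENNReal.ofReal (β * δ))
    (hc : R / 32 ≤ (2 * A + 3) * δ) (hR : R ≤ 1) (hG : g y ≤ G) (t : ℝ) :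
    ‖P t‖ ≤ m * Real.exp (DD (2 * (2 * A + 3)) β * G + 1 + (Ca + Cb) * a) := by
  have hα1 : 1 ≤ 2 * (2 * A + 3) := by linarith
  have hPa : ∀ t : ℝ, |t - y| ≤ R / 128 →
      ‖P t‖ ≤ m * Real.exp (DD (2 * (2 * A + 3)) β * G + 1 + Ca * a) := by
    intro t ht
    have hn : ‖(t : ℂ) - y‖ = |t - y| := by
      rw [← Complex.ofReal_sub, Complex.norm_real, Real.norm_eq_abs]
    have h1 := hg.rem (2 * (2 * A + 3)) β y m t hα1 hβ hβ1 hβδ hm hset
      (by rw [hn]; linarith) (by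
        refine (norm_exp_sub t y).trans ?_
        nlinarith)
    refine h1.trans (mul_le_mul_of_nonneg_left (Real.exp_le_exp.2 ?_) hm)
    have h2 : DD (2 * (2 * A + 3)) β * g y ≤ DD (2 * (2 * A + 3)) β * G :=
      mul_le_mul_of_nonneg_left hG (DD_nonneg hα1 hβ)
    have h3 : Ca * a * (β * δ + ‖(t : ℂ) - y‖) ≤ Ca * a * 1 := by
      rw [hn]
      refine mul_le_mul_of_nonneg_left ?_ (by positivity)
      linarith
    linarith
  have h1 := hsp y _ (by positivity) hPa t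
  refine h1.trans ?_
  rw [mul_assoc, ← Real.exp_add]
  refine mul_le_mul_of_nonneg_left (Real.exp_le_exp.2 ?_) hm
  linarith

theorem le_exp_self (t : ℝ) : t ≤ Real.exp t := by linarith [Real.add_one_le_exp t]

/-- The bookkeeping of the high case. -/
theorem book_high {S w G e1 e2 E : ℝ} (hS : 0 ≤ S) (hE : 2 * w + (e1 + e2) ≤ E) {r : ℝ}
    (m c : ℝ) (hm : m * c = w) (h : r ≤ 2 * ((m * S * Real.exp (G + e1)) +
      (m * S * Real.exp (G + e1)) * (c - 1)) * Real.exp e2) : r ≤ S * Real.exp (E + G) := by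
  refine h.trans ?_
  have e3 : 2 * ((m * S * Real.exp (G + e1)) + (m * S * Real.exp (G + e1)) * (c - 1)) *
      Real.exp e2 = S * ((2 * w) * Real.exp (G + e1 + e2)) := by
    rw [Real.exp_add (G + e1), ← hm]
    ring
  rw [e3]
  refine mul_le_mul_of_nonneg_left ?_ hS
  calc (2 * w) * Real.exp (G + e1 + e2) ≤ Real.exp (2 * w) * Real.exp (G + e1 + e2) :=
        mul_le_mul_of_nonneg_right (le_exp_self _) (Real.exp_pos _).le
    _ = Real.exp (2 * w + (G + e1 + e2)) := by rw [← Real.exp_add]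
    _ ≤ Real.exp (E + G) := Real.exp_le_exp.2 (by linarith)

/-- The bookkeeping of the low case. -/
theorem book_low {S w G e1 e2 E : ℝ} (hS : 0 ≤ S) (hE : w + (e1 + e2) ≤ E) {r : ℝ}
    (m c : ℝ) (hm : m * c = w) (h : r ≤ c * (m * S * Real.exp (G + e1)) * Real.exp e2) :
    r ≤ S * Real.exp (E + G) := by
  refine h.trans ?_
  have e3 : c * (m * S * Real.exp (G + e1)) * Real.exp e2 =
      S * (w * Real.exp (G + e1 + e2)) := by
    rw [Real.exp_add (G + e1), ← hm]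
    ring
  rw [e3]
  refine mul_le_mul_of_nonneg_left ?_ hS
  calc w * Real.exp (G + e1 + e2) ≤ Real.exp w * Real.exp (G + e1 + e2) :=
        mul_le_mul_of_nonneg_right (le_exp_self _) (Real.exp_pos _).le
    _ = Real.exp (w + (G + e1 + e2)) := by rw [← Real.exp_add]
    _ ≤ Real.exp (E + G) := Real.exp_le_exp.2 (by linarith)

/-- The local estimate at one point of a good slice. -/
theorem loc_point {q φ φx φxx φy φyy : ℝ → ℝ → ℝ} (hsol : Sol2 q φ φx φxx φy φyy)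
    {f : ℤ → ℝ → ℂ} {L σ c1 cQ K B : ℝ} (H : Ctx φ φx f L σ c1 cQ K B)
    {Ca Cb C1 S β δ b A x0 y0 x y x' y' c8 Ks : ℝ} {gp gm : ℝ → ℝ}
    (hCa : 0 ≤ Ca) (hCb : 0 ≤ Cb) (hC1 : 0 < C1) (hS : 0 < S) (hβ : 0 < β) (hβ1 : β ≤ σ / 32)
    (hδ0 : 0 < δ) (hδ2 : δ ≤ 1 / 2) (hδK : δ * K = 1 / 2) (hb : b = 4 * β * δ) (hA : 0 ≤ A)
    (hc8 : 0 ≤ c8) (hKs : Ks = 32 * (2 * A + 3) / σ)
    (hgp : Gro (PP φ φx b 1 x) (σ / 2) Ca (c8 * K) δ gp)
    (hgm : Gro (PP φ φx b (-1) x) (σ / 2) Ca (c8 * K) δ gm)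
    (hsp : Spr (PP φ φx b 1 x) (σ / 2) Cb (c8 * K))
    (hx : x ∈ XX φ φx b x0 y0 (2 * C1 * b * S ^ 2)) (hy : |y - y0| ≤ β * δ)
    (hx' : |x' - x0| ≤ A * δ) (hy' : |y' - y0| ≤ A * δ) :
    |φ x' y'| ≤ S * Real.exp ((2 * (Real.sqrt (8 * C1) * (1 + (A + 2) / (4 * β))) +
      (1 + Ca * (c8 / 2) * (2 * A + 4) + Real.sqrt (2 * cQ) * (A + 2) / 2)) +
      (Real.sqrt (8 * C1) * (1 + Ks / (2 * β)) + (1 + (Ca + Cb) * (c8 * Ks) +
        cc7 L σ c1 cQ * Ks)) + DD (2 * (2 * A + 3)) β * (gp y + gm y)) := by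
  have hσ := H.hσ
  have hσ1 := H.hσ1
  have hK1 := H.hK
  have hcQ := H.hcQ
  have hc7 := cc7_pos H
  have hK0 : 0 < K := by linarith
  have hβ1' : β ≤ 1 := by linarith
  have hKs0 : 0 < Ks := by
    rw [hKs]
    positivity
  have hm0 : 0 < Real.sqrt (8 * C1) * S := by positivity
  have haδ : (c8 * K) * δ = c8 / 2 := by
    rw [mul_assoc, mul_comm K, hδK]
    ring
  have hset := fun s hs => good_points hsol H hC1 hS hβ hδ0 hb hx hy s hs
  have hgp0 := hgp.nonneg y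
  have hgm0 := hgm.nonneg y
  have hxx : |x' - x| ≤ (A + 2) * δ := by
    have h1 : x' - x = (x' - x0) - (x - x0) := by ring
    have h2 : |x - x0| ≤ b / 2 := abs_le.2 ⟨by linarith [hx.1.1], by linarith [hx.1.2]⟩
    rw [h1]
    refine (abs_sub _ _).trans ?_
    have : b / 2 ≤ 2 * δ := by
      rw [hb]
      nlinarith
    linarith
  have hyy : |y' - y| ≤ (A + 1) * δ := by
    have h1 : y' - y = (y' - y0) - (y - y0) := by ring
    rw [h1]
    refine (abs_sub _ _).trans ?_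
    have : β * δ ≤ δ := by nlinarith
    linarith
  have hβδ : β * δ ≤ σ / 2 / 32 := by nlinarith
  have hEH : 0 ≤ 2 * (Real.sqrt (8 * C1) * (1 + (A + 2) / (4 * β))) +
      (1 + Ca * (c8 / 2) * (2 * A + 4) + Real.sqrt (2 * cQ) * (A + 2) / 2) := by positivity
  have hEL : 0 ≤ Real.sqrt (8 * C1) * (1 + Ks / (2 * β)) + (1 + (Ca + Cb) * (c8 * Ks) +
        cc7 L σ c1 cQ * Ks) := by positivity
  rcases le_or_gt ((2 * A + 3) * δ) (σ / 2 / 32) with hcase | hcase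
  · -- the high case
    have hPP : ∀ s : ℝ, s ^ 2 = 1 → ∀ τ : ℝ, |τ| ≤ (A + 2) * δ →
        ‖PP φ φx b s x (y' + τ * I)‖ ≤ Real.sqrt (8 * C1) * S *
          Real.exp (DD (2 * (2 * A + 3)) β * (gp y + gm y) +
            (1 + Ca * (c8 / 2) * (2 * A + 4))) := by
      intro s hs τ hτ
      rw [← add_assoc]
      have hs' : (s - 1) * (s + 1) = 0 := by linear_combination hs
      rcases mul_eq_zero.1 hs' with h1 | h1
      · rw [show s = 1 by linarith]
        exact rem_high hgp hCa (by positivity) haδ hδ0 hA hβ hβ1' hβδ hm0.le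
          (hset 1 (by norm_num)) hyy hτ hcase (by linarith) (by linarith)
      · rw [show s = -1 by linarith]
        exact rem_high hgm hCa (by positivity) haδ hδ0 hA hβ hβ1' hβδ hm0.le
          (hset (-1) (by norm_num)) hyy hτ hcase (by linarith) (by linarith)
    have hRσ : (A + 2) * δ ≤ σ / 2 := by nlinarith
    have h1 := high_case H hβ hA hδ0 hδK hb hRσ hPP hxx
    refine book_high (w := Real.sqrt (8 * C1) * (1 + (A + 2) / (4 * β)))
      (e1 := 1 + Ca * (c8 / 2) * (2 * A + 4)) (e2 := Real.sqrt (2 * cQ) * (A + 2) / 2) hS.le ?_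
      (Real.sqrt (8 * C1)) (1 + (A + 2) / (4 * β)) rfl ?_
    · linarith
    · rw [add_sub_cancel_left]
      exact h1
  · -- the low case
    have hKKs : K ≤ Ks := by
      rw [hKs, le_div_iff₀ hσ]
      have h2 : σ * K * δ ≤ 32 * (2 * A + 3) * δ := by
        have : σ * K * δ = σ / 2 := by
          rw [mul_assoc, mul_comm K δ, hδK]
          ring
        rw [this]
        linarith
      have h3 := le_of_mul_le_mul_right h2 hδ0
      linarith
    have hbK : b * K = 2 * β := by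
      rw [hb, mul_assoc, hδK]
      ring
    have hPb : ∀ t : ℝ, ‖PP φ φx b 1 x t‖ ≤ Real.sqrt (8 * C1) * S *
        Real.exp (DD (2 * (2 * A + 3)) β * (gp y + gm y) + (1 + (Ca + Cb) * (c8 * Ks))) := by
      intro t
      have h1 := rem_low hgp hsp hCa (by positivity) (by positivity) hδ0 hδ2 hA hβ hβ1' hβδ hm0.le
        (hset 1 (by norm_num)) hcase.le (by linarith) (show gp y ≤ gp y + gm y by linarith) t
      refine h1.trans (mul_le_mul_of_nonneg_left (Real.exp_le_exp.2 ?_) hm0.le)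
      have h2 : (Ca + Cb) * (c8 * K) ≤ (Ca + Cb) * (c8 * Ks) := by gcongr
      linarith
    have h1 := low_case H hβ hbK hKKs (by positivity) hPb x' y'
    refine book_low (w := Real.sqrt (8 * C1) * (1 + Ks / (2 * β)))
      (e1 := 1 + (Ca + Cb) * (c8 * Ks)) (e2 := cc7 L σ c1 cQ * Ks) hS.le ?_
      (Real.sqrt (8 * C1)) (1 + Ks / (2 * β)) rfl h1
    linarith

end Pool.Agent.Y291.PA
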