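import Pool.Agent.Y291.PA.Grow

/-!
# The growth function of a solution
-/

set_option linter.unusedSectionVars false
set_option linter.unusedVariables false

namespace Pool.Agent.Y291.PA

open MeasureTheory Real Complex Pool.Agent.Y291.DB

open scoped ComplexConjugate Topology

/-- Two growth functions. -/
theorem two_weak {P P' : ℂ → ℂ} {R Ca a δ : ℝ} {g g' : ℝ → ℝ} (hg : Gro P R Ca a δ g)
    (hg' : Gro P' R Ca a δ g') (hCa : 0 ≤ Ca) {c8 : ℝ} (hc8 : 0 ≤ c8) (haδ : a * δ = c8 / 2)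
    {s : ℝ} (hs : 0 < s) :
    volume {y : ℝ | y ∈ Set.Ioc (-(2 * π)) (4 * π) ∧ s ≤ g y + g' y} ≤
      ENNReal.ofReal (2 * Ca * c8 / s) := by
  have hs2 : 0 < s / 2 := by positivity
  have hsub : {y : ℝ | y ∈ Set.Ioc (-(2 * π)) (4 * π) ∧ s ≤ g y + g' y} ⊆
      {y : ℝ | y ∈ Set.Ioc (-(2 * π)) (4 * π) ∧ s / 2 ≤ g y} ∪
      {y : ℝ | y ∈ Set.Ioc (-(2 * π)) (4 * π) ∧ s / 2 ≤ g' y} := by
    rintro y ⟨h1, h2⟩
    by_cases h3 : s / 2 ≤ g y
    · exact Or.inl ⟨h1, h3⟩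
    · refine Or.inr ⟨h1, ?_⟩
      push Not at h3
      linarith
  have e : Ca * a * δ / (s / 2) = Ca * c8 / s := by
    have : Ca * a * δ = Ca * (c8 / 2) := by rw [mul_assoc, haδ]
    rw [this]
    field_simp
  have h1 := hg.weak (s / 2) hs2
  have h2 := hg'.weak (s / 2) hs2
  rw [e] at h1 h2
  refine (measure_mono hsub).trans ((measure_union_le _ _).trans ((add_le_add h1 h2).trans ?_))
  rw [← ENNReal.ofReal_add (by positivity) (by positivity)]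
  refine ENNReal.ofReal_le_ofReal (le_of_eq ?_)
  ring

/-- The growth function. -/
theorem growth {L σ c1 cQ ρM β A : ℝ} (hL : 0 < L) (hσ : 0 < σ) (hσ1 : σ ≤ 1) (hc1 : 0 ≤ c1)
    (hcQ : 0 < cQ) (hρM : 0 ≤ ρM) (hβ : 0 < β) (hβ1 : β ≤ σ / 32) (hA : 0 ≤ A) :
    ∃ E D W G : ℝ, 0 ≤ E ∧ 0 < D ∧ 0 ≤ W ∧ 0 ≤ G ∧ ∀ (lam B : ℝ) (q φ φx φxx φy φyy : ℝ → ℝ → ℝ)
      (f : ℤ → ℝ → ℂ), 0 < lam → Ctx φ φx f L σ c1 cQ (Real.sqrt (1 + lam)) B →
      Sol2 q φ φx φxx φy φyy → (∀ x y, q x y ≤ lam * ρM) →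
      ∃ Gr : ℝ → ℝ → ℝ, Growth (fun p => φ p.1 p.2) lam β A E D W G Gr := by
  obtain ⟨Ca, Cb, hCa1, hCb0, hAR⟩ := AR_struct hσ hσ1
  have hCa0 : 0 ≤ Ca := by linarith
  have hSg := Sg_ge (θ := σ / 2) (by positivity)
  have hSg8 := Sg_ge (θ := σ / 8) (by positivity)
  have hc70 : 0 ≤ cc7 L σ c1 cQ := by
    unfold cc7 cc5 cc4
    positivity
  obtain ⟨c8, hc8⟩ : ∃ c8, c8 = cc8 L σ c1 cQ β := ⟨_, rfl⟩
  have hc80 : 2 ≤ c8 := by
    have : 0 ≤ Sg (σ / 2) / β := by positivity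
    rw [hc8]
    unfold cc8
    linarith
  obtain ⟨Ks, hKs⟩ : ∃ Ks, Ks = 32 * (2 * A + 3) / σ := ⟨_, rfl⟩
  have hKs0 : 0 < Ks := by
    rw [hKs]
    positivity
  have hβ1' : β ≤ 1 := by linarith
  refine ⟨(2 * (Real.sqrt (8 * (129 + 64 * ρM)) * (1 + (A + 2) / (4 * β))) +
      (1 + Ca * (c8 / 2) * (2 * A + 4) + Real.sqrt (2 * cQ) * (A + 2) / 2)) +
      (Real.sqrt (8 * (129 + 64 * ρM)) * (1 + Ks / (2 * β)) + (1 + (Ca + Cb) * (c8 * Ks) +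
        cc7 L σ c1 cQ * Ks)), DD (2 * (2 * A + 3)) β, 2 * Ca * c8, Ca * c8, by positivity, ?_,
      by positivity, by positivity, ?_⟩
  · unfold DD
    positivity
  intro lam B q φ φx φxx φy φyy f hlam H hsol hq
  obtain ⟨K, hK⟩ : ∃ K, K = Real.sqrt (1 + lam) := ⟨_, rfl⟩
  obtain ⟨δ, hδ⟩ : ∃ δ, δ = dl lam := ⟨_, rfl⟩
  rw [← hK] at H
  have hK1 := H.hK
  have hK0 : 0 < K := by linarith
  have hδ0 : 0 < δ := by
    rw [hδ]
    exact dl_pos hlam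
  have hδ2 : δ ≤ 1 / 2 := by
    rw [hδ]
    exact dl_le hlam
  have hδK : δ * K = 1 / 2 := by
    rw [hδ, dl, ← hK]
    field_simp
  obtain ⟨b, hb⟩ : ∃ b, b = 4 * β * δ := ⟨_, rfl⟩
  have hb0 : 0 < b := by
    rw [hb]
    positivity
  have hbK : b * K = 2 * β := by
    rw [hb, mul_assoc, hδK]
    ring
  have hb1 : b ≤ 1 := by
    rw [hb]
    nlinarith
  have ha1 : 1 ≤ c8 * K := by nlinarith
  have haδ : (c8 * K) * δ = c8 / 2 := by
    rw [mul_assoc, mul_comm K, hδK]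
    ring
  have key : ∀ s : ℝ, s ^ 2 = 1 → ∀ x : ℝ,
      (∃ g, Gro (PP φ φx b s x) (σ / 2) Ca (c8 * K) δ g) ∧
      Spr (PP φ φx b s x) (σ / 2) Cb (c8 * K) := by
    intro s hs x
    rw [hc8] at ha1 ⊢
    exact hAR φ φx f L c1 cQ K B b β δ s x H hβ hbK hb1 hs hδ0 hδ2 hb0 ha1
  choose gp hgp using fun x => (key 1 (by norm_num) x).1
  choose gm hgm using fun x => (key (-1) (by norm_num) x).1
  refine ⟨fun x y => gp x y + gm x y, ⟨?_, ?_, ?_⟩⟩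
  · intro x0 y0 S hS hSb
    rw [← hδ] at hSb ⊢
    have hQb := energy_const hlam hρM hβ hβ1' (by rw [hδ]; exact dl_sq hlam) hb
    obtain ⟨hX1, hX2⟩ := XX_meas2 hsol hb0 hS (fun x y hx hy => hSb x y (by rw [← hb]; exact hx)
      (by rw [← hb]; exact hy)) hq (by positivity) hQb
    refine ⟨XX φ φx b x0 y0 (2 * (129 + 64 * ρM) * b * S ^ 2), hX1, ?_, ?_, ?_⟩
    · intro x hx
      have h1 := hx.1
      have h2 : b / 2 = 2 * β * δ := by
        rw [hb]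
        ring
      rw [h2] at h1
      exact h1
    · refine le_trans (le_of_eq ?_) hX2
      congr 1
      rw [hb]
      ring
    · intro x hx y hy x' y' hx' hy'
      exact loc_point hsol H hCa0 hCb0.le (by positivity) hS hβ hβ1 hδ0 hδ2 hδK hb hA
        (by linarith) hKs (hgp x) (hgm x) (key 1 (by norm_num) x).2 hx hy hx' hy'
  · intro x s hs
    exact two_weak (hgp x) (hgm x) hCa0 (by linarith) haδ hs
  · intro x y
    have h1 : Ca * c8 / dl lam = 2 * (Ca * (c8 * K)) := by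
      rw [← hδ, div_eq_iff hδ0.ne']
      have : 2 * (Ca * (c8 * K)) * δ = 2 * Ca * c8 * (δ * K) := by ring
      rw [this, hδK]
      ring
    rw [h1]
    linarith [(hgp x).upper y, (hgm x).upper y]

end Pool.Agent.Y291.PA
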