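import Pool.Agent.Y291.PA.Blaschke
import Pool.Agent.Y291.DB.Slice

/-!
# Local factorization of analytic functions near a real point
-/

set_option linter.unusedSectionVars false
set_option linter.unusedVariables false

namespace Pool.Agent.Y291.PA

open Complex Real Metric MeasureTheory Pool.Agent.Y291.DB

open scoped ComplexConjugate Topology

theorem exp_sub_exp {z c : ℂ} (h : ‖z - c‖ ≤ 1) :
    ‖Complex.exp (z * I) - Complex.exp (c * I)‖ ≤ Real.exp (-c.im) * (2 * ‖z - c‖) := by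
  have h1 : Complex.exp (z * I) - Complex.exp (c * I) =
      Complex.exp (c * I) * (Complex.exp ((z - c) * I) - 1) := by
    rw [mul_sub, mul_one, ← Complex.exp_add]
    congr 2
    ring
  rw [h1, norm_mul, Complex.norm_exp]
  have h2 : (c * I).re = -c.im := by simp
  rw [h2]
  have h3 : ‖(z - c) * I‖ = ‖z - c‖ := by rw [norm_mul, Complex.norm_I, mul_one]
  have h4 := Complex.norm_exp_sub_one_le (x := (z - c) * I) (by rw [h3]; exact h)
  rw [h3] at h4
  gcongr

theorem exp_small {x : ℝ} (h : x ≤ 1 / 2) : Real.exp x ≤ 2 := by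
  have h1 : x ≤ Real.log 2 := by linarith [Real.log_two_gt_d9]
  calc Real.exp x ≤ Real.exp (Real.log 2) := Real.exp_le_exp.2 h1
    _ = 2 := Real.exp_log two_pos

/-- The local factorization. -/
theorem local_factor {P : ℂ → ℂ} {c R M a : ℝ} (hR0 : 0 < R) (hR1 : R ≤ 1) (hM : 0 < M)
    (ha : 1 ≤ a) (hP : DifferentiableOn ℂ P (ball (c : ℂ) R))
    (hb : ∀ z ∈ ball (c : ℂ) R, ‖P z‖ ≤ M) (h0 : M * Real.exp (-a) ≤ ‖P c‖) :
    ∃ (n : ℕ) (r : Fin n → ℂ) (G : ℂ → ℂ), (n : ℝ) ≤ 4 * a ∧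
      (∀ z : ℂ, ‖z - c‖ ≤ R / 16 → P z = (∏ j, (Complex.exp (z * I) - r j)) * G z ∧ G z ≠ 0) ∧
      ∀ z z' : ℂ, ‖z - c‖ ≤ R / 16 → ‖z' - c‖ ≤ R / 16 →
        ‖G z‖ ≤ ‖G z'‖ * Real.exp (416 * a * ‖z - z'‖ / R) := by
  set Ec : ℂ := Complex.exp (c * I) with hEc
  have hEn : ‖Ec‖ = 1 := Complex.norm_exp_ofReal_mul_I c
  have hE0 : Ec ≠ 0 := Complex.exp_ne_zero _
  set u : ℂ → ℂ := fun w => (R / 2) * w * Ec⁻¹ with hu
  have hun : ∀ w, ‖u w‖ = R / 2 * ‖w‖ := by
    intro w
    rw [hu]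
    simp only [norm_mul, norm_inv, hEn, inv_one, mul_one]
    rw [norm_div, Complex.norm_real, Real.norm_of_nonneg hR0.le]
    norm_num
  have hub : ∀ w ∈ ball (0 : ℂ) 1, ‖u w‖ < 1 / 2 := by
    intro w hw
    rw [mem_ball_zero_iff] at hw
    rw [hun]
    nlinarith
  set Z : ℂ → ℂ := fun w => c - I * Complex.log (1 + u w) with hZ
  have hZb : ∀ w ∈ ball (0 : ℂ) 1, Z w ∈ ball (c : ℂ) R := by
    intro w hw
    rw [mem_ball, dist_eq_norm, hZ]
    simp only [sub_sub_cancel_left, norm_neg, norm_mul, Complex.norm_I, one_mul]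
    have h1 := Complex.norm_log_one_add_half_le_self (hub w hw).le
    have h2 := hun w
    rw [mem_ball_zero_iff] at hw
    nlinarith [norm_nonneg w]
  have hZd : DifferentiableOn ℂ Z (ball 0 1) := by
    intro w hw
    have h1 : (1 + u w) ∈ Complex.slitPlane := by
      refine Complex.mem_slitPlane_of_norm_lt_one ?_
      linarith [hub w hw]
    have h2 : DifferentiableAt ℂ (fun w => 1 + u w) w := by
      rw [hu]
      fun_prop
    exact ((differentiableAt_const _).sub
      ((differentiableAt_const _).mul (h2.clog h1))).differentiableWithinAt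
  set f : ℂ → ℂ := fun w => P (Z w) with hf
  have hfd : DifferentiableOn ℂ f (ball 0 1) := hP.comp hZd fun w hw => hZb w hw
  have hfb : ∀ w ∈ ball (0 : ℂ) 1, ‖f w‖ ≤ M := fun w hw => hb _ (hZb w hw)
  have hf0 : f 0 = P c := by
    rw [hf, hZ, hu]
    simp
  set n0 : ℕ := ⌈2 * a⌉₊ with hn0
  have hn01 : 2 * a ≤ n0 := Nat.le_ceil _
  have hn02 : (n0 : ℝ) ≤ 4 * a := by
    have := (Nat.ceil_lt_add_one (show 0 ≤ 2 * a by linarith)).le
    linarith
  have hlt : M * (1 / 2 : ℝ) ^ n0 < ‖f 0‖ := by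
    rw [hf0]
    refine lt_of_lt_of_le ?_ h0
    refine mul_lt_mul_of_pos_left ?_ hM
    have h1 : (1 / 2 : ℝ) ^ n0 = Real.exp (-(n0 * Real.log 2)) := by
      rw [Real.exp_neg, mul_comm, Real.exp_mul, Real.exp_log two_pos, Real.rpow_natCast,
        one_div, inv_pow]
    rw [h1]
    refine Real.exp_lt_exp.2 ?_
    have := Real.log_two_gt_d9
    nlinarith
  obtain ⟨n, ζ, g, hn, hζ, hgd, hgb, hgne, hg0, hfact⟩ :=
    factor hM (by norm_num) (by norm_num) n0 f hfd hfb hlt
  set W : ℂ → ℂ := fun z => (Complex.exp (z * I) - Ec) / (R / 2) with hW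
  have hRC : ((R : ℂ) / 2) ≠ 0 := by
    have : (R : ℂ) ≠ 0 := by exact_mod_cast hR0.ne'
    exact div_ne_zero this two_ne_zero
  have hRn : ‖((R : ℂ) / 2)‖ = R / 2 := by
    rw [norm_div, Complex.norm_real, Real.norm_of_nonneg hR0.le]
    norm_num
  have hWb : ∀ z : ℂ, ‖z - c‖ ≤ R / 16 → ‖W z‖ ≤ 1 / 4 := by
    intro z hz
    rw [hW]
    simp only
    rw [norm_div, hRn, div_le_iff₀ (by positivity)]
    have h1 := exp_sub_exp (z := z) (c := c) (by linarith)
    rw [Complex.ofReal_im, neg_zero, Real.exp_zero, one_mul] at h1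
    linarith
  have hPW : ∀ z : ℂ, ‖z - c‖ ≤ R / 16 → P z = f (W z) := by
    intro z hz
    have h1 : 1 + u (W z) = Complex.exp ((z - c) * I) := by
      rw [hu, hW]
      simp only
      rw [mul_div_cancel₀ _ hRC, sub_mul, mul_inv_cancel₀ hE0, hEc, ← Complex.exp_neg,
        ← Complex.exp_add]
      rw [show z * I + -(c * I) = (z - c) * I by ring]
      ring
    have h2 : ((z - c) * I).im = (z - c).re := by simp
    have h3 : |(z - c).re| ≤ 1 := (Complex.abs_re_le_norm _).trans (by linarith)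
    have h4 := Real.pi_gt_three
    have h5 : Complex.log (1 + u (W z)) = (z - c) * I := by
      rw [h1]
      refine Complex.log_exp ?_ ?_
      · rw [h2]
        linarith [(abs_le.1 h3).1]
      · rw [h2]
        linarith [(abs_le.1 h3).2]
    rw [hf, hZ]
    simp only
    rw [h5]
    congr 1
    have : I * ((z - c) * I) = (I * I) * (z - c) := by ring
    rw [this, Complex.I_mul_I]
    ring
  set G : ℂ → ℂ := fun z => (∏ j, 1 / ((R / 2) * (1 - conj (ζ j) * W z))) * g (W z) with hG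
  have hd78 : ∀ (j : Fin n) (w : ℂ), ‖w‖ ≤ 1 / 4 → 7 / 8 ≤ ‖1 - conj (ζ j) * w‖ := by
    intro j w hw
    have h1 := norm_sub_norm_le (1 : ℂ) (conj (ζ j) * w)
    rw [norm_one, norm_mul, RCLike.norm_conj] at h1
    have h2 := hζ j
    nlinarith [norm_nonneg (ζ j), norm_nonneg w]
  refine ⟨n, fun j => Ec + (R / 2) * ζ j, G, ?_, ?_, ?_⟩
  · exact (by exact_mod_cast hn : (n : ℝ) ≤ n0).trans hn02
  · intro z hz
    have hwb := hWb z hz
    have hwball : W z ∈ ball (0 : ℂ) 1 := mem_ball_zero_iff.2 (by linarith)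
    constructor
    · rw [hPW z hz, hfact _ hwball, hG]
      simp only
      rw [← mul_assoc, ← Finset.prod_mul_distrib]
      congr 1
      refine Finset.prod_congr rfl fun j _ => ?_
      have h1 : 1 - conj (ζ j) * W z ≠ 0 := norm_pos_iff.1 (by linarith [hd78 j _ hwb])
      have h2 : Complex.exp (z * I) - (Ec + R / 2 * ζ j) = (R / 2) * (W z - ζ j) := by
        rw [hW]
        simp only
        rw [mul_sub, mul_div_cancel₀ _ hRC]
        ring
      rw [h2]
      generalize 1 - (starRingEnd ℂ) (ζ j) * W z = d at h1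
      have hR' : (R : ℂ) ≠ 0 := by exact_mod_cast hR0.ne'
      field_simp
    · rw [hG]
      refine mul_ne_zero ?_ (hgne _ (by linarith))
      refine Finset.prod_ne_zero_iff.2 fun j _ => ?_
      have h1 : 1 - conj (ζ j) * W z ≠ 0 := norm_pos_iff.1 (by linarith [hd78 j _ hwb])
      exact one_div_ne_zero (mul_ne_zero hRC h1)
  · intro z z' hz hz'
    have hwb := hWb z hz
    have hwb' := hWb z' hz'
    set w := W z with hw
    set w' := W z' with hw'
    have hzz : ‖z - z'‖ ≤ 1 := by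
      have : z - z' = (z - c) - (z' - c) := by ring
      rw [this]
      refine (norm_sub_le _ _).trans ?_
      linarith
    have hww : ‖w - w'‖ ≤ 8 * ‖z - z'‖ / R := by
      have h1 : w - w' = (Complex.exp (z * I) - Complex.exp (z' * I)) / (R / 2) := by
        rw [hw, hw', hW]
        simp only
        field_simp
        ring
      rw [h1, norm_div, hRn, div_le_div_iff₀ (by positivity) hR0]
      have h2 := exp_sub_exp hzz
      have h3 : Real.exp (-z'.im) ≤ 2 := by
        refine exp_small ?_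
        have h4 := Complex.abs_im_le_norm (z' - c)
        rw [Complex.sub_im, Complex.ofReal_im, sub_zero] at h4
        have h5 := neg_abs_le z'.im
        linarith
      have h4 : Real.exp (-z'.im) * (2 * ‖z - z'‖) ≤ 2 * (2 * ‖z - z'‖) := by gcongr
      nlinarith [h2.trans h4]
    have hgl := zero_free (M := M) (a := a) (by linarith) hM
      (hgd.mono (ball_subset_ball (by norm_num)))
      (fun v hv => hgne v (mem_ball_zero_iff.1 hv).le)
      (fun v hv => hgb v (ball_subset_ball (by norm_num) hv))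
      ((hf0 ▸ h0).trans hg0) hwb hwb'
    have hone : ∀ j : Fin n, ‖1 / (((R : ℂ) / 2) * (1 - conj (ζ j) * w))‖ ≤
        ‖1 / (((R : ℂ) / 2) * (1 - conj (ζ j) * w'))‖ * Real.exp ‖w - w'‖ := by
      intro j
      have h1 := hd78 j w hwb
      have h2 := hd78 j w' hwb'
      have h3 : ‖1 - conj (ζ j) * w'‖ ≤ ‖1 - conj (ζ j) * w‖ * Real.exp ‖w - w'‖ := by
        have h4 : 1 - conj (ζ j) * w' = (1 - conj (ζ j) * w) + conj (ζ j) * (w - w') := by ring
        rw [h4]
        refine (norm_add_le _ _).trans ?_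
        rw [norm_mul (conj (ζ j)), RCLike.norm_conj]
        have h5 := Real.add_one_le_exp ‖w - w'‖
        have h6 : ‖ζ j‖ * ‖w - w'‖ ≤ 1 / 2 * ‖w - w'‖ := by
          gcongr
          exact hζ j
        have h7 : 7 / 8 * ‖w - w'‖ ≤ ‖1 - conj (ζ j) * w‖ * ‖w - w'‖ := by gcongr
        have h8 : ‖1 - conj (ζ j) * w‖ * (‖w - w'‖ + 1) ≤
            ‖1 - conj (ζ j) * w‖ * Real.exp ‖w - w'‖ := by gcongr
        have h9 := norm_nonneg (w - w')
        linarith
      rw [norm_div, norm_div, norm_one, norm_mul, norm_mul, hRn, one_div, one_div, mul_inv,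
        mul_inv, mul_assoc]
      have h10 : ‖1 - conj (ζ j) * w‖⁻¹ ≤ ‖1 - conj (ζ j) * w'‖⁻¹ * Real.exp ‖w - w'‖ := by
        rw [inv_mul_eq_div, inv_eq_one_div, div_le_div_iff₀ (by linarith) (by linarith)]
        linarith
      gcongr
    have hprod : ‖∏ j : Fin n, 1 / (((R : ℂ) / 2) * (1 - conj (ζ j) * w))‖ ≤
        ‖∏ j : Fin n, 1 / (((R : ℂ) / 2) * (1 - conj (ζ j) * w'))‖ *
          Real.exp (n * ‖w - w'‖) := by
      rw [norm_prod, norm_prod]
      calc ∏ j : Fin n, ‖1 / (((R : ℂ) / 2) * (1 - conj (ζ j) * w))‖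
          ≤ ∏ j : Fin n, (‖1 / (((R : ℂ) / 2) * (1 - conj (ζ j) * w'))‖ * Real.exp ‖w - w'‖) :=
            Finset.prod_le_prod (fun j _ => norm_nonneg _) fun j _ => hone j
        _ = _ := by
            rw [Finset.prod_mul_distrib, Finset.prod_const, Finset.card_univ, Fintype.card_fin,
              ← Real.exp_nat_mul]
    have hnn : (n : ℝ) ≤ 4 * a := (by exact_mod_cast hn : (n : ℝ) ≤ n0).trans hn02
    rw [hG]
    simp only
    rw [norm_mul, norm_mul]
    calc ‖∏ j : Fin n, 1 / (((R : ℂ) / 2) * (1 - conj (ζ j) * w))‖ * ‖g w‖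
        ≤ (‖∏ j : Fin n, 1 / (((R : ℂ) / 2) * (1 - conj (ζ j) * w'))‖ *
          Real.exp (n * ‖w - w'‖)) * (‖g w'‖ * Real.exp (48 * a * ‖w - w'‖)) := by gcongr
      _ = ‖∏ j : Fin n, 1 / (((R : ℂ) / 2) * (1 - conj (ζ j) * w'))‖ * ‖g w'‖ *
          Real.exp (n * ‖w - w'‖ + 48 * a * ‖w - w'‖) := by
          rw [Real.exp_add]
          ring
      _ ≤ ‖∏ j : Fin n, 1 / (((R : ℂ) / 2) * (1 - conj (ζ j) * w'))‖ * ‖g w'‖ *
          Real.exp (416 * a * ‖z - z'‖ / R) := by
          gcongr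
          have h1 : (n : ℝ) * ‖w - w'‖ + 48 * a * ‖w - w'‖ ≤ 52 * a * ‖w - w'‖ := by
            have := mul_le_mul_of_nonneg_right hnn (norm_nonneg (w - w'))
            linarith
          have h2 : 52 * a * ‖w - w'‖ ≤ 52 * a * (8 * ‖z - z'‖ / R) := by gcongr
          refine (h1.trans h2).trans (le_of_eq ?_)
          ring

end Pool.Agent.Y291.PA
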