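import Pool.Agent.Y291.PA.Ext
import Pool.Agent.Y291.PA.AR

/-!
# The lower bound of the Cauchy data on a slice
-/

set_option linter.unusedSectionVars false
set_option linter.unusedVariables false

namespace Pool.Agent.Y291.PA

open MeasureTheory Real Complex Pool.Agent.Y291.DB

open scoped ComplexConjugate Topology

/-- The properties of a solution that are used below. -/
structure Ctx (φ φx : ℝ → ℝ → ℝ) (f : ℤ → ℝ → ℂ) (L σ c1 cQ K B : ℝ) : Prop where
  hL : 0 < L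
  hσ : 0 < σ
  hσ1 : σ ≤ 1
  hc1 : 0 ≤ c1
  hcQ : 0 < cQ
  hK : 1 ≤ K
  hB : 0 < B
  d1 : ∀ k x, HasDerivAt (um φ k) (um φx k x) x
  d2 : ∀ k x, HasDerivAt (um φx k) ((((k : ℝ) ^ 2 : ℝ) : ℂ) * um φ k x - f k x) x
  b1 : ∀ k x, ‖um φ k x‖ ≤ B * Real.exp (c1 * K) * Real.exp (-(σ * |(k : ℝ)|))
  b2 : ∀ k x, ‖um φx k x‖ ≤ B * Real.exp (c1 * K) * Real.exp (-(σ * |(k : ℝ)|))
  b3 : ∀ k x, ‖f k x‖ ≤ B * Real.exp (c1 * K) * Real.exp (-(σ * |(k : ℝ)|))
  hQ : ∀ x z, |Complex.im z| ≤ σ / 2 →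
    ‖TS (fun k => f k x) z‖ ≤ cQ * K ^ 2 * ‖TS (fun k => um φ k x) z‖
  fle : ∀ k x m, (∀ y, |φ x y| ≤ m) → ‖f k x‖ ≤ cQ * K ^ 2 * m
  r1 : ∀ x y : ℝ, TS (fun k => um φ k x) y = φ x y
  r2 : ∀ x y : ℝ, TS (fun k => um φx k x) y = φx x y
  sup : ∀ x y, |φ x y| ≤ B
  att : ∀ x0, ∃ x ∈ Set.Icc x0 (x0 + L), ∃ y, |φ x y| = B

section ctx

variable {φ φx : ℝ → ℝ → ℝ} {f : ℤ → ℝ → ℂ} {L σ c1 cQ K B : ℝ} (H : Ctx φ φx f L σ c1 cQ K B)

include H

/-- The constant of the propagation. -/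
noncomputable def cc4 (σ cQ : ℝ) : ℝ := Real.sqrt (2 * cQ) + 4 * Sg (σ / 8)

omit H in
theorem le_exp_K {c K : ℝ} (hc : 0 ≤ c) (hK : 1 ≤ K) : c ≤ Real.exp (c * K) := by
  have h1 := Real.add_one_le_exp (c * K)
  nlinarith

/-- The basic step. -/
theorem step_core {D x1 : ℝ} (hD : 0 ≤ D)
    (h1 : ∀ k, ‖um φ k x1‖ ≤ D * Real.exp (-(σ / 4 * |(k : ℝ)|)))
    (h2 : ∀ k, ‖um φx k x1‖ ≤ D * Real.exp (-(σ / 4 * |(k : ℝ)|)))
    {h : ℝ} (hh : |h| ≤ σ / 8) (y : ℝ) : |φ (x1 + h) y| ≤ D * Real.exp (cc4 σ cQ * K) := by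
  have hσ := H.hσ
  have hK := H.hK
  have hK0 : 0 < K := by linarith
  have hS := Sg_ge (θ := σ / 8) (by positivity)
  have hsq : 0 < Real.sqrt (2 * cQ) := Real.sqrt_pos.2 (by linarith [H.hcQ])
  have e1 : σ / 4 - σ / 8 = σ / 8 := by ring
  have him : ∀ s : ℝ, ((y : ℂ) + s * I).im = s := by
    intro s
    simp
  have h3 := propU (u := fun k => um φ k) (u' := fun k => um φx k) (f := f)
    (C := B * Real.exp (c1 * K)) (σ := σ) (Q := cQ * K ^ 2) (a := Real.sqrt (2 * cQ) * K)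
    (by have := H.hB; positivity) hσ H.d1 H.d2 H.b1 H.b2 H.b3
    (by have := H.hcQ; positivity) (by positivity)
    (by
      rw [mul_pow, Real.sq_sqrt (by linarith [H.hcQ])]
      exact le_of_eq (by ring)) H.hQ (R := σ / 8)
    (M0 := D * Sg (σ / 8)) (M1 := D * Sg (σ / 8)) (x0 := x1) (y' := y) (by positivity)
    (by linarith) (fun s hs => by
      have := TS_bound h1 hD (σ' := σ / 8) (by linarith) (z := (y : ℂ) + s * I)
        (by rw [him]; exact hs)
      rwa [e1] at this) (fun s hs => by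
      have := TS_bound h2 hD (σ' := σ / 8) (by linarith) (z := (y : ℂ) + s * I)
        (by rw [him]; exact hs)
      rwa [e1] at this) hh
  rw [H.r1, Complex.norm_real, Real.norm_eq_abs] at h3
  refine h3.trans ?_
  have e2 : 2 * (D * Sg (σ / 8) + σ / 8 * (D * Sg (σ / 8))) ≤ D * (4 * Sg (σ / 8)) := by
    have : 0 ≤ D * Sg (σ / 8) := by positivity
    nlinarith [H.hσ1]
  have e3 : 4 * Sg (σ / 8) ≤ Real.exp (4 * Sg (σ / 8) * K) := le_exp_K (by positivity) hK
  have e4 : Real.sqrt (2 * cQ) * K * (σ / 8) ≤ Real.sqrt (2 * cQ) * K := by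
    have : 0 ≤ Real.sqrt (2 * cQ) * K := by positivity
    nlinarith [H.hσ1]
  calc 2 * (D * Sg (σ / 8) + σ / 8 * (D * Sg (σ / 8))) * Real.exp (Real.sqrt (2 * cQ) * K * (σ / 8))
      ≤ (D * (4 * Sg (σ / 8))) * Real.exp (Real.sqrt (2 * cQ) * K) := by gcongr
    _ ≤ (D * Real.exp (4 * Sg (σ / 8) * K)) * Real.exp (Real.sqrt (2 * cQ) * K) := by gcongr
    _ = D * Real.exp (cc4 σ cQ * K) := by
        rw [mul_assoc, ← Real.exp_add]
        congr 2
        unfold cc4
        ring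

/-- The constant of the steps. -/
noncomputable def cc5 (σ c1 cQ : ℝ) : ℝ := cc4 σ cQ + c1 / 2 + (1 + 32 / σ + cQ) * (4 / σ) + 2

omit H in
theorem sqrt_min {t a b : ℝ} (ht : 0 ≤ t) (h1 : t ≤ a) (h2 : t ≤ b) : t ≤ Real.sqrt (a * b) := by
  refine Real.le_sqrt_of_sq_le ?_
  rw [sq]
  exact mul_le_mul h1 h2 ht (ht.trans h1)

/-- The interpolation. -/
theorem interp {t w m k : ℝ} (ht : 0 ≤ t) (hw : 1 ≤ w) (hm : 0 ≤ m)
    (h1 : t ≤ w ^ 2 * m) (h2 : t ≤ B * Real.exp (c1 * K) * Real.exp (-(σ * |k|))) :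
    t ≤ w * Real.sqrt (m * B) * Real.exp (c1 / 2 * K) * Real.exp (-(σ / 2 * |k|)) := by
  have hB := H.hB
  refine (sqrt_min ht h1 h2).trans (le_of_eq ?_)
  have e1 : w ^ 2 * m * (B * Real.exp (c1 * K) * Real.exp (-(σ * |k|))) =
      (w * Real.exp (c1 / 2 * K) * Real.exp (-(σ / 2 * |k|))) ^ 2 * (m * B) := by
    have a1 : Real.exp (c1 * K) = Real.exp (c1 / 2 * K) ^ 2 := by
      rw [← Real.exp_nat_mul]
      congr 1
      push_cast
      ring
    have a2 : Real.exp (-(σ * |k|)) = Real.exp (-(σ / 2 * |k|)) ^ 2 := by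
      rw [← Real.exp_nat_mul]
      congr 1
      push_cast
      ring
    rw [a1, a2]
    ring
  rw [e1, Real.sqrt_mul (by positivity), Real.sqrt_sq (by positivity)]
  ring

/-- Step A: from small Cauchy data. -/
theorem stepA {m x0 : ℝ} (hm : 0 ≤ m) (h1 : ∀ y, |φ x0 y| ≤ m) (h2 : ∀ y, |φx x0 y| ≤ m)
    {h : ℝ} (hh : |h| ≤ σ / 8) (y : ℝ) :
    |φ (x0 + h) y| ≤ Real.exp (cc5 σ c1 cQ * K) * Real.sqrt (m * B) := by
  have hσ := H.hσ
  have hK := H.hK
  have hc1 := H.hc1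
  have hcQ := H.hcQ
  have hco : ∀ (c : ℤ → ℂ), (∀ k, ‖c k‖ ≤ m) →
      (∀ k, ‖c k‖ ≤ B * Real.exp (c1 * K) * Real.exp (-(σ * |(k : ℝ)|))) →
      ∀ k : ℤ, ‖c k‖ ≤ (Real.sqrt (m * B) * Real.exp (c1 / 2 * K)) *
        Real.exp (-(σ / 4 * |(k : ℝ)|)) := by
    intro c hc hc' k
    have h3 := interp H (norm_nonneg (c k)) le_rfl hm (by simpa using hc k) (hc' k)
    refine h3.trans ?_
    rw [one_mul]
    refine mul_le_mul_of_nonneg_left (Real.exp_le_exp.2 ?_) (by positivity)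
    nlinarith [abs_nonneg (k : ℝ)]
  have h3 := step_core H (D := Real.sqrt (m * B) * Real.exp (c1 / 2 * K)) (x1 := x0)
    (by positivity) (hco _ (fun k => um_le h1 k) fun k => H.b1 k x0)
    (hco _ (fun k => um_le h2 k) fun k => H.b2 k x0) hh y
  refine h3.trans ?_
  have e1 : Real.sqrt (m * B) * Real.exp (c1 / 2 * K) * Real.exp (cc4 σ cQ * K) =
      Real.exp ((cc4 σ cQ + c1 / 2) * K) * Real.sqrt (m * B) := by
    rw [add_mul, Real.exp_add]
    ring
  rw [e1]
  refine mul_le_mul_of_nonneg_right (Real.exp_le_exp.2 ?_) (Real.sqrt_nonneg _)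
  refine mul_le_mul_of_nonneg_right ?_ (by linarith)
  unfold cc5
  have : 0 ≤ (1 + 32 / σ + cQ) * (4 / σ) := by positivity
  linarith

/-- Step B: from a small function. -/
theorem stepB {m x1 : ℝ} (hm : 0 ≤ m) (h1 : ∀ x ∈ Set.Icc x1 (x1 + σ / 16), ∀ y, |φ x y| ≤ m)
    {h : ℝ} (hh : |h| ≤ σ / 8) (y : ℝ) :
    |φ (x1 + h) y| ≤ Real.exp (cc5 σ c1 cQ * K) * Real.sqrt (m * B) := by
  have hσ := H.hσ
  have hσ1 := H.hσ1
  have hK := H.hK
  have hc1 := H.hc1
  have hcQ := H.hcQ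
  have hx1 : x1 ∈ Set.Icc x1 (x1 + σ / 16) := ⟨le_rfl, by linarith⟩
  set w0 : ℝ := 1 + 32 / σ + cQ * K ^ 2 with hw0
  have hw01 : 1 ≤ w0 := by
    have : 0 ≤ 32 / σ + cQ * K ^ 2 := by positivity
    linarith
  have hder : ∀ k : ℤ, ‖um φx k x1‖ ≤ (w0 * (1 + |(k : ℝ)|)) ^ 2 * m := by
    intro k
    have h3 := deriv_bound (H.d1 k) (H.d2 k) (x := x1) (r := σ / 16) (a := m)
      (b := ((k : ℝ) ^ 2 + cQ * K ^ 2) * m) (by positivity)
      (fun t ht => um_le (h1 t ht) k) (fun t ht => by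
        refine (norm_sub_le _ _).trans ?_
        rw [norm_mul, Complex.norm_real, Real.norm_of_nonneg (by positivity), add_mul]
        have h4 := um_le (h1 t ht) k
        have h5 := H.fle k t m (h1 t ht)
        gcongr)
    refine h3.trans ?_
    have e1 : 2 * m / (σ / 16) = (32 / σ) * m := by
      field_simp
      ring
    have e2 : ((k : ℝ) ^ 2 + cQ * K ^ 2) * m * (σ / 16) ≤ ((k : ℝ) ^ 2 + cQ * K ^ 2) * m :=
      mul_le_of_le_one_right (by positivity) (by linarith)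
    rw [e1]
    have e3 : (32 / σ) * m + ((k : ℝ) ^ 2 + cQ * K ^ 2) * m ≤ (w0 * (1 + |(k : ℝ)|)) ^ 2 * m := by
      rw [← add_mul]
      refine mul_le_mul_of_nonneg_right ?_ hm
      have a1 : (k : ℝ) ^ 2 = |(k : ℝ)| ^ 2 := (sq_abs _).symm
      have a2 := abs_nonneg (k : ℝ)
      have a3 : (1 + |(k : ℝ)|) ^ 2 ≥ 1 + |(k : ℝ)| ^ 2 := by nlinarith
      have a4 : w0 ≤ w0 ^ 2 := by nlinarith
      have a5 : w0 * (1 + |(k : ℝ)| ^ 2) ≤ w0 ^ 2 * (1 + |(k : ℝ)|) ^ 2 := by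
        refine mul_le_mul a4 a3 (by positivity) (by positivity)
      have a6 : |(k : ℝ)| ^ 2 ≤ w0 * |(k : ℝ)| ^ 2 := le_mul_of_one_le_left (by positivity) hw01
      rw [a1, mul_pow]
      nlinarith
    linarith
  have hkexp : ∀ k : ℤ, 1 + |(k : ℝ)| ≤ (4 / σ) * Real.exp (σ / 4 * |(k : ℝ)|) := by
    intro k
    have h3 := Real.add_one_le_exp (σ / 4 * |(k : ℝ)|)
    have h4 : (4 / σ) * (σ / 4 * |(k : ℝ)| + 1) = |(k : ℝ)| + 4 / σ := by
      field_simp
    have h5 : (1 : ℝ) ≤ 4 / σ := by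
      rw [le_div_iff₀ hσ]
      linarith
    have h6 : (4 / σ) * (σ / 4 * |(k : ℝ)| + 1) ≤ (4 / σ) * Real.exp (σ / 4 * |(k : ℝ)|) := by
      gcongr
    linarith
  set D : ℝ := w0 * (4 / σ) * Real.sqrt (m * B) * Real.exp (c1 / 2 * K) with hD
  have hD0 : 0 ≤ D := by positivity
  have h4σ : (1 : ℝ) ≤ 4 / σ := by
    rw [le_div_iff₀ hσ]
    linarith
  have hu : ∀ k : ℤ, ‖um φ k x1‖ ≤ D * Real.exp (-(σ / 4 * |(k : ℝ)|)) := by
    intro k
    have h3 := interp H (norm_nonneg (um φ k x1)) le_rfl hm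
      (by simpa using um_le (h1 x1 hx1) k) (H.b1 k x1)
    refine h3.trans ?_
    rw [one_mul]
    have e1 : Real.exp (-(σ / 2 * |(k : ℝ)|)) ≤ Real.exp (-(σ / 4 * |(k : ℝ)|)) := by
      refine Real.exp_le_exp.2 ?_
      nlinarith [abs_nonneg (k : ℝ)]
    have e2 : Real.sqrt (m * B) * Real.exp (c1 / 2 * K) ≤ D := by
      rw [hD]
      have : (1 : ℝ) ≤ w0 * (4 / σ) := by nlinarith
      calc Real.sqrt (m * B) * Real.exp (c1 / 2 * K) =
          1 * (Real.sqrt (m * B) * Real.exp (c1 / 2 * K)) := (one_mul _).symm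
        _ ≤ (w0 * (4 / σ)) * (Real.sqrt (m * B) * Real.exp (c1 / 2 * K)) := by gcongr
        _ = _ := by ring
    exact mul_le_mul e2 e1 (Real.exp_pos _).le hD0
  have hu' : ∀ k : ℤ, ‖um φx k x1‖ ≤ D * Real.exp (-(σ / 4 * |(k : ℝ)|)) := by
    intro k
    have h3 := interp H (norm_nonneg (um φx k x1)) (w := w0 * (1 + |(k : ℝ)|)) (by
      nlinarith [abs_nonneg (k : ℝ)]) hm (hder k) (H.b2 k x1)
    refine h3.trans ?_
    calc w0 * (1 + |(k : ℝ)|) * Real.sqrt (m * B) * Real.exp (c1 / 2 * K) *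
          Real.exp (-(σ / 2 * |(k : ℝ)|))
        ≤ w0 * ((4 / σ) * Real.exp (σ / 4 * |(k : ℝ)|)) * Real.sqrt (m * B) *
          Real.exp (c1 / 2 * K) * Real.exp (-(σ / 2 * |(k : ℝ)|)) := by
          gcongr
          exact hkexp k
      _ = D * Real.exp (σ / 4 * |(k : ℝ)| + -(σ / 2 * |(k : ℝ)|)) := by
          rw [hD, Real.exp_add]
          ring
      _ = D * Real.exp (-(σ / 4 * |(k : ℝ)|)) := by
          congr 2
          ring
  have h3 := step_core H hD0 hu hu' hh y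
  refine h3.trans ?_
  have e1 : w0 * (4 / σ) ≤ Real.exp (((1 + 32 / σ + cQ) * (4 / σ) + 2) * K) := by
    have a1 : w0 ≤ (1 + 32 / σ + cQ) * K ^ 2 := by
      rw [hw0]
      have : 1 + 32 / σ ≤ (1 + 32 / σ) * K ^ 2 := by
        refine le_mul_of_one_le_right (by positivity) ?_
        nlinarith
      nlinarith
    have a2 : K ^ 2 ≤ Real.exp (2 * K) := by
      have : K ≤ Real.exp K := by linarith [Real.add_one_le_exp K]
      calc K ^ 2 ≤ Real.exp K ^ 2 := pow_le_pow_left₀ (by linarith) this 2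
        _ = Real.exp (2 * K) := by
            rw [← Real.exp_nat_mul]
            push_cast
            rfl
    have a3 : (1 + 32 / σ + cQ) * (4 / σ) ≤ Real.exp ((1 + 32 / σ + cQ) * (4 / σ) * K) :=
      le_exp_K (by positivity) hK
    calc w0 * (4 / σ) ≤ ((1 + 32 / σ + cQ) * K ^ 2) * (4 / σ) := by gcongr
      _ = ((1 + 32 / σ + cQ) * (4 / σ)) * K ^ 2 := by ring
      _ ≤ Real.exp ((1 + 32 / σ + cQ) * (4 / σ) * K) * Real.exp (2 * K) := by gcongr
      _ = _ := by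
          rw [← Real.exp_add]
          congr 1
          ring
  calc D * Real.exp (cc4 σ cQ * K) = (w0 * (4 / σ)) * (Real.exp (c1 / 2 * K) *
        Real.exp (cc4 σ cQ * K) * Real.sqrt (m * B)) := by
        rw [hD]
        ring
    _ ≤ Real.exp (((1 + 32 / σ + cQ) * (4 / σ) + 2) * K) * (Real.exp (c1 / 2 * K) *
        Real.exp (cc4 σ cQ * K) * Real.sqrt (m * B)) := by gcongr
    _ = Real.exp (cc5 σ c1 cQ * K) * Real.sqrt (m * B) := by
        rw [← mul_assoc, ← Real.exp_add, ← Real.exp_add]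
        congr 2
        unfold cc5
        ring

theorem sqrt_exp (w : ℝ) : Real.sqrt (B * Real.exp w * B) = B * Real.exp (w / 2) := by
  have hB := H.hB
  have h1 : B * Real.exp w * B = (B * Real.exp (w / 2)) ^ 2 := by
    have : Real.exp w = Real.exp (w / 2) ^ 2 := by
      rw [← Real.exp_nat_mul]
      congr 1
      push_cast
      ring
    rw [this]
    ring
  rw [h1, Real.sqrt_sq (by positivity)]

/-- The constant of the lower bound. -/
noncomputable def cc7 (L σ c1 cQ : ℝ) : ℝ := 2 ^ (⌈16 * L / σ⌉₊ + 2) * cc5 σ c1 cQ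

theorem cc5_pos : 0 < cc5 σ c1 cQ := by
  have := H.hσ
  have := H.hcQ
  have := H.hc1
  have := Sg_ge (θ := σ / 8) (by positivity)
  unfold cc5 cc4
  positivity

/-- The lower bound of the Cauchy data on a slice. -/
theorem lower {m x0 : ℝ} (hm : 0 < m) (h1 : ∀ y, |φ x0 y| ≤ m) (h2 : ∀ y, |φx x0 y| ≤ m) :
    B * Real.exp (-(cc7 L σ c1 cQ * K)) ≤ m := by
  have hB := H.hB
  have hσ := H.hσ
  set l : ℝ := Real.log (m / B) with hl
  have hml : m = B * Real.exp l := by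
    rw [hl, Real.exp_log (by positivity)]
    field_simp
  set c5 := cc5 σ c1 cQ with hc5
  have hind : ∀ j : ℕ, ∀ x ∈ Set.Icc x0 (x0 + σ / 8 + j * (σ / 16)), ∀ y,
      |φ x y| ≤ B * Real.exp (2 * c5 * K + l / 2 ^ (j + 1)) := by
    intro j
    induction j with
    | zero =>
      intro x hx y
      have h3 := stepA H hm.le h1 h2 (h := x - x0) (by
        rw [abs_of_nonneg (by linarith [hx.1])]
        have := hx.2
        simp only [Nat.cast_zero, zero_mul, add_zero] at this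
        linarith) y
      rw [add_sub_cancel] at h3
      refine h3.trans ?_
      rw [hml, sqrt_exp H, ← hc5]
      have e1 : Real.exp (c5 * K) * (B * Real.exp (l / 2)) =
          B * Real.exp (c5 * K + l / 2) := by
        rw [Real.exp_add]
        ring
      rw [e1]
      refine mul_le_mul_of_nonneg_left (Real.exp_le_exp.2 ?_) hB.le
      have e2 : l / 2 ^ (0 + 1) = l / 2 := by norm_num
      rw [e2]
      have e3 : 0 < c5 * K := mul_pos (cc5_pos H) (by linarith [H.hK])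
      linarith
    | succ j ih =>
      intro x hx y
      rcases le_or_gt x (x0 + σ / 8 + j * (σ / 16)) with hxj | hxj
      · -- the previous interval; use stepB with `x1` at the point `x`
        have h3 := stepB H (m := B * Real.exp (2 * c5 * K + l / 2 ^ (j + 1))) (by positivity)
          (x1 := max x0 (x - σ / 16)) (fun t ht y => ih t ⟨(le_max_left _ _).trans ht.1, by
            have h4 := ht.2
            rcases le_total x0 (x - σ / 16) with h5 | h5
            · rw [max_eq_right h5] at h4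
              linarith
            · rw [max_eq_left h5] at h4
              have : (0 : ℝ) ≤ j * (σ / 16) := by positivity
              linarith⟩ y) (h := x - max x0 (x - σ / 16)) (by
            have h5 : max x0 (x - σ / 16) ≤ x := max_le hx.1 (by linarith)
            have h6 : x - σ / 16 ≤ max x0 (x - σ / 16) := le_max_right _ _
            rw [abs_of_nonneg (by linarith)]
            linarith) y
        rw [add_sub_cancel] at h3
        refine h3.trans (le_of_eq ?_)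
        rw [sqrt_exp H, ← hc5]
        rw [mul_left_comm, ← Real.exp_add]
        congr 2
        rw [pow_succ 2 (j + 1)]
        field_simp
        ring
      · have h3 := stepB H (m := B * Real.exp (2 * c5 * K + l / 2 ^ (j + 1))) (by positivity)
          (x1 := x0 + σ / 8 + j * (σ / 16) - σ / 16) (fun t ht y => ih t ⟨by
            have : (0 : ℝ) ≤ j * (σ / 16) := by positivity
            linarith [ht.1], by linarith [ht.2]⟩ y)
          (h := x - (x0 + σ / 8 + j * (σ / 16) - σ / 16)) (by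
            rw [abs_of_nonneg (by linarith)]
            have := hx.2
            push_cast at this
            linarith) y
        rw [add_sub_cancel] at h3
        refine h3.trans (le_of_eq ?_)
        rw [sqrt_exp H, ← hc5]
        rw [mul_left_comm, ← Real.exp_add]
        congr 2
        rw [pow_succ 2 (j + 1)]
        field_simp
        ring
  set N : ℕ := ⌈16 * L / σ⌉₊ with hN
  have hN1 : 16 * L / σ ≤ N := Nat.le_ceil _
  have hN2 : L ≤ N * (σ / 16) := by
    rw [div_le_iff₀ hσ] at hN1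
    linarith
  obtain ⟨x, hx, y, hy⟩ := H.att x0
  have h3 := hind N x ⟨hx.1, by linarith [hx.2]⟩ y
  rw [hy] at h3
  have h4 : 1 ≤ Real.exp (2 * c5 * K + l / 2 ^ (N + 1)) := by
    by_contra hcon
    push Not at hcon
    nlinarith
  have h5 : 0 ≤ 2 * c5 * K + l / 2 ^ (N + 1) := Real.one_le_exp_iff.1 h4
  have h6 : -(cc7 L σ c1 cQ * K) ≤ l := by
    have h7 : 0 ≤ (2 * c5 * K + l / 2 ^ (N + 1)) * 2 ^ (N + 1) := by positivity
    have h8 : (2 * c5 * K + l / 2 ^ (N + 1)) * 2 ^ (N + 1) =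
        cc7 L σ c1 cQ * K + l := by
      unfold cc7
      rw [← hN, ← hc5, pow_succ 2 (N + 1)]
      field_simp
    linarith
  rw [hml]
  gcongr

end ctx

end Pool.Agent.Y291.PA
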