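import Pool.Agent.Y291.PA.Growth

/-!
# Doubling indices for metrics that are analytic in one variable
-/

set_option linter.unusedSectionVars false
set_option linter.unusedVariables false

namespace Pool.Agent.Y291.PA

open MeasureTheory Real Complex Pool.Agent.Y291.DB

open scoped ComplexConjugate Topology

/-- `ρ` is real analytic in the second variable, uniformly: for every `x` the function `ρ(x, ·)`
extends to a bounded holomorphic function on a strip, the width and the bound being independent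
of `x`. -/
def AnalyticInSecond (ρ : ℝ × ℝ → ℝ) : Prop :=
  ∃ (τ M : ℝ) (F : ℝ → ℂ → ℂ), 0 < τ ∧ ∀ x : ℝ, DifferentiableOn ℂ (F x) {z : ℂ | |z.im| < τ} ∧
    (∀ z : ℂ, |z.im| < τ → ‖F x z‖ ≤ M) ∧ ∀ y : ℝ, F x y = ρ (x, y)

/-- Shift of the contour. -/
theorem um_decay {ρ : ℝ → ℝ → ℝ} {τ M x : ℝ} {F : ℂ → ℂ} (hτ : 0 < τ)
    (hF : DifferentiableOn ℂ F {z : ℂ | |z.im| < τ}) (hb : ∀ z : ℂ, |z.im| < τ → ‖F z‖ ≤ M)
    (hFρ : ∀ y : ℝ, F y = ρ x y) (hper : ∀ y, ρ x (y + 2 * π) = ρ x y) (k : ℤ) :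
    ‖um ρ k x‖ ≤ M * Real.exp (-(τ / 2 * |(k : ℝ)|)) := by
  have hπ := Real.pi_pos
  have hM0 : 0 ≤ M := (norm_nonneg _).trans (hb 0 (by simpa using hτ))
  have hU : IsOpen {z : ℂ | |z.im| < τ} := by
    have : Continuous fun z : ℂ => |z.im| := Complex.continuous_im.abs
    exact isOpen_lt this continuous_const
  have hconn : IsPreconnected {z : ℂ | |z.im| < τ} := by
    have h4 : {z : ℂ | |z.im| < τ} = Complex.im ⁻¹' (Set.Ioo (-τ) τ) := by
      ext z
      simp [abs_lt]
    rw [h4]
    exact ((convex_Ioo (-τ) τ).linear_preimage Complex.imLm).isPreconnected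
  have him : ∀ z : ℂ, (z + 2 * π).im = z.im := by
    intro z
    simp
  -- periodicity
  have hFper : ∀ z : ℂ, |z.im| < τ → F (z + 2 * π) = F z := by
    intro z hz
    have ha1 : AnalyticOnNhd ℂ (fun z => F (z + 2 * π)) {z : ℂ | |z.im| < τ} := by
      refine DifferentiableOn.analyticOnNhd ?_ hU
      refine hF.comp (by fun_prop) ?_
      intro z hz
      show |(z + 2 * π).im| < τ
      rw [him]
      exact hz
    have ha2 := hF.analyticOnNhd hU
    have h0 : (0 : ℂ) ∈ {z : ℂ | |z.im| < τ} := by simpa using hτ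
    have hfreq : ∃ᶠ w in 𝓝[≠] (0 : ℂ), F (w + 2 * π) = F w := by
      have ht : Filter.Tendsto (fun n : ℕ => ((1 / ((n : ℝ) + 1) : ℝ) : ℂ)) Filter.atTop
          (𝓝[≠] (0 : ℂ)) := by
        rw [tendsto_nhdsWithin_iff]
        constructor
        · have := (Complex.continuous_ofReal.tendsto 0).comp
            (tendsto_one_div_add_atTop_nhds_zero_nat (𝕜 := ℝ))
          rw [Complex.ofReal_zero] at this
          exact this
        · refine Filter.Eventually.of_forall fun n => ?_
          have : (0 : ℝ) < 1 / ((n : ℝ) + 1) := by positivity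
          simp only [Set.mem_compl_iff, Set.mem_singleton_iff]
          exact_mod_cast this.ne'
      refine ht.frequently (Filter.Frequently.of_forall fun n => ?_)
      have h1 := hFρ (1 / ((n : ℝ) + 1) + 2 * π)
      have h2 := hFρ (1 / ((n : ℝ) + 1))
      rw [hper, ← h2] at h1
      rw [← h1]
      congr 1
      push_cast
      ring
    exact ha1.eqOn_of_preconnected_of_frequently_eq ha2 hconn h0 hfreq hz
  -- the shifted integral
  obtain ⟨s, hs, hks⟩ : ∃ s : ℝ, |s| = τ / 2 ∧ (k : ℝ) * s = -(τ / 2 * |(k : ℝ)|) := by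
    rcases le_total 0 (k : ℝ) with h | h
    · exact ⟨-(τ / 2), by rw [abs_neg, abs_of_pos (by positivity)], by rw [abs_of_nonneg h]; ring⟩
    · exact ⟨τ / 2, abs_of_pos (by positivity), by rw [abs_of_nonpos h]; ring⟩
  set f : ℂ → ℂ := fun z => F z * Complex.exp (-(k * z * I)) with hf
  have hfper : ∀ z : ℂ, |z.im| < τ → f (z + 2 * π) = f z := by
    intro z hz
    rw [hf]
    simp only
    rw [hFper z hz]
    congr 1
    rw [show -((k : ℂ) * (z + 2 * π) * I) = -((k : ℂ) * z * I) + ((-k : ℤ) : ℂ) * (2 * π * I) by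
      push_cast
      ring, Complex.exp_add, Complex.exp_int_mul_two_pi_mul_I, mul_one]
  have hfd : DifferentiableOn ℂ f {z : ℂ | |z.im| < τ} := hF.mul (by fun_prop)
  have hrect := Complex.integral_boundary_rect_eq_zero_of_differentiableOn f 0
    ((2 * π : ℝ) + s * I) (hfd.mono (by
      intro z hz
      rw [Complex.mem_reProdIm] at hz
      have h1 := hz.2
      simp only [Complex.zero_im, Complex.add_im, Complex.ofReal_im, Complex.mul_im,
        Complex.ofReal_re, Complex.I_im, mul_one, Complex.I_re, mul_zero, add_zero, zero_add] at h1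
      show |z.im| < τ
      have h2 : |z.im| ≤ |s| := by
        have h3 := Set.abs_sub_left_of_mem_uIcc h1
        simpa using h3
      rw [hs] at h2
      linarith))
  simp only [Complex.zero_im, Complex.zero_re, Complex.add_im, Complex.ofReal_im, Complex.mul_im,
    Complex.ofReal_re, Complex.I_im, mul_one, Complex.I_re, mul_zero, add_zero, zero_add,
    Complex.add_re, Complex.mul_re, sub_zero, zero_mul, Complex.ofReal_zero] at hrect
  have hvert : ∫ t in (0 : ℝ)..s, f (((2 * π : ℝ) : ℂ) + t * I) = ∫ t in (0 : ℝ)..s, f (t * I) := by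
    refine intervalIntegral.integral_congr fun t ht => ?_
    show f (((2 * π : ℝ) : ℂ) + t * I) = f (t * I)
    rw [← hfper (t * I)]
    · congr 1
      push_cast
      ring
    · have h3 := Set.abs_sub_left_of_mem_uIcc ht
      simp only [sub_zero] at h3
      simp only [Complex.mul_im, Complex.ofReal_re, Complex.I_im, mul_one, Complex.ofReal_im,
        Complex.I_re, mul_zero, add_zero]
      rw [hs] at h3
      linarith
  rw [hvert, add_sub_assoc, sub_self, add_zero, sub_eq_zero] at hrect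
  have hum : um ρ k x = (1 / (2 * π) : ℝ) * ∫ y in (0 : ℝ)..(2 * π), f (y + s * I) := by
    unfold um
    rw [← hrect]
    congr 1
    refine intervalIntegral.integral_congr fun y _ => ?_
    simp only [hf, hFρ]
    rfl
  rw [hum, norm_mul, Complex.norm_real, Real.norm_of_nonneg (by positivity)]
  have h1 : ‖∫ y in (0 : ℝ)..(2 * π), f (y + s * I)‖ ≤
      (M * Real.exp (-(τ / 2 * |(k : ℝ)|))) * |2 * π - 0| := by
    refine intervalIntegral.norm_integral_le_of_norm_le_const fun y _ => ?_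
    rw [hf]
    simp only
    rw [norm_mul, Complex.norm_exp]
    have h2 : (-((k : ℂ) * (y + s * I) * I)).re = -(τ / 2 * |(k : ℝ)|) := by
      rw [← hks]
      simp [Complex.mul_re, Complex.mul_im]
    rw [h2]
    refine mul_le_mul_of_nonneg_right (hb _ ?_) (Real.exp_pos _).le
    simp only [Complex.add_im, Complex.ofReal_im, Complex.mul_im, Complex.ofReal_re,
      Complex.I_im, mul_one, Complex.I_re, mul_zero, add_zero, zero_add]
    rw [hs]
    linarith
  rw [sub_zero, abs_of_pos Real.two_pi_pos] at h1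
  calc 1 / (2 * π) * ‖∫ y in (0 : ℝ)..(2 * π), f (y + s * I)‖
      ≤ 1 / (2 * π) * ((M * Real.exp (-(τ / 2 * |(k : ℝ)|))) * (2 * π)) := by gcongr
    _ = M * Real.exp (-(τ / 2 * |(k : ℝ)|)) := by
      field_simp

/-- The derivatives of a `C²` solution. -/
theorem sol_of_eigen {ρ : ℝ × ℝ → ℝ} {L α lam : ℝ} {φ : ℝ × ℝ → ℝ} (hρ : Continuous ρ)
    (h : Eigen ρ L α lam φ) : ∃ φx φxx φy φyy : ℝ → ℝ → ℝ,
      Sol2 (fun x y => lam * ρ (x, y)) (fun x y => φ (x, y)) φx φxx φy φyy := by
  have hs := h.smooth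
  have key : ∀ (g : ℝ × ℝ → ℝ) (v : ℝ × ℝ), ContDiff ℝ 1 g → Continuous fun p => fderiv ℝ g p v :=
    fun g v hg => (hg.continuous_fderiv one_ne_zero).clm_apply continuous_const
  have key2 : ∀ v : ℝ × ℝ, ContDiff ℝ 1 fun p => fderiv ℝ φ p v := fun v =>
    (hs.fderiv_right (m := 1) (by norm_num)).clm_apply contDiff_const
  have dX : ∀ (g : ℝ × ℝ → ℝ), Differentiable ℝ g → ∀ x y : ℝ,
      HasDerivAt (fun t => g (t, y)) (fderiv ℝ g (x, y) (1, 0)) x := by
    intro g hg x y
    have h1 : HasDerivAt (fun t : ℝ => ((t, y) : ℝ × ℝ)) (1, 0) x :=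
      (hasDerivAt_id x).prodMk (hasDerivAt_const x y)
    exact (hg (x, y)).hasFDerivAt.comp_hasDerivAt x h1
  have dY : ∀ (g : ℝ × ℝ → ℝ), Differentiable ℝ g → ∀ x y : ℝ,
      HasDerivAt (fun t => g (x, t)) (fderiv ℝ g (x, y) (0, 1)) y := by
    intro g hg x y
    have h1 : HasDerivAt (fun t : ℝ => ((x, t) : ℝ × ℝ)) (0, 1) y :=
      (hasDerivAt_const y x).prodMk (hasDerivAt_id y)
    exact (hg (x, y)).hasFDerivAt.comp_hasDerivAt y h1
  have hd0 : Differentiable ℝ φ := hs.differentiable two_ne_zero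
  have hd1 : ∀ v, Differentiable ℝ fun p => fderiv ℝ φ p v := fun v =>
    (key2 v).differentiable one_ne_zero
  refine ⟨fun x y => fderiv ℝ φ (x, y) (1, 0),
    fun x y => fderiv ℝ (fun p => fderiv ℝ φ p (1, 0)) (x, y) (1, 0),
    fun x y => fderiv ℝ φ (x, y) (0, 1),
    fun x y => fderiv ℝ (fun p => fderiv ℝ φ p (0, 1)) (x, y) (0, 1), ?_⟩
  refine ⟨?_, ?_, ?_, ?_, ?_, ?_, ?_, ?_, ?_, ?_, ?_⟩
  · show Continuous fun p : ℝ × ℝ => lam * ρ (p.1, p.2)
    exact continuous_const.mul hρ
  · exact hs.continuous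
  · exact key φ (1, 0) (hs.of_le (by norm_num))
  · exact key _ (1, 0) (key2 (1, 0))
  · exact key φ (0, 1) (hs.of_le (by norm_num))
  · exact key _ (0, 1) (key2 (0, 1))
  · exact fun x y => dX φ hd0 x y
  · exact fun x y => dX _ (hd1 (1, 0)) x y
  · exact fun x y => dY φ hd0 x y
  · exact fun x y => dY _ (hd1 (0, 1)) x y
  · intro x y
    have h1 := h.eq (x, y)
    have e1 : iteratedDeriv 2 (fun x => φ (x, y)) x =
        fderiv ℝ (fun p => fderiv ℝ φ p (1, 0)) (x, y) (1, 0) := by
      rw [iteratedDeriv_succ, iteratedDeriv_one]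
      have h2 : deriv (fun x => φ (x, y)) = fun t => fderiv ℝ φ (t, y) (1, 0) :=
        funext fun t => (dX φ hd0 t y).deriv
      rw [h2]
      exact (dX _ (hd1 (1, 0)) x y).deriv
    have e2 : iteratedDeriv 2 (fun y => φ (x, y)) y =
        fderiv ℝ (fun p => fderiv ℝ φ p (0, 1)) (x, y) (0, 1) := by
      rw [iteratedDeriv_succ, iteratedDeriv_one]
      have h2 : deriv (fun y => φ (x, y)) = fun t => fderiv ℝ φ (x, t) (0, 1) :=
        funext fun t => (dY φ hd0 x t).deriv
      rw [h2]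
      exact (dY _ (hd1 (0, 1)) x y).deriv
    simp only at h1 ⊢
    rw [e1, e2] at h1
    linarith

end Pool.Agent.Y291.PA
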