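import Pool.Agent.Y291.PA.Lower
import Pool.Agent.Y291.DB.Local
import Pool.Agent.Y291.DB.Count

/-!
# The growth function of a solution
-/

set_option linter.unusedSectionVars false
set_option linter.unusedVariables false

namespace Pool.Agent.Y291.PA

open MeasureTheory Real Complex Pool.Agent.Y291.DB

open scoped ComplexConjugate Topology

/-- The good slices. -/
theorem XX_meas2 {q φ φx φxx φy φyy : ℝ → ℝ → ℝ} (h : Sol2 q φ φx φxx φy φyy)
    {b x0 y0 S Q : ℝ} (hb : 0 < b) (hS0 : 0 < S)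
    (hS : ∀ x y, |x - x0| ≤ b → |y - y0| ≤ b → |φ x y| ≤ S)
    (hQ : ∀ x y, q x y ≤ Q) (hQ0 : 0 ≤ Q) {C1 : ℝ} (hC1 : 129 + 16 * Q * b ^ 2 ≤ C1) :
    MeasurableSet (XX φ φx b x0 y0 (2 * C1 * b * S ^ 2)) ∧
    ENNReal.ofReal (b / 2) ≤ volume (XX φ φx b x0 y0 (2 * C1 * b * S ^ 2)) := by
  have c1 : Continuous (fun p : ℝ × ℝ => φ p.1 p.2) := h.c
  have c2 : Continuous (fun p : ℝ × ℝ => φx p.1 p.2) := h.cx
  have hcF : Continuous (Function.uncurry fun x y => φ x y ^ 2 + b ^ 2 * φx x y ^ 2) := by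
    show Continuous fun p : ℝ × ℝ => φ p.1 p.2 ^ 2 + b ^ 2 * φx p.1 p.2 ^ 2
    fun_prop
  have hGc := int_cont hcF (y0 - b / 2) (y0 + b / 2)
  have hC10 : 0 < C1 := lt_of_lt_of_le (by positivity) hC1
  have hmeas : MeasurableSet (XX φ φx b x0 y0 (2 * C1 * b * S ^ 2)) :=
    measurableSet_Icc.inter (isClosed_le hGc continuous_const).measurableSet
  refine ⟨hmeas, ?_⟩
  have h1 := cacc2 h hb hS hQ hQ0
  have h2 : ∫ x in (x0 - b / 2)..(x0 + b / 2), ∫ y in (y0 - b / 2)..(y0 + b / 2),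
      (φ x y ^ 2 + b ^ 2 * φx x y ^ 2) ≤ C1 * b ^ 2 * S ^ 2 := by
    refine h1.trans ?_
    gcongr
  have h3 := markov hGc (fun x => intervalIntegral.integral_nonneg (by linarith)
    fun y _ => by positivity) (a := x0 - b / 2) (b := x0 + b / 2) (by linarith) h2
    (s := 2 * C1 * b * S ^ 2) (by positivity)
  have h4 : C1 * b ^ 2 * S ^ 2 / (2 * C1 * b * S ^ 2) = b / 2 := by
    field_simp
  rw [h4] at h3
  have hsub : Set.Icc (x0 - b / 2) (x0 + b / 2) ⊆ XX φ φx b x0 y0 (2 * C1 * b * S ^ 2) ∪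
      {x : ℝ | x ∈ Set.Icc (x0 - b / 2) (x0 + b / 2) ∧ 2 * C1 * b * S ^ 2 ≤
        ∫ y in (y0 - b / 2)..(y0 + b / 2), (φ x y ^ 2 + b ^ 2 * φx x y ^ 2)} := by
    intro x hx
    rcases le_total (∫ y in (y0 - b / 2)..(y0 + b / 2), (φ x y ^ 2 + b ^ 2 * φx x y ^ 2))
      (2 * C1 * b * S ^ 2) with h5 | h5
    · exact Or.inl ⟨hx, h5⟩
    · exact Or.inr ⟨hx, h5⟩
  have h5 := (measure_mono (μ := volume) hsub).trans ((measure_union_le _ _).trans
    (add_le_add_right h3 _))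
  rw [Real.volume_Icc, show x0 + b / 2 - (x0 - b / 2) = b / 2 + b / 2 by ring,
    ENNReal.ofReal_add (by positivity) (by positivity)] at h5
  exact (ENNReal.add_le_add_iff_right ENNReal.ofReal_ne_top).1 h5

/-- The two analytic functions of a slice. -/
noncomputable def PP (φ φx : ℝ → ℝ → ℝ) (b s x : ℝ) (z : ℂ) : ℂ :=
  TS (fun k => um φ k x) z + (s * b : ℝ) * I * TS (fun k => um φx k x) z

section slices

variable {φ φx : ℝ → ℝ → ℝ} {f : ℤ → ℝ → ℂ} {L σ c1 cQ K B : ℝ} (H : Ctx φ φx f L σ c1 cQ K B)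

include H

theorem PP_real (b s x y : ℝ) (hs : s ^ 2 = 1) :
    ‖PP φ φx b s x y‖ ^ 2 = φ x y ^ 2 + b ^ 2 * φx x y ^ 2 := by
  unfold PP
  rw [H.r1, H.r2, ← Complex.normSq_eq_norm_sq, Complex.normSq_apply]
  have h1 : ((φ x y : ℂ) + (s * b : ℝ) * I * (φx x y : ℂ)).re = φ x y := by
    simp [Complex.mul_re, Complex.mul_im]
  have h2 : ((φ x y : ℂ) + (s * b : ℝ) * I * (φx x y : ℂ)).im = s * b * φx x y := by
    simp [Complex.mul_re, Complex.mul_im]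
  rw [h1, h2]
  have : s * b * φx x y * (s * b * φx x y) = s ^ 2 * (b ^ 2 * φx x y ^ 2) := by ring
  rw [this, hs]
  ring

theorem PP_diff (b s x : ℝ) : DifferentiableOn ℂ (PP φ φx b s x) {z : ℂ | |z.im| < σ / 2} := by
  have hB : 0 ≤ B * Real.exp (c1 * K) := by
    have := H.hB
    positivity
  have hsub : {z : ℂ | |z.im| < σ / 2} ⊆ {z : ℂ | |z.im| < σ} := by
    intro z hz
    have h1 : |z.im| < σ / 2 := hz
    show |z.im| < σ
    linarith [H.hσ]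
  exact ((TS_diff (fun k => H.b1 k x) hB).mono hsub).add
    ((differentiableOn_const _).mul ((TS_diff (fun k => H.b2 k x) hB).mono hsub))

theorem PP_bound {b s : ℝ} (hb0 : 0 ≤ b) (hb : b ≤ 1) (hs : s ^ 2 = 1) (x : ℝ) (z : ℂ)
    (hz : |z.im| < σ / 2) : ‖PP φ φx b s x z‖ ≤ 2 * B * Real.exp (c1 * K) * Sg (σ / 2) := by
  have hB : 0 ≤ B * Real.exp (c1 * K) := by
    have := H.hB
    positivity
  have hσ := H.hσ
  have e1 : σ - σ / 2 = σ / 2 := by ring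
  have h1 := TS_bound (fun k => H.b1 k x) hB (σ' := σ / 2) (by linarith) hz.le
  have h2 := TS_bound (fun k => H.b2 k x) hB (σ' := σ / 2) (by linarith) hz.le
  rw [e1] at h1 h2
  unfold PP
  refine (norm_add_le _ _).trans ?_
  rw [norm_mul, norm_mul, Complex.norm_I, mul_one, Complex.norm_real, Real.norm_eq_abs, abs_mul,
    abs_of_nonneg hb0]
  have h3 : |s| = 1 := by
    have : |s| ^ 2 = 1 := by rw [sq_abs, hs]
    nlinarith [abs_nonneg s]
  rw [h3, one_mul]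
  have h4 : b * ‖TS (fun k => um φx k x) z‖ ≤ 1 * ‖TS (fun k => um φx k x) z‖ := by gcongr
  linarith

theorem PP_per (b s x : ℝ) (z : ℂ) : PP φ φx b s x (z + 2 * π) = PP φ φx b s x z := by
  unfold PP
  rw [TS_per, TS_per]

/-- The constant of the slices. -/
noncomputable def cc8 (L σ c1 cQ β : ℝ) : ℝ := c1 + cc7 L σ c1 cQ + 2 + Sg (σ / 2) / β

theorem cc7_pos : 0 < cc7 L σ c1 cQ := by
  have := cc5_pos H
  unfold cc7
  positivity

theorem PP_low {b β s : ℝ} (hβ : 0 < β) (hbK : b * K = 2 * β) (hb : b ≤ 1)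
    (hs : s ^ 2 = 1) (x : ℝ) : ∃ ys : ℝ, 2 * B * Real.exp (c1 * K) * Sg (σ / 2) *
      Real.exp (-(cc8 L σ c1 cQ β * K)) ≤ ‖PP φ φx b s x ys‖ := by
  have hB := H.hB
  have hK := H.hK
  have hσ := H.hσ
  have hb0 : 0 < b := by
    by_contra hcon
    push Not at hcon
    nlinarith
  have hSg := Sg_ge (θ := σ / 2) (by positivity)
  by_contra hcon
  push Not at hcon
  set m : ℝ := 2 * B * Real.exp (c1 * K) * Sg (σ / 2) * Real.exp (-(cc8 L σ c1 cQ β * K)) with hm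
  have hm0 : 0 < m := by positivity
  have hmb : m ≤ m / b := by
    rw [le_div_iff₀ hb0]
    nlinarith
  have h1 : ∀ y, |φ x y| ≤ m / b := by
    intro y
    have h3 := PP_real H b s x y hs
    have h4 : φ x y ^ 2 ≤ m ^ 2 := by
      have h5 : ‖PP φ φx b s x y‖ ^ 2 ≤ m ^ 2 := pow_le_pow_left₀ (norm_nonneg _) (hcon y).le 2
      nlinarith [mul_nonneg (sq_nonneg b) (sq_nonneg (φx x y))]
    exact (abs_le_of_sq_le_sq h4 hm0.le).trans hmb
  have h2 : ∀ y, |φx x y| ≤ m / b := by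
    intro y
    have h3 := PP_real H b s x y hs
    have h4 : (b * φx x y) ^ 2 ≤ m ^ 2 := by
      have h5 : ‖PP φ φx b s x y‖ ^ 2 ≤ m ^ 2 := pow_le_pow_left₀ (norm_nonneg _) (hcon y).le 2
      nlinarith [sq_nonneg (φ x y)]
    have h5 := abs_le_of_sq_le_sq h4 hm0.le
    rw [abs_mul, abs_of_pos hb0] at h5
    rw [le_div_iff₀ hb0]
    linarith
  have h3 := lower H (by positivity) h1 h2
  rw [le_div_iff₀ hb0, hm] at h3
  have h4 : Real.exp (-(cc7 L σ c1 cQ * K)) * (2 * β) ≤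
      2 * K * Real.exp (c1 * K) * Sg (σ / 2) * Real.exp (-(cc8 L σ c1 cQ β * K)) := by
    have h5 : B * (Real.exp (-(cc7 L σ c1 cQ * K)) * (b * K)) ≤
        B * (2 * K * Real.exp (c1 * K) * Sg (σ / 2) * Real.exp (-(cc8 L σ c1 cQ β * K))) := by
      have := mul_le_mul_of_nonneg_right h3 (show 0 ≤ K by linarith)
      linarith
    rw [hbK] at h5
    exact le_of_mul_le_mul_left h5 hB
  have h5 : Real.exp (-(cc8 L σ c1 cQ β * K)) = Real.exp (-(cc7 L σ c1 cQ * K)) *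
      (Real.exp (-(c1 * K)) * (Real.exp (-(2 * K)) * Real.exp (-(Sg (σ / 2) / β * K)))) := by
    rw [← Real.exp_add, ← Real.exp_add, ← Real.exp_add]
    congr 1
    unfold cc8
    ring
  have h6 : Real.exp (c1 * K) * Real.exp (-(c1 * K)) = 1 := by
    rw [← Real.exp_add]
    simp
  rw [h5] at h4
  have h7 : 2 * K * Real.exp (c1 * K) * Sg (σ / 2) * (Real.exp (-(cc7 L σ c1 cQ * K)) *
      (Real.exp (-(c1 * K)) * (Real.exp (-(2 * K)) * Real.exp (-(Sg (σ / 2) / β * K))))) =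
      Real.exp (-(cc7 L σ c1 cQ * K)) * (2 * (K * Real.exp (-(2 * K))) *
        (Sg (σ / 2) * Real.exp (-(Sg (σ / 2) / β * K)))) := by
    linear_combination (2 * K * Sg (σ / 2) * Real.exp (-(cc7 L σ c1 cQ * K)) *
      Real.exp (-(2 * K)) * Real.exp (-(Sg (σ / 2) / β * K))) * h6
  rw [h7] at h4
  have h8 := le_of_mul_le_mul_left h4 (Real.exp_pos _)
  have h9 : K * Real.exp (-(2 * K)) < 1 := by
    rw [Real.exp_neg, ← div_eq_mul_inv, div_lt_one (Real.exp_pos _)]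
    have := Real.add_one_le_exp (2 * K)
    linarith
  have h10 : Sg (σ / 2) * Real.exp (-(Sg (σ / 2) / β * K)) ≤ β := by
    rw [Real.exp_neg, ← div_eq_mul_inv, div_le_iff₀ (Real.exp_pos _)]
    have h11 := Real.add_one_le_exp (Sg (σ / 2) / β * K)
    have h12 : Sg (σ / 2) / β ≤ Sg (σ / 2) / β * K := le_mul_of_one_le_right (by positivity) hK
    have h13 : Sg (σ / 2) = β * (Sg (σ / 2) / β) := by
      field_simp
    calc Sg (σ / 2) = β * (Sg (σ / 2) / β) := h13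
      _ ≤ β * Real.exp (Sg (σ / 2) / β * K) := by
          gcongr
          linarith
  have h14 : 2 * (K * Real.exp (-(2 * K))) * (Sg (σ / 2) * Real.exp (-(Sg (σ / 2) / β * K))) <
      2 * β := by
    have h15 : 0 < Sg (σ / 2) * Real.exp (-(Sg (σ / 2) / β * K)) := by positivity
    have h16 : 0 < K * Real.exp (-(2 * K)) := by positivity
    nlinarith
  linarith

/-- The high case. -/
theorem high_case {b β δ A T x x' y' : ℝ} (hβ : 0 < β) (hA : 0 ≤ A) (hδ0 : 0 < δ)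
    (hδK : δ * K = 1 / 2) (hb : b = 4 * β * δ) (hRσ : (A + 2) * δ ≤ σ / 2)
    (hP : ∀ s : ℝ, s ^ 2 = 1 → ∀ τ : ℝ, |τ| ≤ (A + 2) * δ → ‖PP φ φx b s x (y' + τ * I)‖ ≤ T)
    (hxx : |x' - x| ≤ (A + 2) * δ) :
    |φ x' y'| ≤ 2 * (T + T * ((A + 2) / (4 * β))) * Real.exp (Real.sqrt (2 * cQ) * (A + 2) / 2) := by
  have hσ := H.hσ
  have hcQ := H.hcQ
  have hK0 : 0 < K := by linarith [H.hK]
  have hB := H.hB
  have hb0 : 0 < b := by
    rw [hb]
    positivity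
  have hU : ∀ τ : ℝ, |τ| ≤ (A + 2) * δ →
      ‖TS (fun k => um φ k x) (y' + τ * I)‖ ≤ T := by
    intro τ hτ
    have h1 := hP 1 (by norm_num) τ hτ
    have h2 := hP (-1) (by norm_num) τ hτ
    have h3 : TS (fun k => um φ k x) (y' + τ * I) = (1 / 2) *
        (PP φ φx b 1 x (y' + τ * I) + PP φ φx b (-1) x (y' + τ * I)) := by
      unfold PP
      push_cast
      ring
    rw [h3, norm_mul]
    have h4 := norm_add_le (PP φ φx b 1 x (y' + τ * I)) (PP φ φx b (-1) x (y' + τ * I))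
    have h5 : ‖(1 / 2 : ℂ)‖ = 1 / 2 := by norm_num
    rw [h5]
    linarith
  have hV : ∀ τ : ℝ, |τ| ≤ (A + 2) * δ →
      ‖TS (fun k => um φx k x) (y' + τ * I)‖ ≤ T / b := by
    intro τ hτ
    have h1 := hP 1 (by norm_num) τ hτ
    have h2 := hP (-1) (by norm_num) τ hτ
    have h3 : (b : ℂ) * I * TS (fun k => um φx k x) (y' + τ * I) = (1 / 2) *
        (PP φ φx b 1 x (y' + τ * I) - PP φ φx b (-1) x (y' + τ * I)) := by
      unfold PP
      push_cast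
      ring
    have h4 := congrArg norm h3
    rw [norm_mul, norm_mul, norm_mul, Complex.norm_I, mul_one, Complex.norm_real,
      Real.norm_of_nonneg hb0.le] at h4
    have h5 : ‖(1 / 2 : ℂ)‖ = 1 / 2 := by norm_num
    rw [h5] at h4
    have h6 := norm_sub_le (PP φ φx b 1 x (y' + τ * I)) (PP φ φx b (-1) x (y' + τ * I))
    rw [le_div_iff₀ hb0]
    linarith
  have hp := propU (u := fun k => um φ k) (u' := fun k => um φx k) (f := f)
    (C := B * Real.exp (c1 * K)) (σ := σ) (Q := cQ * K ^ 2)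
    (a := Real.sqrt (2 * cQ) * K) (by positivity) hσ H.d1 H.d2 H.b1 H.b2 H.b3
    (by positivity) (by positivity)
    (by
      rw [mul_pow, Real.sq_sqrt (show (0 : ℝ) ≤ 2 * cQ by linarith)]
      exact le_of_eq (by ring)) H.hQ (R := (A + 2) * δ) (M0 := T) (M1 := T / b)
    (x0 := x) (y' := y') (by positivity) hRσ hU hV hxx
  rw [add_sub_cancel, H.r1, Complex.norm_real, Real.norm_eq_abs] at hp
  refine hp.trans (le_of_eq ?_)
  have e1 : (A + 2) * δ * (T / b) = T * ((A + 2) / (4 * β)) := by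
    rw [hb]
    field_simp
  have e2 : Real.sqrt (2 * cQ) * K * ((A + 2) * δ) = Real.sqrt (2 * cQ) * (A + 2) / 2 := by
    calc Real.sqrt (2 * cQ) * K * ((A + 2) * δ) =
        Real.sqrt (2 * cQ) * (A + 2) * (δ * K) := by ring
      _ = _ := by
          rw [hδK]
          ring
  rw [e1, e2]

/-- The low case. -/
theorem low_case {b β Ks T x : ℝ} (hβ : 0 < β) (hbK : b * K = 2 * β) (hKs : K ≤ Ks) (hT : 0 < T)
    (hP : ∀ t : ℝ, ‖PP φ φx b 1 x t‖ ≤ T) (x' y' : ℝ) :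
    |φ x' y'| ≤ (1 + Ks / (2 * β)) * T * Real.exp (cc7 L σ c1 cQ * Ks) := by
  have hK1 := H.hK
  have hK0 : 0 < K := by linarith
  have hKs0 : 0 < Ks := by linarith
  have hB := H.hB
  have hc7 := cc7_pos H
  have hb0 : 0 < b := by
    by_contra hcon
    push Not at hcon
    nlinarith
  have h0 : 0 ≤ Ks / (2 * β) := by positivity
  have hm12 : T ≤ (1 + Ks / (2 * β)) * T := by nlinarith
  have hm2 : 0 < (1 + Ks / (2 * β)) * T := by positivity
  have h1 : ∀ t, |φ x t| ≤ (1 + Ks / (2 * β)) * T := by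
    intro t
    have h3 := PP_real H b 1 x t (by norm_num)
    have h4 : φ x t ^ 2 ≤ T ^ 2 := by
      have h5 : ‖PP φ φx b 1 x t‖ ^ 2 ≤ T ^ 2 := pow_le_pow_left₀ (norm_nonneg _) (hP t) 2
      nlinarith [mul_nonneg (sq_nonneg b) (sq_nonneg (φx x t))]
    exact (abs_le_of_sq_le_sq h4 hT.le).trans hm12
  have h2 : ∀ t, |φx x t| ≤ (1 + Ks / (2 * β)) * T := by
    intro t
    have h3 := PP_real H b 1 x t (by norm_num)
    have h4 : (b * φx x t) ^ 2 ≤ T ^ 2 := by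
      have h5 : ‖PP φ φx b 1 x t‖ ^ 2 ≤ T ^ 2 := pow_le_pow_left₀ (norm_nonneg _) (hP t) 2
      nlinarith [sq_nonneg (φ x t)]
    have h5 := abs_le_of_sq_le_sq h4 hT.le
    rw [abs_mul, abs_of_pos hb0] at h5
    have h6 : |φx x t| ≤ T * (Ks / (2 * β)) := by
      have h7 : |φx x t| = (b * |φx x t|) * (K / (2 * β)) := by
        rw [← hbK]
        field_simp
      rw [h7]
      have h8 : K / (2 * β) ≤ Ks / (2 * β) := by gcongr
      exact mul_le_mul h5 h8 (by positivity) hT.le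
    refine h6.trans ?_
    linarith
  have h3 := lower H hm2 h1 h2
  have h5 : B = B * Real.exp (-(cc7 L σ c1 cQ * K)) * Real.exp (cc7 L σ c1 cQ * K) := by
    rw [mul_assoc, ← Real.exp_add]
    simp
  refine (H.sup x' y').trans ?_
  rw [h5]
  refine mul_le_mul h3 (Real.exp_le_exp.2 ?_) (Real.exp_pos _).le hm2.le
  exact mul_le_mul_of_nonneg_left hKs hc7.le

end slices

/-- A growth function of an analytic periodic function. -/
structure Gro (P : ℂ → ℂ) (R Ca a δ : ℝ) (g : ℝ → ℝ) : Prop where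
  nonneg : ∀ y, 0 ≤ g y
  upper : ∀ y, g y ≤ Ca * a
  weak : ∀ s : ℝ, 0 < s → volume {y : ℝ | y ∈ Set.Ioc (-(2 * π)) (4 * π) ∧ s ≤ g y} ≤
    ENNReal.ofReal (Ca * a * δ / s)
  rem : ∀ (α β y m : ℝ) (z : ℂ), 1 ≤ α → 0 < β → β ≤ 1 → β * δ ≤ R / 32 → 0 ≤ m →
    volume {y' : ℝ | |y' - y| ≤ β * δ ∧ m < ‖P y'‖} ≤ ENNReal.ofReal (β * δ) →
    ‖z - y‖ ≤ R / 32 → ‖Complex.exp (z * I) - Complex.exp (y * I)‖ ≤ α * δ →
    ‖P z‖ ≤ m * Real.exp (DD α β * g y + 1 + Ca * a * (β * δ + ‖z - y‖))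

/-- Smallness propagates from an interval. -/
def Spr (P : ℂ → ℂ) (R Cb a : ℝ) : Prop :=
  ∀ y m : ℝ, 0 ≤ m → (∀ y' : ℝ, |y' - y| ≤ R / 128 → ‖P y'‖ ≤ m) →
    ∀ y' : ℝ, ‖P y'‖ ≤ m * Real.exp (Cb * a)

theorem AR_struct {σ : ℝ} (hσ : 0 < σ) (hσ1 : σ ≤ 1) : ∃ Ca Cb : ℝ, 1 ≤ Ca ∧ 0 < Cb ∧
    ∀ (φ φx : ℝ → ℝ → ℝ) (f : ℤ → ℝ → ℂ) (L c1 cQ K B b β δ s x : ℝ),
      Ctx φ φx f L σ c1 cQ K B → 0 < β → b * K = 2 * β → b ≤ 1 → s ^ 2 = 1 → 0 < δ → δ ≤ 1 / 2 →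
      0 < b → 1 ≤ cc8 L σ c1 cQ β * K →
      (∃ g, Gro (PP φ φx b s x) (σ / 2) Ca (cc8 L σ c1 cQ β * K) δ g) ∧
      Spr (PP φ φx b s x) (σ / 2) Cb (cc8 L σ c1 cQ β * K) := by
  obtain ⟨Ca, hCa1, hAR⟩ := AR (R := σ / 2) (by positivity) (by linarith)
  obtain ⟨Cb, hCb0, hAR2⟩ := AR2 (R := σ / 2) (by positivity) (by linarith)
  refine ⟨Ca, Cb, hCa1, hCb0, ?_⟩
  intro φ φx f L c1 cQ K B b β δ s x H hβ hbK hb1 hs hδ0 hδ2 hb0 ha1
  have hB := H.hB
  have hSg := Sg_ge (θ := σ / 2) (by positivity)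
  obtain ⟨ys, hys⟩ := PP_low H hβ hbK hb1 hs x
  have hM0 : 0 < 2 * B * Real.exp (c1 * K) * Sg (σ / 2) := by positivity
  constructor
  · obtain ⟨g, h1, h2, h3, h4⟩ := hAR (PP φ φx b s x) _ _ ys hM0 ha1 (PP_diff H b s x)
      (PP_bound H hb0.le hb1 hs x) (PP_per H b s x) hys δ hδ0 hδ2
    exact ⟨g, h1, h2, h3, h4⟩
  · exact hAR2 (PP φ φx b s x) _ _ ys hM0 ha1 (PP_diff H b s x)
      (PP_bound H hb0.le hb1 hs x) (PP_per H b s x) hys

end Pool.Agent.Y291.PA
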