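import Pool.Agent.Y291.DB.Modes

/-!
# Solutions of `φ_xx + φ_yy + q(x, y) φ = 0`
-/

set_option linter.unusedSectionVars false
set_option linter.unusedVariables false

namespace Pool.Agent.Y291.PA

open MeasureTheory Real Pool.Agent.Y291.DB

/-- A solution of `φ_xx + φ_yy + q(x, y) φ = 0` with its derivatives. -/
structure Sol2 (q φ φx φxx φy φyy : ℝ → ℝ → ℝ) : Prop where
  qc : Continuous (Function.uncurry q)
  c : Continuous (Function.uncurry φ)
  cx : Continuous (Function.uncurry φx)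
  cxx : Continuous (Function.uncurry φxx)
  cy : Continuous (Function.uncurry φy)
  cyy : Continuous (Function.uncurry φyy)
  dx : ∀ x y, HasDerivAt (fun t => φ t y) (φx x y) x
  dxx : ∀ x y, HasDerivAt (fun t => φx t y) (φxx x y) x
  dy : ∀ x y, HasDerivAt (fun t => φ x t) (φy x y) y
  dyy : ∀ x y, HasDerivAt (fun t => φy x t) (φyy x y) y
  pde : ∀ x y, φxx x y + φyy x y = -(q x y * φ x y)

/-- The energy inequality. -/
theorem cacc2 {q φ φx φxx φy φyy : ℝ → ℝ → ℝ} (h : Sol2 q φ φx φxx φy φyy)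
    {x0 y0 b S Q : ℝ} (hb : 0 < b) (hS : ∀ x y, |x - x0| ≤ b → |y - y0| ≤ b → |φ x y| ≤ S)
    (hQ : ∀ x y, q x y ≤ Q) (hQ0 : 0 ≤ Q) :
    ∫ x in (x0 - b / 2)..(x0 + b / 2), ∫ y in (y0 - b / 2)..(y0 + b / 2),
      (φ x y ^ 2 + b ^ 2 * φx x y ^ 2) ≤ (129 + 16 * Q * b ^ 2) * b ^ 2 * S ^ 2 := by
  have hS0 : 0 ≤ S := (abs_nonneg _).trans (hS x0 y0 (by simpa using hb.le) (by simpa using hb.le))
  have cφ := h.c
  have cφx := h.cx
  have cφxx := h.cxx
  have cφyy := h.cyy
  have cφy := h.cy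
  have he1 : Continuous fun p : ℝ × ℝ => eta b x0 p.1 := (eta_cont b x0).comp continuous_fst
  have he2 : Continuous fun p : ℝ × ℝ => eta b y0 p.2 := (eta_cont b y0).comp continuous_snd
  have he3 : Continuous fun p : ℝ × ℝ => eta2 b x0 p.1 := (eta2_cont b x0).comp continuous_fst
  have he4 : Continuous fun p : ℝ × ℝ => eta2 b y0 p.2 := (eta2_cont b y0).comp continuous_snd
  have c1 : Continuous (fun p : ℝ × ℝ => φ p.1 p.2) := cφ
  have c2 : Continuous (fun p : ℝ × ℝ => φx p.1 p.2) := cφx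
  have c3 : Continuous (fun p : ℝ × ℝ => φxx p.1 p.2) := cφxx
  have c4 : Continuous (fun p : ℝ × ℝ => φyy p.1 p.2) := cφyy
  have c5 : Continuous (fun p : ℝ × ℝ => φy p.1 p.2) := cφy
  -- the two terms
  set F1 : ℝ → ℝ → ℝ := fun x y => eta b x0 x * eta b y0 y * φx x y ^ 2 with hF1
  set F2 : ℝ → ℝ → ℝ := fun x y => eta b x0 x * eta b y0 y * φy x y ^ 2 with hF2
  set G1 : ℝ → ℝ → ℝ := fun x y => eta b y0 y *
    (1 / 2 * eta2 b x0 x * φ x y ^ 2 - eta b x0 x * φ x y * φxx x y) with hG1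
  set G2 : ℝ → ℝ → ℝ := fun x y => eta b x0 x *
    (1 / 2 * eta2 b y0 y * φ x y ^ 2 - eta b y0 y * φ x y * φyy x y) with hG2
  have kF1 : Continuous (Function.uncurry F1) := by
    show Continuous fun p : ℝ × ℝ => eta b x0 p.1 * eta b y0 p.2 * φx p.1 p.2 ^ 2
    fun_prop
  have kF2 : Continuous (Function.uncurry F2) := by
    show Continuous fun p : ℝ × ℝ => eta b x0 p.1 * eta b y0 p.2 * φy p.1 p.2 ^ 2
    fun_prop
  have kG1 : Continuous (Function.uncurry G1) := by
    show Continuous fun p : ℝ × ℝ => eta b y0 p.2 *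
      (1 / 2 * eta2 b x0 p.1 * φ p.1 p.2 ^ 2 - eta b x0 p.1 * φ p.1 p.2 * φxx p.1 p.2)
    fun_prop
  have kG2 : Continuous (Function.uncurry G2) := by
    show Continuous fun p : ℝ × ℝ => eta b x0 p.1 *
      (1 / 2 * eta2 b y0 p.2 * φ p.1 p.2 ^ 2 - eta b y0 p.2 * φ p.1 p.2 * φyy p.1 p.2)
    fun_prop
  have I1 : ∫ x in (x0 - b)..(x0 + b), ∫ y in (y0 - b)..(y0 + b), F1 x y =
      ∫ x in (x0 - b)..(x0 + b), ∫ y in (y0 - b)..(y0 + b), G1 x y := by
    rw [swap kF1, swap kG1]
    refine intervalIntegral.integral_congr fun y _ => ?_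
    have e := one_var (f := fun t => φ t y) (f' := fun t => φx t y) (f'' := fun t => φxx t y)
      (fun t => h.dx t y) (fun t => h.dxx t y) (c3.comp (Continuous.prodMk_left y)) hb x0
    calc ∫ x in (x0 - b)..(x0 + b), F1 x y =
        ∫ x in (x0 - b)..(x0 + b), eta b y0 y * (eta b x0 x * φx x y ^ 2) :=
          intervalIntegral.integral_congr fun x _ => by simp only [hF1]; ring
      _ = eta b y0 y * ∫ x in (x0 - b)..(x0 + b), eta b x0 x * φx x y ^ 2 :=
          intervalIntegral.integral_const_mul _ _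
      _ = ∫ x in (x0 - b)..(x0 + b), G1 x y := by
          rw [e, ← intervalIntegral.integral_const_mul]
  have I2 : ∫ x in (x0 - b)..(x0 + b), ∫ y in (y0 - b)..(y0 + b), F2 x y =
      ∫ x in (x0 - b)..(x0 + b), ∫ y in (y0 - b)..(y0 + b), G2 x y := by
    refine intervalIntegral.integral_congr fun x _ => ?_
    have e := one_var (f := fun t => φ x t) (f' := fun t => φy x t) (f'' := fun t => φyy x t)
      (fun t => h.dy x t) (fun t => h.dyy x t) (c4.comp (Continuous.prodMk_right x)) hb y0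
    calc ∫ y in (y0 - b)..(y0 + b), F2 x y =
        ∫ y in (y0 - b)..(y0 + b), eta b x0 x * (eta b y0 y * φy x y ^ 2) :=
          intervalIntegral.integral_congr fun y _ => by simp only [hF2]; ring
      _ = eta b x0 x * ∫ y in (y0 - b)..(y0 + b), eta b y0 y * φy x y ^ 2 :=
          intervalIntegral.integral_const_mul _ _
      _ = ∫ y in (y0 - b)..(y0 + b), G2 x y := by
          rw [e, ← intervalIntegral.integral_const_mul]
  have I3 : 0 ≤ ∫ x in (x0 - b)..(x0 + b), ∫ y in (y0 - b)..(y0 + b), F2 x y := by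
    refine intervalIntegral.integral_nonneg (by linarith) fun x _ => ?_
    refine intervalIntegral.integral_nonneg (by linarith) fun y _ => ?_
    simp only [hF2]
    have := eta_nonneg b x0 x
    have := eta_nonneg b y0 y
    positivity
  have I4 : (∫ x in (x0 - b)..(x0 + b), ∫ y in (y0 - b)..(y0 + b), G1 x y) +
      (∫ x in (x0 - b)..(x0 + b), ∫ y in (y0 - b)..(y0 + b), G2 x y) ≤
      ∫ x in (x0 - b)..(x0 + b), ∫ y in (y0 - b)..(y0 + b), ((8 / b ^ 2 + Q) * S ^ 2) := by
    rw [← intervalIntegral.integral_add ((int_cont kG1 _ _).intervalIntegrable _ _)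
      ((int_cont kG2 _ _).intervalIntegrable _ _)]
    have e1 : ∀ x, (∫ y in (y0 - b)..(y0 + b), G1 x y) + (∫ y in (y0 - b)..(y0 + b), G2 x y) =
        ∫ y in (y0 - b)..(y0 + b), (G1 x y + G2 x y) := fun x =>
      (intervalIntegral.integral_add
        ((kG1.comp (Continuous.prodMk_right x)).intervalIntegrable _ _)
        ((kG2.comp (Continuous.prodMk_right x)).intervalIntegrable _ _)).symm
    simp only [e1]
    refine mono2 (F := fun x y => G1 x y + G2 x y) (G := fun x y => (8 / b ^ 2 + Q) * S ^ 2)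
      (kG1.add kG2) continuous_const (by linarith) (by linarith) fun x hx y hy => ?_
    have hx' : |x - x0| ≤ b := abs_le.2 ⟨by linarith [hx.1], by linarith [hx.2]⟩
    have hy' : |y - y0| ≤ b := abs_le.2 ⟨by linarith [hy.1], by linarith [hy.2]⟩
    have e2 : G1 x y + G2 x y = 1 / 2 * (eta2 b x0 x * eta b y0 y + eta b x0 x * eta2 b y0 y) *
        φ x y ^ 2 + eta b x0 x * eta b y0 y * q x y * φ x y ^ 2 := by
      simp only [hG1, hG2]
      have := h.pde x y
      linear_combination (-(eta b x0 x * eta b y0 y * φ x y)) * this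
    rw [e2]
    have a1 := eta_nonneg b x0 x
    have a2 := eta_nonneg b y0 y
    have a3 := eta_le_one hb hx'
    have a4 := eta_le_one hb hy'
    have a5 := eta2_le hb hx'
    have a6 := eta2_le hb hy'
    have a7 : φ x y ^ 2 ≤ S ^ 2 := by
      rw [← sq_abs]
      exact pow_le_pow_left₀ (abs_nonneg _) (hS x y hx' hy') 2
    have hb2 : 0 < 8 / b ^ 2 := by positivity
    have a8 : eta2 b x0 x * eta b y0 y ≤ 8 / b ^ 2 := by
      calc eta2 b x0 x * eta b y0 y ≤ 8 / b ^ 2 * eta b y0 y := by gcongr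
        _ ≤ 8 / b ^ 2 * 1 := by gcongr
        _ = _ := mul_one _
    have a9 : eta b x0 x * eta2 b y0 y ≤ 8 / b ^ 2 := by
      calc eta b x0 x * eta2 b y0 y ≤ eta b x0 x * (8 / b ^ 2) := by gcongr
        _ ≤ 1 * (8 / b ^ 2) := by gcongr
        _ = _ := one_mul _
    have a10 : eta b x0 x * eta b y0 y * q x y ≤ Q := by
      have : eta b x0 x * eta b y0 y ≤ 1 := by nlinarith
      calc eta b x0 x * eta b y0 y * q x y ≤ eta b x0 x * eta b y0 y * Q := by
            have := mul_nonneg a1 a2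
            gcongr
            exact hQ x y
        _ ≤ 1 * Q := by gcongr
        _ = Q := one_mul _
    calc 1 / 2 * (eta2 b x0 x * eta b y0 y + eta b x0 x * eta2 b y0 y) * φ x y ^ 2 +
        eta b x0 x * eta b y0 y * q x y * φ x y ^ 2 =
        (1 / 2 * (eta2 b x0 x * eta b y0 y + eta b x0 x * eta2 b y0 y) +
          eta b x0 x * eta b y0 y * q x y) * φ x y ^ 2 := by ring
      _ ≤ (8 / b ^ 2 + Q) * φ x y ^ 2 := by
        refine mul_le_mul_of_nonneg_right ?_ (sq_nonneg _)
        linarith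
      _ ≤ (8 / b ^ 2 + Q) * S ^ 2 := by gcongr
  have I5 : ∫ x in (x0 - b)..(x0 + b), ∫ y in (y0 - b)..(y0 + b), ((8 / b ^ 2 + Q) * S ^ 2) =
      (32 + 4 * Q * b ^ 2) * S ^ 2 := by
    simp only [intervalIntegral.integral_const, smul_eq_mul]
    field_simp
    ring
  have I6 : ∫ x in (x0 - b)..(x0 + b), ∫ y in (y0 - b)..(y0 + b), F1 x y ≤
      (32 + 4 * Q * b ^ 2) * S ^ 2 := by linarith
  -- the half box
  have J1 : ∫ x in (x0 - b / 2)..(x0 + b / 2), ∫ y in (y0 - b / 2)..(y0 + b / 2), F1 x y ≤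
      (32 + 4 * Q * b ^ 2) * S ^ 2 := by
    refine (sub2 kF1 (by linarith) (by linarith) (by linarith) (by linarith) (by linarith)
      (by linarith) fun x y => ?_).trans I6
    simp only [hF1]
    have := eta_nonneg b x0 x
    have := eta_nonneg b y0 y
    positivity
  have J2 : ∫ x in (x0 - b / 2)..(x0 + b / 2), ∫ y in (y0 - b / 2)..(y0 + b / 2),
      (φ x y ^ 2 + b ^ 2 * φx x y ^ 2) ≤
      ∫ x in (x0 - b / 2)..(x0 + b / 2), ∫ y in (y0 - b / 2)..(y0 + b / 2),
      (S ^ 2 + 4 * b ^ 2 * F1 x y) := by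
    refine mono2 (F := fun x y => φ x y ^ 2 + b ^ 2 * φx x y ^ 2)
      (G := fun x y => S ^ 2 + 4 * b ^ 2 * F1 x y) ?_ ?_ (by linarith) (by linarith)
      fun x hx y hy => ?_
    · show Continuous fun p : ℝ × ℝ => φ p.1 p.2 ^ 2 + b ^ 2 * φx p.1 p.2 ^ 2
      fun_prop
    · exact continuous_const.add (continuous_const.mul kF1)
    · have hx' : |x - x0| ≤ b / 2 := abs_le.2 ⟨by linarith [hx.1], by linarith [hx.2]⟩
      have hy' : |y - y0| ≤ b / 2 := abs_le.2 ⟨by linarith [hy.1], by linarith [hy.2]⟩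
      have a1 := eta_half hb hx'
      have a2 := eta_half hb hy'
      have a3 : 1 / 4 ≤ eta b x0 x * eta b y0 y := by nlinarith
      have a7 : φ x y ^ 2 ≤ S ^ 2 := by
        rw [← sq_abs]
        exact pow_le_pow_left₀ (abs_nonneg _) (hS x y (by linarith) (by linarith)) 2
      simp only [hF1]
      have a4 : 0 ≤ b ^ 2 * φx x y ^ 2 := by positivity
      nlinarith [mul_le_mul_of_nonneg_right a3 a4]
  refine J2.trans ?_
  have J3 := const2 kF1 b x0 y0 (S ^ 2) (4 * b ^ 2)
  rw [J3]
  have hb2 : 0 < b ^ 2 := by positivity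
  nlinarith [mul_le_mul_of_nonneg_left J1 (by positivity : (0 : ℝ) ≤ 4 * b ^ 2)]



section modes

open Complex

open scoped ComplexConjugate

variable {q φ φx φxx φy φyy : ℝ → ℝ → ℝ} (h : Sol2 q φ φx φxx φy φyy)
  (hper : ∀ x y, φ x (y + 2 * π) = φ x y)

include h hper

theorem per_y2 : ∀ x y, φy x (y + 2 * π) = φy x y := by
  intro x y
  have h1 : HasDerivAt (fun t => φ x (t + 2 * π)) (φy x (y + 2 * π)) y :=
    (h.dy x (y + 2 * π)).comp_add_const y (2 * π)
  have h2 : (fun t => φ x (t + 2 * π)) = fun t => φ x t := funext fun t => hper x t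
  rw [h2] at h1
  exact h1.unique (h.dy x y)

theorem parts2 (k : ℤ) (x : ℝ) :
    ∫ y in (0 : ℝ)..(2 * π), ((φyy x y : ℂ) + (k : ℂ) ^ 2 * φ x y) * ek k y = 0 := by
  have hd : ∀ y ∈ Set.uIcc 0 (2 * π), HasDerivAt
      (fun y => ((φy x y : ℂ) + (k * I) * φ x y) * ek k y)
      (((φyy x y : ℂ) + (k : ℂ) ^ 2 * φ x y) * ek k y) y := by
    intro y _
    have h1 := ((h.dyy x y).ofReal_comp.add ((h.dy x y).ofReal_comp.const_mul (k * I))).mul
      (ek_deriv k y)
    convert! h1 using 1
    have hI : I * I = -1 := Complex.I_mul_I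
    simp only [Pi.add_apply]
    linear_combination ((k : ℂ) ^ 2 * φ x y * ek k y) * hI
  have hek := ek_cont k
  have c1 : Continuous fun y => (φ x y : ℂ) :=
    Complex.continuous_ofReal.comp (h.c.comp (Continuous.prodMk_right x))
  have c2 : Continuous fun y => (φyy x y : ℂ) :=
    Complex.continuous_ofReal.comp (h.cyy.comp (Continuous.prodMk_right x))
  rw [intervalIntegral.integral_eq_sub_of_hasDerivAt hd
    (Continuous.intervalIntegrable (by fun_prop) _ _)]
  have e1 := hper x 0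
  have e2 := per_y2 h hper x 0
  have e3 := ek_per k 0
  rw [zero_add] at e1 e2 e3
  rw [e1, e2, e3, sub_self]

theorem um_ode2 (k : ℤ) (x : ℝ) :
    um φxx k x = (((k : ℝ) ^ 2 : ℝ) : ℂ) * um φ k x - um (fun x y => q x y * φ x y) k x := by
  have hek := ek_cont k
  have c1 : Continuous fun y => (φ x y : ℂ) :=
    Complex.continuous_ofReal.comp (h.c.comp (Continuous.prodMk_right x))
  have c2 : Continuous fun y => (φyy x y : ℂ) :=
    Complex.continuous_ofReal.comp (h.cyy.comp (Continuous.prodMk_right x))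
  have c3 : Continuous fun y => (q x y : ℂ) :=
    Complex.continuous_ofReal.comp (h.qc.comp (Continuous.prodMk_right x))
  unfold um
  rw [mul_left_comm, ← mul_sub]
  congr 1
  have h1 := parts2 h hper k x
  have h2 : ∫ y in (0 : ℝ)..(2 * π), (φxx x y : ℂ) * ek k y =
      ((∫ y in (0 : ℝ)..(2 * π), (((k : ℝ) ^ 2 : ℝ) : ℂ) * ((φ x y : ℂ) * ek k y)) -
      ∫ y in (0 : ℝ)..(2 * π), ((q x y * φ x y : ℝ) : ℂ) * ek k y) -
      ∫ y in (0 : ℝ)..(2 * π), ((φyy x y : ℂ) + (k : ℂ) ^ 2 * φ x y) * ek k y := by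
    rw [← intervalIntegral.integral_sub (Continuous.intervalIntegrable (by fun_prop) _ _)
      (Continuous.intervalIntegrable (by push_cast; fun_prop) _ _),
      ← intervalIntegral.integral_sub (Continuous.intervalIntegrable (by push_cast; fun_prop) _ _)
      (Continuous.intervalIntegrable (by fun_prop) _ _)]
    refine intervalIntegral.integral_congr fun y _ => ?_
    have h3 : φxx x y = -(q x y * φ x y) - φyy x y := by linarith [h.pde x y]
    simp only [h3]
    push_cast
    ring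
  rw [h2, h1, sub_zero, intervalIntegral.integral_const_mul]

theorem um_d12 (k : ℤ) (x : ℝ) : HasDerivAt (um φ k) (um φx k x) x :=
  um_deriv h.c h.cx h.dx k x

theorem um_d22 (k : ℤ) (x : ℝ) :
    HasDerivAt (um φx k) ((((k : ℝ) ^ 2 : ℝ) : ℂ) * um φ k x -
      um (fun x y => q x y * φ x y) k x) x := by
  rw [← um_ode2 h hper]
  exact um_deriv h.cx h.cxx h.dxx k x

end modes

/-- The modes of a function that is invariant under a twist. -/
theorem um_twist {F : ℝ → ℝ → ℝ} (hF : Continuous (Function.uncurry F))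
    (hper : ∀ x y, F x (y + 2 * π) = F x y) {L α : ℝ} (htw : ∀ x y, F (x + L) (y + α) = F x y)
    (k : ℤ) (x : ℝ) : ‖um F k (x + L)‖ = ‖um F k x‖ := by
  have h1 : ∫ y in (0 : ℝ)..(2 * π), (F (x + L) y : ℂ) * ek k y =
      ek k α * ∫ y in (0 : ℝ)..(2 * π), (F x y : ℂ) * ek k y := by
    have hp1 : Function.Periodic (fun y => (F (x + L) y : ℂ) * ek k y) (2 * π) := by
      intro y
      simp only [hper, ek_per]
    have hp2 := hp1.intervalIntegral_add_eq 0 α
    rw [zero_add] at hp2
    rw [hp2, ← intervalIntegral.integral_const_mul]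
    have h3 := intervalIntegral.integral_comp_add_right
      (fun y => (F (x + L) y : ℂ) * ek k y) (a := 0) (b := 2 * π) α
    rw [zero_add, add_comm (2 * π) α] at h3
    rw [← h3]
    refine intervalIntegral.integral_congr fun y _ => ?_
    simp only [htw]
    have h4 : ek k (y + α) = ek k α * ek k y := by
      unfold ek
      rw [← Complex.exp_add]
      congr 1
      push_cast
      ring
    rw [h4]
    ring
  unfold um
  rw [h1, norm_mul, norm_mul, norm_mul]
  have h5 : ‖ek k α‖ = 1 := by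
    unfold ek
    rw [Complex.norm_exp]
    simp
  rw [h5, one_mul]

theorem um_le {F : ℝ → ℝ → ℝ} {B x : ℝ} (hB : ∀ y, |F x y| ≤ B) (k : ℤ) : ‖um F k x‖ ≤ B := by
  unfold um
  have h1 : ‖∫ y in (0 : ℝ)..(2 * π), (F x y : ℂ) * ek k y‖ ≤ B * |2 * π - 0| := by
    refine intervalIntegral.norm_integral_le_of_norm_le_const fun y _ => ?_
    have h5 : ‖ek k y‖ = 1 := by
      unfold ek
      rw [Complex.norm_exp]
      simp
    rw [norm_mul, h5, mul_one, Complex.norm_real]
    exact hB y
  rw [norm_mul, Complex.norm_real, Real.norm_of_nonneg (by positivity)]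
  rw [sub_zero, abs_of_pos Real.two_pi_pos] at h1
  calc 1 / (2 * π) * ‖∫ y in (0 : ℝ)..(2 * π), (F x y : ℂ) * ek k y‖
      ≤ 1 / (2 * π) * (B * (2 * π)) := by gcongr
    _ = B := by
        field_simp

/-- Fourier inversion. -/
theorem inversion2 {F : ℝ → ℝ → ℝ} (hF : Continuous (Function.uncurry F))
    (hper : ∀ x y, F x (y + 2 * π) = F x y) (x : ℝ) (hs : Summable fun k : ℤ => ‖um F k x‖)
    (y : ℝ) : HasSum (fun k : ℤ => um F k x * Complex.exp (k * y * Complex.I)) (F x y : ℂ) := by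
  have : Fact (0 < 2 * π) := ⟨by positivity⟩
  have hper' : Function.Periodic (fun y => (F x y : ℂ)) (2 * π) := fun y => by
    simp only [hper]
  have c1 : Continuous fun y => (F x y : ℂ) :=
    Complex.continuous_ofReal.comp (hF.comp (Continuous.prodMk_right x))
  have hcl : Continuous (hper'.lift) := c1.quotient_liftOn' _
  set f : C(AddCircle (2 * π), ℂ) := ⟨hper'.lift, hcl⟩ with hf
  have hfv : ∀ y : ℝ, f (y : AddCircle (2 * π)) = F x y := fun y => hper'.lift_coe y
  have hcoef : ∀ k : ℤ, fourierCoeff f k = um F k x := by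
    intro k
    rw [fourierCoeff_eq_intervalIntegral f k 0, zero_add]
    unfold um
    rw [Complex.real_smul]
    congr 1
    refine intervalIntegral.integral_congr fun y _ => ?_
    rw [hfv, fourier_coe_apply, smul_eq_mul, mul_comm]
    congr 1
    unfold ek
    congr 1
    push_cast
    field_simp
  have hsum : Summable (fourierCoeff f) := by
    refine Summable.of_norm ?_
    simp only [hcoef]
    exact hs
  have h1 := has_pointwise_sum_fourier_series_of_summable hsum (y : AddCircle (2 * π))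
  rw [hfv] at h1
  convert! h1 using 2 with k
  rw [hcoef, fourier_coe_apply, smul_eq_mul]
  congr 2
  push_cast
  field_simp

end Pool.Agent.Y291.PA
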